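import Pool.Agent.Lib.MP_446a91_nt.Twist

/-! Operator systems, vanishing on words, filtrations (MP_446a91_nt). -/

namespace Pool.Agent.Lib.MP_446a91_nt

open Module

section V
variable {P : Type*} [AddCommGroup P] [Module ℚ P]

/-- `H ∈ Vn S o U j` iff `H (t₁ ⋯ t_j o) ∈ U` for all `t₁, …, t_j ∈ S`. -/
def Vn (S : Set (End ℚ P)) (o : P) (U : Submodule ℚ P) : ℕ → Submodule ℚ (End ℚ P)
  | 0 => U.comap (LinearMap.applyₗ o)
  | j + 1 => ⨅ t ∈ S, (Vn S o U j).comap (LinearMap.mulRight ℚ t)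

variable {S S' : Set (End ℚ P)} {o : P} {U U' : Submodule ℚ P} {H t : End ℚ P} {j : ℕ}

theorem mem_Vn_zero : H ∈ Vn S o U 0 ↔ H o ∈ U := by simp [Vn]

theorem mem_Vn_succ : H ∈ Vn S o U (j + 1) ↔ ∀ t ∈ S, H * t ∈ Vn S o U j := by
  simp [Vn, Submodule.mem_iInf]

theorem Vn_span (h : H ∈ Vn S o U (j + 1)) (ht : t ∈ Submodule.span ℚ S) :
    H * t ∈ Vn S o U j := by
  induction ht using Submodule.span_induction with
  | mem s hs => exact mem_Vn_succ.1 h s hs
  | zero => simp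
  | add s s' _ _ h1 h2 => rw [mul_add]; exact add_mem h1 h2
  | smul c s _ h1 => rw [mul_smul_comm]; exact Submodule.smul_mem _ c h1

theorem Vn_left {x : End ℚ P} (hx : ∀ v ∈ U, x v ∈ U') (h : H ∈ Vn S o U j) :
    x * H ∈ Vn S o U' j := by
  induction j generalizing H with
  | zero => exact mem_Vn_zero.2 (hx _ (mem_Vn_zero.1 h))
  | succ j ih =>
    refine mem_Vn_succ.2 fun t ht => ?_
    rw [mul_assoc]; exact ih (mem_Vn_succ.1 h t ht)

theorem Vn_left0 (x : End ℚ P) (h : H ∈ Vn S o ⊥ j) : x * H ∈ Vn S o ⊥ j :=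
  Vn_left (fun v hv => by rw [Submodule.mem_bot] at hv ⊢; simp [hv]) h

theorem Vn_mono (hS : S' ⊆ Submodule.span ℚ S) (hU : U ≤ U') (h : H ∈ Vn S o U j) :
    H ∈ Vn S' o U' j := by
  induction j generalizing H with
  | zero => exact mem_Vn_zero.2 (hU (mem_Vn_zero.1 h))
  | succ j ih => exact mem_Vn_succ.2 fun t ht => ih (Vn_span h (hS ht))

theorem Vn_pow (ht : t ∈ Submodule.span ℚ S) (i : ℕ) (h : H ∈ Vn S o U (j + i)) :
    H * t ^ i ∈ Vn S o U j := by
  induction i generalizing H with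
  | zero => simpa using h
  | succ i ih =>
    rw [pow_succ', ← mul_assoc]
    exact ih (Vn_span h ht)

theorem Vn_comm (hc : ∀ t ∈ S, H * t = t * H) (ho : H o = 0) (j : ℕ) : H ∈ Vn S o ⊥ j := by
  induction j with
  | zero => exact mem_Vn_zero.2 (by simp [ho])
  | succ j ih => exact mem_Vn_succ.2 fun t ht => by rw [hc t ht]; exact Vn_left0 t ih

theorem Vn_conj {τ : End ℚ P} (hτ : ∀ t' ∈ S', ∃ t ∈ S, τ * t' = t * τ) (ho : τ o = o)
    (h : H ∈ Vn S o U j) : H * τ ∈ Vn S' o U j := by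
  induction j generalizing H with
  | zero => exact mem_Vn_zero.2 (by simpa [ho] using mem_Vn_zero.1 h)
  | succ j ih =>
    refine mem_Vn_succ.2 fun t' ht' => ?_
    obtain ⟨t, ht, e⟩ := hτ t' ht'
    rw [mul_assoc, e, ← mul_assoc]
    exact ih (mem_Vn_succ.1 h t ht)

/-- Descending induction along powers of `t`. -/
theorem desc_ind {W : Submodule ℚ (End ℚ P)} (hW : ∀ p, ∀ H ∈ W, p * H ∈ W) {K p : End ℚ P}
    {m : ℕ} (h0 : H * t ^ m = 0) (hH : H = K + p * H * t) (hK : ∀ i, K * t ^ i ∈ W) : H ∈ W := by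
  have key : ∀ r i, i + r = m → H * t ^ i ∈ W := by
    intro r
    induction r with
    | zero => intro i hi; rw [show i = m by omega, h0]; exact W.zero_mem
    | succ r ih =>
      intro i hi
      have e : H * t ^ i = K * t ^ i + p * (H * t ^ (i + 1)) := by
        conv_lhs => rw [hH]
        rw [pow_succ']; noncomm_ring
      rw [e]
      exact add_mem (hK i) (hW _ _ (ih (i + 1) (by omega)))
  simpa using key m 0 (by simp)

end V

/-- A module over the Drinfeld–Kohno algebra modulo its centre, with a base vector: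
`a = t₁₂`, `b = t₁₄`, `d = t₂₄`, `e = t₂₃`, `f = t₃₄`. -/
structure Ops (P : Type*) [AddCommGroup P] [Module ℚ P] where
  a : End ℚ P
  b : End ℚ P
  d : End ℚ P
  e : End ℚ P
  f : End ℚ P
  o : P
  r1 : a * f = f * a
  r2 : b * e = e * b
  r3 : a * (b + d) = (b + d) * a
  r4 : b * (a + d) = (a + d) * b
  r5 : e * (d + f) = (d + f) * e
  r6 : f * (d + e) = (d + e) * f

namespace Ops
variable {P : Type*} [AddCommGroup P] [Module ℚ P] (O : Ops P)

/-- The symmetry `(13)(24)`. -/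
def tau : Ops P where
  a := O.f
  b := O.e
  d := O.d
  e := O.b
  f := O.a
  o := O.o
  r1 := O.r1.symm
  r2 := O.r2.symm
  r3 := by rw [add_comm]; exact O.r6
  r4 := by rw [add_comm]; exact O.r5
  r5 := by rw [add_comm]; exact O.r4
  r6 := by rw [add_comm]; exact O.r3

/-- Rescaling all operators. -/
def scale (u : ℚ) : Ops P where
  a := u • O.a
  b := u • O.b
  d := u • O.d
  e := u • O.e
  f := u • O.f
  o := O.o
  r1 := by simp only [smul_mul_smul_comm, O.r1]
  r2 := by simp only [smul_mul_smul_comm, O.r2]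
  r3 := by simp only [← smul_add, smul_mul_smul_comm, O.r3]
  r4 := by simp only [← smul_add, smul_mul_smul_comm, O.r4]
  r5 := by simp only [← smul_add, smul_mul_smul_comm, O.r5]
  r6 := by simp only [← smul_add, smul_mul_smul_comm, O.r6]

def S5 : Set (End ℚ P) := {O.a, O.b, O.d, O.e, O.f}
def SX : Set (End ℚ P) := {O.b + O.d, O.f}
def SU : Set (End ℚ P) := {O.e + O.d, O.a}

theorem tau_S5 : O.tau.S5 = O.S5 := by
  ext t; simp only [S5, tau, Set.mem_insert_iff, Set.mem_singleton_iff]; tauto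
theorem tau_SX : O.tau.SX = O.SU := rfl
theorem tau_o : O.tau.o = O.o := rfl

theorem a_mem : O.a ∈ Submodule.span ℚ O.S5 := Submodule.subset_span (by simp [S5])
theorem b_mem : O.b ∈ Submodule.span ℚ O.S5 := Submodule.subset_span (by simp [S5])
theorem d_mem : O.d ∈ Submodule.span ℚ O.S5 := Submodule.subset_span (by simp [S5])
theorem e_mem : O.e ∈ Submodule.span ℚ O.S5 := Submodule.subset_span (by simp [S5])
theorem f_mem : O.f ∈ Submodule.span ℚ O.S5 := Submodule.subset_span (by simp [S5])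

theorem mem_V5 {U : Submodule ℚ P} {H : End ℚ P} {j : ℕ} (ha : H * O.a ∈ Vn O.S5 O.o U j)
    (hb : H * O.b ∈ Vn O.S5 O.o U j) (hd : H * O.d ∈ Vn O.S5 O.o U j)
    (he : H * O.e ∈ Vn O.S5 O.o U j) (hf : H * O.f ∈ Vn O.S5 O.o U j) :
    H ∈ Vn O.S5 O.o U (j + 1) := by
  refine mem_Vn_succ.2 fun t ht => ?_
  simp only [S5, Set.mem_insert_iff, Set.mem_singleton_iff] at ht
  rcases ht with rfl | rfl | rfl | rfl | rfl <;> assumption

theorem mem_VX {U : Submodule ℚ P} {H : End ℚ P} {j : ℕ} :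
    H ∈ Vn O.SX O.o U (j + 1) ↔
      H * (O.b + O.d) ∈ Vn O.SX O.o U j ∧ H * O.f ∈ Vn O.SX O.o U j := by
  simp [mem_Vn_succ, SX]

theorem mem_VU {U : Submodule ℚ P} {H : End ℚ P} {j : ℕ} :
    H ∈ Vn O.SU O.o U (j + 1) ↔
      H * (O.e + O.d) ∈ Vn O.SU O.o U j ∧ H * O.a ∈ Vn O.SU O.o U j := by
  simp [mem_Vn_succ, SU]

/-- Normal ordering: a map is controlled by its fibre derivatives and its base values. -/
theorem lemX {U : Submodule ℚ P} (j : ℕ) : ∀ H : End ℚ P, H * O.a ∈ Vn O.S5 O.o U j →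
    H * O.e ∈ Vn O.S5 O.o U j → H * O.d ∈ Vn O.S5 O.o U j → H ∈ Vn O.SX O.o U (j + 1) →
    H ∈ Vn O.S5 O.o U (j + 1) := by
  induction j with
  | zero =>
    intro H ha he hd hB
    obtain ⟨h1, h2⟩ := O.mem_VX.1 hB
    refine O.mem_V5 ha ?_ hd he (mem_Vn_zero.2 (mem_Vn_zero.1 h2))
    have : H * O.b = H * (O.b + O.d) - H * O.d := by noncomm_ring
    rw [this]
    exact sub_mem (mem_Vn_zero.2 (mem_Vn_zero.1 h1)) hd
  | succ j ih =>
    intro H ha he hd hB
    obtain ⟨h1, h2⟩ := O.mem_VX.1 hB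
    have bd : O.b + O.d ∈ Submodule.span ℚ O.S5 := add_mem O.b_mem O.d_mem
    have hf : H * O.f ∈ Vn O.S5 O.o U (j + 1) := by
      refine ih _ ?_ ?_ ?_ h2
      · have : H * O.f * O.a = H * O.a * O.f := by
          linear_combination (norm := noncomm_ring) - H * O.r1
        rw [this]; exact Vn_span ha O.f_mem
      · have : H * O.f * O.e = H * O.e * (O.d + O.f) - H * O.d * O.e := by
          linear_combination (norm := noncomm_ring) - H * O.r5
        rw [this]
        exact sub_mem (Vn_span he (add_mem O.d_mem O.f_mem)) (Vn_span hd O.e_mem)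
      · have : H * O.f * O.d = H * O.d * (O.e + O.f) - H * O.e * O.d := by
          linear_combination (norm := noncomm_ring) H * O.r5 + H * O.r6
        rw [this]
        exact sub_mem (Vn_span hd (add_mem O.e_mem O.f_mem)) (Vn_span he O.d_mem)
    have hbd : H * (O.b + O.d) ∈ Vn O.S5 O.o U (j + 1) := by
      refine ih _ ?_ ?_ ?_ h1
      · have : H * (O.b + O.d) * O.a = H * O.a * (O.b + O.d) := by
          linear_combination (norm := noncomm_ring) - H * O.r3
        rw [this]; exact Vn_span ha bd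
      · have : H * (O.b + O.d) * O.e = H * O.e * O.b + H * O.d * O.e := by
          linear_combination (norm := noncomm_ring) H * O.r2
        rw [this]
        exact add_mem (Vn_span he O.b_mem) (Vn_span hd O.e_mem)
      · have : H * (O.b + O.d) * O.d = H * O.d * (O.a + O.b + O.d) - H * O.a * O.d := by
          linear_combination (norm := noncomm_ring) H * O.r3 + H * O.r4
        rw [this]
        exact sub_mem (Vn_span hd (add_mem (add_mem O.a_mem O.b_mem) O.d_mem))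
          (Vn_span ha O.d_mem)
    refine O.mem_V5 ha ?_ hd he hf
    have : H * O.b = H * (O.b + O.d) - H * O.d := by noncomm_ring
    rw [this]
    exact sub_mem hbd hd

theorem lemU {U : Submodule ℚ P} (j : ℕ) (H : End ℚ P) (hf : H * O.f ∈ Vn O.S5 O.o U j)
    (hb : H * O.b ∈ Vn O.S5 O.o U j) (hd : H * O.d ∈ Vn O.S5 O.o U j)
    (hB : H ∈ Vn O.SU O.o U (j + 1)) : H ∈ Vn O.S5 O.o U (j + 1) := by
  have := O.tau.lemX (U := U) j H
  rw [tau_S5, tau_SX, tau_o] at this
  exact this hf hb hd hB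

theorem scale_S5 (u : ℚ) : (O.scale u).S5 ⊆ Submodule.span ℚ O.S5 := by
  intro t ht
  simp only [S5, scale, Set.mem_insert_iff, Set.mem_singleton_iff] at ht
  rcases ht with rfl | rfl | rfl | rfl | rfl
  exacts [Submodule.smul_mem _ _ O.a_mem, Submodule.smul_mem _ _ O.b_mem,
    Submodule.smul_mem _ _ O.d_mem, Submodule.smul_mem _ _ O.e_mem,
    Submodule.smul_mem _ _ O.f_mem]

theorem scale_SX (u : ℚ) : (O.scale u).SX ⊆ Submodule.span ℚ O.SX := by
  intro t ht
  simp only [SX, scale, Set.mem_insert_iff, Set.mem_singleton_iff, ← smul_add] at ht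
  rcases ht with rfl | rfl <;>
    exact Submodule.smul_mem _ _ (Submodule.subset_span (by simp [SX]))

theorem scale_SU (u : ℚ) : (O.scale u).SU ⊆ Submodule.span ℚ O.SU := by
  intro t ht
  simp only [SU, scale, Set.mem_insert_iff, Set.mem_singleton_iff, ← smul_add] at ht
  rcases ht with rfl | rfl <;>
    exact Submodule.smul_mem _ _ (Submodule.subset_span (by simp [SU]))

/-- The module is generated by the base vector. -/
def Cyc : Prop := ∀ H : End ℚ P, (∀ j, H ∈ Vn O.S5 O.o ⊥ j) → H = 0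

theorem Cyc.scale {O : Ops P} (h : O.Cyc) {u : ℚ} (hu : u ≠ 0) : (O.scale u).Cyc := by
  intro H hH
  refine h H fun j => Vn_mono ?_ le_rfl (hH j)
  have h1 := (O.scale u).scale_S5 u⁻¹
  have h2 : ((O.scale u).scale u⁻¹).S5 = O.S5 := by
    simp [S5, Ops.scale, smul_smul, inv_mul_cancel₀ hu]
  rwa [h2] at h1

end Ops

section Filt

theorem fix_exists {E : Type*} [AddCommGroup E] [Module ℚ E] {Fl : ℕ → Submodule ℚ E}
    (anti : Antitone Fl) {m : ℕ} (hm : Fl m = ⊥) (Φ : E →ₗ[ℚ] E)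
    (hΦ : ∀ k, ∀ v ∈ Fl k, Φ v ∈ Fl (k + 1)) {e0 : E} (h0 : e0 ∈ Fl 0) :
    ∃ e ∈ Fl 0, e = e0 + Φ e := by
  have hp : ∀ i, (Φ ^ i) e0 ∈ Fl i := by
    intro i
    induction i with
    | zero => simpa using h0
    | succ i ih => rw [pow_succ']; exact hΦ _ _ ih
  refine ⟨(∑ i ∈ Finset.range m, Φ ^ i) e0, ?_, ?_⟩
  · rw [LinearMap.sum_apply]
    exact Submodule.sum_mem _ fun i _ => anti (Nat.zero_le i) (hp i)
  · have h1 := congrArg (fun T : End ℚ E => T e0) (mul_neg_geom_sum (Φ : End ℚ E) m)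
    have h2 : (Φ ^ m) e0 = 0 := by simpa [hm] using hp m
    simp only [sub_mul, one_mul, LinearMap.sub_apply, End.mul_apply, End.one_apply, h2,
      sub_zero] at h1
    exact sub_eq_iff_eq_add.1 h1

variable {P : Type*} [AddCommGroup P] [Module ℚ P]

/-- A finite decreasing filtration. -/
structure Filt (P : Type*) [AddCommGroup P] [Module ℚ P] where
  N : ℕ → Submodule ℚ P
  m : ℕ
  anti : Antitone N
  top : N 0 = ⊤
  bot : N m = ⊥

/-- Endomorphisms raising the filtration by `k`. -/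
def Filt.Up (Φ : Filt P) (k : ℕ) : Submodule ℚ (End ℚ P) where
  carrier := {T | ∀ i, ∀ v ∈ Φ.N i, T v ∈ Φ.N (i + k)}
  zero_mem' := fun _ _ _ => by simp
  add_mem' := fun h1 h2 i v hv => add_mem (h1 i v hv) (h2 i v hv)
  smul_mem' := fun c _ h i v hv => Submodule.smul_mem _ c (h i v hv)

variable {Φ : Filt P} {T T' : End ℚ P} {j k : ℕ}

theorem Up_mul (h : T ∈ Φ.Up j) (h' : T' ∈ Φ.Up k) : T * T' ∈ Φ.Up (k + j) :=
  fun i v hv => by simpa [add_assoc] using h _ _ (h' i v hv)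

theorem Up_anti : Antitone Φ.Up :=
  fun _ _ hjk _ h i v hv => Φ.anti (Nat.add_le_add_left hjk i) (h i v hv)

theorem Up_bot : Φ.Up Φ.m = ⊥ := by
  refine eq_bot_iff.2 fun T h => ?_
  rw [Submodule.mem_bot]
  ext v
  have := h 0 v (by simp [Φ.top])
  simpa [Φ.bot] using this

theorem Up_one : (1 : End ℚ P) ∈ Φ.Up 0 := fun _ _ hv => hv

theorem Up_pow (h : T ∈ Φ.Up 1) (i : ℕ) : T ^ i ∈ Φ.Up i := by
  induction i with
  | zero => exact Up_one
  | succ i ih => rw [pow_succ']; exact Up_mul h ih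

theorem Up_inv (h : T ∈ Φ.Up 1) :
    ∃ n ∈ Φ.Up 0, n * (1 - T) = 1 ∧ (1 - T) * n = 1 := by
  have h0 : T ^ Φ.m = 0 := by simpa [Up_bot] using Up_pow h Φ.m
  refine ⟨∑ i ∈ Finset.range Φ.m, T ^ i,
    Submodule.sum_mem _ fun i _ => Up_anti (Nat.zero_le i) (Up_pow h i), ?_, ?_⟩
  · rw [geom_sum_mul_neg, h0, sub_zero]
  · rw [mul_neg_geom_sum, h0, sub_zero]

theorem Up_canc (h : T ∈ Φ.Up 1) (W : End ℚ P) (hW : W = T * W) : W = 0 := by
  obtain ⟨n, -, h1, -⟩ := Up_inv h
  linear_combination (norm := noncomm_ring) n * hW - h1 * W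

theorem Up_kappa {x y : End ℚ P} (hx : x ∈ Φ.Up 1) (hy : y ∈ Φ.Up 1) :
    ∃ k ∈ Φ.Up 0, k = 1 + k * x + y * k := by
  obtain ⟨k, hk, e⟩ := fix_exists (Fl := Φ.Up) Up_anti Up_bot
    (LinearMap.mulRight ℚ x + LinearMap.mulLeft ℚ y)
    (fun k T hT => add_mem (by simpa [add_comm] using Up_mul hT hx) (Up_mul hy hT)) Up_one
  exact ⟨k, hk, by rw [add_assoc]; exact e⟩

end Filt

end Pool.Agent.Lib.MP_446a91_nt
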