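import Pool.Agent.Lib.MP_446a91_nt.Defs

/-! The free graded Lie algebra with one generator in each odd degree `≥ 3` (MP_446a91_nt). -/

namespace Pool.Agent.Lib.MP_446a91_nt

noncomputable section

/-- The free Lie algebra over `ℚ` on generators `s_3, s_5, s_7, …`; the generator with index
`i : ℕ` is `s_{2 i + 3}`. -/
abbrev LMot : Type := FreeLieAlgebra ℚ ℕ

/-- `IsBrMot n u`: `u` is an iterated bracket of generators, of total degree `n`, where the
generator with index `i` has degree `2 i + 3`. -/
inductive IsBrMot : ℕ → LMot → Prop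
  | of (i : ℕ) : IsBrMot (2 * i + 3) (FreeLieAlgebra.of ℚ i)
  | lie {m n : ℕ} {u v : LMot} : IsBrMot m u → IsBrMot n v → IsBrMot (m + n) ⁅u, v⁆

/-- The homogeneous component of degree `n` of `LMot`. -/
def degMot (n : ℕ) : Submodule ℚ LMot := Submodule.span ℚ {u | IsBrMot n u}

end

end Pool.Agent.Lib.MP_446a91_nt
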