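import Pool.Agent.Lib.MP_446a91_nt.CovCore
import Pool.Agent.Lib.MP_446a91_nt.CovDefs

/-! Three eliminations: from Lie polynomials in `x, y` to the free Lie algebra on odd generators
(MP_446a91_nt). -/

namespace Pool.Agent.Lib.MP_446a91_nt

open Module

attribute [local instance 100] LieRing.ofAssociativeRing

noncomputable section

section elim
variable {ι κ A B : Type} [Ring A] [Ring B]

/-- Iterated commutators of weighted generators. -/
inductive BQ (g : ι → A) (wt : ι → ℕ) : ℕ → A → Prop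
  | of (i : ι) : BQ g wt (wt i) (g i)
  | lie {m n : ℕ} {u v : A} : BQ g wt m u → BQ g wt n v → BQ g wt (m + n) (cq u v)

variable [Algebra ℚ A] [Algebra ℚ B]

def LQ (g : ι → A) (wt : ι → ℕ) (n : ℕ) : Submodule ℚ A := Submodule.span ℚ {u | BQ g wt n u}

variable {g : ι → A} {wt : ι → ℕ} {g' : κ → B} {wt' : κ → ℕ} {m n : ℕ}

theorem LQ_of (i : ι) (h : wt i = n) : g i ∈ LQ g wt n := Submodule.subset_span (h ▸ BQ.of i)

theorem LQ_cq {u v : A} (hu : u ∈ LQ g wt m) (hv : v ∈ LQ g wt n) : cq u v ∈ LQ g wt (m + n) := by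
  induction hu using Submodule.span_induction with
  | mem u hu =>
    induction hv using Submodule.span_induction with
    | mem v hv => exact Submodule.subset_span (hu.lie hv)
    | zero => simp [cq]
    | add a b _ _ h1 h2 =>
      rw [show cq u (a + b) = cq u a + cq u b by simp only [cq]; noncomm_ring]
      exact add_mem h1 h2
    | smul c a _ h1 =>
      rw [show cq u (c • a) = c • cq u a by simp [cq, smul_sub]]
      exact Submodule.smul_mem _ c h1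
  | zero => simp [cq]
  | add a b _ _ h1 h2 =>
    rw [show cq (a + b) v = cq a v + cq b v by simp only [cq]; noncomm_ring]
    exact add_mem h1 h2
  | smul c a _ h1 =>
    rw [show cq (c • a) v = c • cq a v by simp [cq, smul_sub]]
    exact Submodule.smul_mem _ c h1

theorem LQ_der {D : End ℚ A} (hD : IsDer D) {a : ℕ} (h : ∀ i, D (g i) ∈ LQ g wt (wt i + a))
    {u : A} (hu : u ∈ LQ g wt n) : D u ∈ LQ g wt (n + a) := by
  refine (Submodule.span_le (p := (LQ g wt (n + a)).comap D)).2 (fun u hv => ?_) hu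
  change D u ∈ LQ g wt (n + a)
  have hu' : BQ g wt n u := hv
  clear hu hv
  induction hu' with
  | of i => exact h i
  | @lie m n u v h1 h2 i1 i2 =>
    rw [show D (cq u v) = cq (D u) v + cq u (D v) by
      simp only [cq, map_sub, hD _ _]; noncomm_ring]
    refine add_mem ?_ ?_
    · rw [add_right_comm]; exact LQ_cq i1 (Submodule.subset_span h2)
    · rw [add_assoc]; exact LQ_cq (Submodule.subset_span h1) i2

/-- Elimination of the generator `i1`, which acts as a derivation. -/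
theorem LQ_elim (f : A →ₐ[ℚ] End ℚ B) (i1 : ι) (hD : IsDer (f (g i1)))
    (h1 : ∀ j, f (g i1) (g' j) ∈ LQ g' wt' (wt' j + wt i1))
    (h2 : ∀ i, i ≠ i1 → ∃ b ∈ LQ g' wt' (wt i), f (g i) = LM ℚ b) (hn : n ≠ wt i1) {u : A}
    (hu : u ∈ LQ g wt n) : f u 1 ∈ LQ g' wt' n := by
  have key : ∀ n u, BQ g wt n u →
      (∃ b ∈ LQ g' wt' n, f u = LM ℚ b) ∨ (u = g i1 ∧ n = wt i1) := by
    intro n u hu
    induction hu with
    | of i =>
      by_cases h : i = i1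
      · exact Or.inr ⟨by rw [h], by rw [h]⟩
      · exact Or.inl (h2 i h)
    | @lie m n u v _ _ a1 a2 =>
      left
      rcases a1 with ⟨b, hb, e⟩ | ⟨rfl, rfl⟩ <;> rcases a2 with ⟨b', hb', e'⟩ | ⟨rfl, rfl⟩
      · exact ⟨_, LQ_cq hb hb', by simp [cq, e, e']⟩
      · exact ⟨_, neg_mem (LQ_der hD h1 hb), by simp [cq, e, ← hD.LM]⟩
      · exact ⟨_, add_comm n _ ▸ LQ_der hD h1 hb', by simp [cq, e', ← hD.LM]⟩
      · exact ⟨0, zero_mem _, by simp [cq]⟩
  refine (Submodule.span_le (p := (LQ g' wt' n).comap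
    (LinearMap.applyₗ 1 ∘ₗ f.toLinearMap))).2 (fun u hu => ?_) hu
  obtain ⟨b, hb, e⟩ := (key n u hu).resolve_right fun h => hn h.2
  simpa [e] using hb

/-- A central shift of one generator is not seen by the other Lie polynomials. -/
theorem LQ_shift (f f' : A →ₐ[ℚ] B) (i1 : ι) (c : B) (hc : ∀ i, c * f (g i) = f (g i) * c)
    (h1 : f' (g i1) = f (g i1) + c) (h2 : ∀ i, i ≠ i1 → f' (g i) = f (g i)) (hn : n ≠ wt i1)
    {u : A} (hu : u ∈ LQ g wt n) : f' u = f u := by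
  have key : ∀ n u, BQ g wt n u → c * f u = f u * c ∧
      (f' u = f u ∨ (f' u = f u + c ∧ n = wt i1)) := by
    intro n u hu
    induction hu with
    | of i =>
      by_cases h : i = i1
      · exact ⟨hc i, Or.inr ⟨by rw [h, h1], by rw [h]⟩⟩
      · exact ⟨hc i, Or.inl (h2 i h)⟩
    | @lie m n u v _ _ a1 a2 =>
      obtain ⟨c1, a1⟩ := a1
      obtain ⟨c2, a2⟩ := a2
      simp only [cq, map_sub, map_mul]
      refine ⟨?_, Or.inl ?_⟩
      · rw [mul_sub, sub_mul, ← mul_assoc, c1, mul_assoc, c2, ← mul_assoc c, c2, mul_assoc, c1,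
          mul_assoc, mul_assoc]
      · rcases a1 with e | ⟨e, -⟩ <;> rcases a2 with e' | ⟨e', -⟩ <;>
          simp only [e, e', mul_add, add_mul, c1, c2] <;> abel
  refine (Submodule.span_le (p := LinearMap.eqLocus f'.toLinearMap f.toLinearMap)).2
    (fun u hu => ?_) hu
  exact (key n u hu).2.resolve_right fun h => hn h.2

end elim

theorem evW_inter {X M M' : Type} [AddCommGroup M] [AddCommGroup M'] [Module ℚ M] [Module ℚ M']
    (φ : M →ₗ[ℚ] M') {g : X → End ℚ M} {g' : X → End ℚ M'} (h : ∀ i v, φ (g i v) = g' i (φ v))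
    (u : W ℚ X) (v : M) : φ (evW g u v) = evW g' u (φ v) := by
  induction u using W_ind with
  | one => simp
  | mul i u ih => simp [h, ih]
  | add u v h1 h2 => simp [h1, h2]
  | smul r u ih => simp [ih]

/-- A Lie polynomial does not see right multiplication by the first letter. -/
theorem adj_Q {wt : Fin 2 → ℕ} {n : ℕ} (hn : n ≠ wt 0) {u : W ℚ (Fin 2)} (hu : u ∈ LQ lt wt n) :
    evW ![LM ℚ (lt 0 : W ℚ (Fin 2)) - RM ℚ (lt 0), LM ℚ (lt 1)] u 1 = u := by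
  rw [LQ_shift (evW fun i => LM ℚ (lt i : W ℚ (Fin 2))) _ 0 (-RM ℚ (lt 0))
    (fun i => LinearMap.ext fun v => by simp [mul_assoc]) (by simp [sub_eq_add_neg])
    (fun i hi => by fin_cases i <;> simp at hi ⊢) hn hu,
    algHom_eq (φ' := LM ℚ) (fun i => by simp) u]
  simp

variable (R : Type) [CommRing R] in
/-- The derivation `0 ↦ 1 ↦ 0` of the letters. -/
def dE : End R (W R (Fin 2)) := der ![lt 1, 0]

def f0 : W ℚ (Fin 2) →ₐ[ℚ] End ℚ (W ℚ (Fin 2)) := evW ![LM ℚ (lt 0), dE ℚ]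
def f1 : W ℚ (Fin 2) →ₐ[ℚ] End ℚ (W ℚ (Fin 2)) := evW ![dE ℚ, LM ℚ (lt 0)]
def f2 : W ℚ (Fin 2) →ₐ[ℚ] End ℚ (W ℚ ℕ) := evW ![der fun k => lt (k + 1), LM ℚ (lt 0)]

theorem iota_LQ {n : ℕ} {ψ : FL} (h : ψ ∈ deg n) : iota ψ ∈ LQ lt ![1, 1] n := by
  refine (Submodule.span_le (p := (LQ lt ![1, 1] n).comap iota.toLinearMap)).2
    (fun u hu => ?_) h
  change iota u ∈ LQ lt ![1, 1] n
  have hu' : IsBr n u := hu
  clear hu h
  induction hu' with
  | of i => rw [iota_of]; exact LQ_of (g := lt) i (by fin_cases i <;> rfl)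
  | lie _ _ h1 h2 => rw [LieHom.map_lie]; exact LQ_cq h1 h2

theorem f0_LQ {n : ℕ} (hn : 3 ≤ n) {u : W ℚ (Fin 2)} (h : u ∈ LQ lt ![1, 1] n) :
    f0 u 1 ∈ LQ lt ![1, 2] n :=
  LQ_elim f0 1 (by simpa [f0, dE] using der_isDer _)
    (fun j => by fin_cases j <;> simp [f0, dE]; exact LQ_of 1 rfl)
    (fun i hi => ⟨lt 0, by fin_cases i <;> simp at hi ⊢; exact LQ_of 0 rfl,
      by fin_cases i <;> simp [f0] at hi ⊢⟩) (by simp; omega) h

theorem f1_LQ {n : ℕ} (hn : 3 ≤ n) {u : W ℚ (Fin 2)} (h : u ∈ LQ lt ![1, 2] n) :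
    f1 u 1 ∈ LQ lt ![2, 3] n :=
  LQ_elim f1 0 (by simpa [f1, dE] using der_isDer _)
    (fun j => by fin_cases j <;> simp [f1, dE]; exact LQ_of 1 rfl)
    (fun i hi => ⟨lt 0, by fin_cases i <;> simp at hi ⊢; exact LQ_of 0 rfl,
      by fin_cases i <;> simp [f1] at hi ⊢⟩) (by simp; omega) h

theorem f2_LQ {n : ℕ} (hn : 3 ≤ n) {u : W ℚ (Fin 2)} (h : u ∈ LQ lt ![2, 3] n) :
    f2 u 1 ∈ LQ lt (fun k => 2 * k + 3) n :=
  LQ_elim f2 0 (by simpa [f2] using der_isDer _)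
    (fun j => by simpa [f2] using LQ_of (g := lt) (j + 1) (by ring))
    (fun i hi => ⟨lt 0, by fin_cases i <;> simp at hi ⊢; exact LQ_of 0 rfl,
      by fin_cases i <;> simp [f2] at hi ⊢⟩) (by simp; omega) h

/-- The free Lie algebra on odd generators inside noncommutative polynomials. -/
def iotaM : LMot →ₗ⁅ℚ⁆ W ℚ ℕ := FreeLieAlgebra.lift ℚ lt

theorem LQ_le_map (n : ℕ) :
    LQ lt (fun k => 2 * k + 3) n ≤ (degMot n).map iotaM.toLinearMap := by
  refine Submodule.span_le.2 fun u hu => ?_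
  have hu' : BQ lt (fun k => 2 * k + 3) n u := hu
  clear hu
  have : ∃ v, IsBrMot n v ∧ iotaM v = u := by
    induction hu' with
    | of i => exact ⟨_, IsBrMot.of i, by simp [iotaM]⟩
    | lie _ _ h1 h2 =>
      obtain ⟨a, a1, rfl⟩ := h1
      obtain ⟨b, b1, rfl⟩ := h2
      exact ⟨_, a1.lie b1, LieHom.map_lie _ _ _⟩
  obtain ⟨v, h1, h2⟩ := this
  exact ⟨v, Submodule.subset_span h1, h2⟩

theorem f2_inj {n : ℕ} (hn : 3 ≤ n) {u : W ℚ (Fin 2)} (h : u ∈ LQ lt ![2, 3] n)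
    (h0 : f2 u 1 = 0) : u = 0 := by
  let E : End ℚ (W ℚ (Fin 2)) := LM ℚ (lt 0) - RM ℚ (lt 0)
  let l : W ℚ ℕ →ₐ[ℚ] W ℚ (Fin 2) := evW fun k => (E ^ k) (lt 1)
  have hd : ∀ v, l (der (fun k => lt (k + 1)) v) = E (l v) :=
    der_inter l.toRingHom (der_isDer _) (E := E.toAddMonoidHom) (isDer_ad' _)
      (fun r => by
        rw [Algebra.algebraMap_eq_smul_one]
        simp [E]) fun i => by simp [l, pow_succ']
  have h1 := evW_inter l.toLinearMap (g := ![der fun k => lt (k + 1), LM ℚ (lt 0)])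
    (g' := ![E, LM ℚ (lt 1)]) (fun i v => by fin_cases i <;> simp [hd, l]) u 1
  rw [← f2, h0, map_zero, AlgHom.toLinearMap_apply, map_one, adj_Q (by simp; omega) h] at h1
  exact h1.symm

theorem f1_dies {n : ℕ} (hn : 3 ≤ n) {u : W ℤ (Fin 2)}
    (h : evZ lt u ∈ LQ (A := W ℚ _) lt ![1, 2] n) (h0 : f1 (evZ lt u) 1 = 0) {S : Type} [Ring S] (P Q : S) (h2 : (2 : S) = 0)
    (hP : P * P = 0) : evZ ![P, Q] u = 0 := by
  let j := (evZ (lt : Fin 2 → W ℚ (Fin 2))).toAddMonoidHom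
  have a1 : evZ ![dE ℤ, LM ℤ (lt 0)] u 1 = 0 := by
    refine evZ_inj (R := ℚ) ?_
    have := evZ_inter j (g := ![dE ℤ, LM ℤ (lt 0)]) (g' := ![dE ℚ, LM ℚ (lt 0)]) (fun i v => by
      fin_cases i
      · exact evZ_der _ _ (fun i => by fin_cases i <;> simp) v
      · simp [j]) u 1
    rw [f1, evW_evZ] at h0
    simpa [j, h0] using this
  have a2 : evZ ![LM ℤ (lt 0 : W ℤ (Fin 2)) - RM ℤ (lt 0), LM ℤ (lt 1)] u 1 = u := by
    refine evZ_inj (R := ℚ) ?_
    have := evZ_inter j (g := ![LM ℤ (lt 0 : W ℤ (Fin 2)) - RM ℤ (lt 0), LM ℤ (lt 1)])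
      (g' := ![LM ℚ (lt 0 : W ℚ (Fin 2)) - RM ℚ (lt 0), LM ℚ (lt 1)])
      (fun i v => by fin_cases i <;> simp [j]) u 1
    have e := adj_Q (by simp; omega) h
    rw [evW_evZ] at e
    simpa [j, e] using this
  have a3 := evZ_inter (evZ ![P, Q]).toAddMonoidHom
    (g := ![LM ℤ (lt 0 : W ℤ (Fin 2)) - RM ℤ (lt 0), LM ℤ (lt 1)])
    (g' := ![LM ℤ P - RM ℤ P, LM ℤ Q]) (fun i v => by fin_cases i <;> simp) u 1
  have hd : ∀ v, evZ ![Q, cq P Q] (dE ℤ v) = (LM ℤ P - RM ℤ P) (evZ ![Q, cq P Q] v) :=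
    der_inter _ (der_isDer _) (E := (LM ℤ P - RM ℤ P : End ℤ S).toAddMonoidHom) (isDer_ad P)
      ((isDer_ad P).int _) fun i => by
        fin_cases i <;> simp [cq]
        linear_combination (norm := noncomm_ring) h2 * (P * Q * P) - hP * Q - Q * hP
  have a4 := evZ_inter (evZ ![Q, cq P Q]).toAddMonoidHom (g := ![dE ℤ, LM ℤ (lt 0)])
    (g' := ![LM ℤ P - RM ℤ P, LM ℤ Q]) (fun i v => by fin_cases i <;> simp [hd]) u 1
  simp only [RingHom.toAddMonoidHom_eq_coe, AddMonoidHom.coe_coe, map_one, a1, a2,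
    map_zero] at a3 a4
  exact a3.trans a4.symm

/-- The composite of the three eliminations. -/
def Theta : FL →ₗ[ℚ] W ℚ ℕ :=
  LinearMap.applyₗ 1 ∘ₗ f2.toLinearMap ∘ₗ LinearMap.applyₗ 1 ∘ₗ f1.toLinearMap ∘ₗ
    LinearMap.applyₗ 1 ∘ₗ f0.toLinearMap ∘ₗ iota.toLinearMap

theorem Theta_apply (ψ : FL) : Theta ψ = f2 (f1 (f0 (iota ψ) 1) 1) 1 := rfl

theorem Theta_mem {n : ℕ} (hn : 3 ≤ n) {ψ : FL} (h : ψ ∈ deg n) :
    Theta ψ ∈ (degMot n).map iotaM.toLinearMap :=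
  LQ_le_map n (f2_LQ hn (f1_LQ hn (f0_LQ hn (iota_LQ h))))

/-- An integral element of `grt n` killed by `Theta` is divisible by two. -/
theorem even_of_Theta {n : ℕ} (hn : 3 ≤ n) {ψ : FL} (h : ψ ∈ grt n) (h0 : Theta ψ = 0)
    {u : W ℤ (Fin 2)} (hu : evZ lt u = iota ψ) (w : List (Fin 2)) : Even (cf w u) := by
  have b0 := f0_LQ hn (iota_LQ h.1)
  have b1 := f2_inj hn (f1_LQ hn b0) h0
  have e : evZ lt (evZ ![LM ℤ (lt 0 : W ℤ (Fin 2)), dE ℤ] u 1) = f0 (iota ψ) 1 := by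
    have := evZ_inter (evZ (lt : Fin 2 → W ℚ (Fin 2))).toAddMonoidHom
      (g := ![LM ℤ (lt 0), dE ℤ]) (g' := ![LM ℚ (lt 0), dE ℚ]) (fun i v => by
        fin_cases i
        · simp
        · exact evZ_der _ _ (fun i => by fin_cases i <;> simp) v) u 1
    rw [← hu, f0, evW_evZ]
    simpa using this
  rw [← e] at b0 b1
  exact core hn h u hu (fun S _ P Q h2 hP => f1_dies hn b0 b1 P Q h2 hP) w

end

end Pool.Agent.Lib.MP_446a91_nt
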