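import Pool.Agent.Lib.MP_446a91_nt.CovLow

/-! The pentagon in characteristic two: reduction to words without `p p` (MP_446a91_nt). -/

namespace Pool.Agent.Lib.MP_446a91_nt

open Module

noncomputable section

/-- Homogeneous polynomials of length `k`. -/
def Hom (k : ℕ) (v : W ℤ (Fin 3)) : Prop := ∀ w, w.length ≠ k → cf w v = 0

theorem Hom.mul {i j : ℕ} {a b : W ℤ (Fin 3)} (ha : Hom i a) (hb : Hom j b) :
    Hom (i + j) (a * b) := by
  intro w hw
  refine linW_zero (cf w ∘ₗ RM ℤ b) a fun x hx => linW_zero (cf w ∘ₗ LM ℤ (wrd x)) b fun y hy => ?_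
  have h1 : x.length = i := by_contra fun h => hx (ha x h)
  have h2 : y.length = j := by_contra fun h => hy (hb y h)
  have : x ++ y ≠ w := fun e => hw (by rw [← e, List.length_append, h1, h2])
  simp [wrd_mul, cf_wrd, this]

theorem Hom.wrd (x : List (Fin 3)) : Hom x.length (wrd x) := fun w hw => by
  have : x ≠ w := fun e => hw (by rw [e])
  simp [cf_wrd, this]

theorem Hom.lenP {k : ℕ} {v : W ℤ (Fin 3)} (h : Hom k v) (m : ℕ) :
    lenP m v = if k = m then v else 0 := by
  rw [← sub_eq_zero]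
  refine cf_ext fun w => ?_
  rw [map_sub, cf_lenP]
  by_cases h1 : w.length = k
  · rw [h1]; split_ifs <;> simp
  · split_ifs <;> simp [h w h1]

/-- Invariance under a central shift of the last letter. -/
def Sh (v : W ℤ (Fin 3)) : Prop := ∀ a b z c : End F2 B3, c * a = a * c → c * b = b * c →
  c * z = z * c → evZ ![a, b, z + c] v = evZ ![a, b, z] v ∧
    c * evZ ![a, b, z] v = evZ ![a, b, z] v * c

theorem Sh.mul {a b : W ℤ (Fin 3)} (ha : Sh a) (hb : Sh b) : Sh (a * b) := by
  intro p q z c h1 h2 h3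
  obtain ⟨a1, a2⟩ := ha p q z c h1 h2 h3
  obtain ⟨b1, b2⟩ := hb p q z c h1 h2 h3
  rw [map_mul, map_mul, a1, b1, ← mul_assoc, a2, mul_assoc, b2, mul_assoc]
  exact ⟨rfl, rfl⟩

/-- The elements `ad(y)^j x` in the new alphabet. -/
def gen : ℕ → W ℤ (Fin 3)
  | 0 => lt 0
  | 1 => lt 1
  | j + 2 => lt 2 * gen j - gen j * lt 2

theorem dd_gen : ∀ j, dd (gen j) = gen (j + 1)
  | 0 => by simp [dd, gen]
  | 1 => by simp [dd, gen]
  | j + 2 => by
    have := dd_gen j
    rw [dd] at this
    simp [dd, gen, der_mul, this]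

theorem gen_hom : ∀ j, Hom (j / 2 + 1) (gen j)
  | 0 => Hom.wrd [0]
  | 1 => Hom.wrd [1]
  | j + 2 => fun w hw => by
    have h1 := ((Hom.wrd [2]).mul (gen_hom j)) w (by simp; omega)
    have h2 := ((gen_hom j).mul (Hom.wrd [2])) w (by simp; omega)
    rw [gen, map_sub]
    exact sub_eq_zero.2 (h1.trans h2.symm)

theorem gen_sh : ∀ j, Sh (gen j)
  | 0 => fun p q z c h1 h2 h3 => by simpa [gen] using h1
  | 1 => fun p q z c h1 h2 h3 => by simpa [gen] using h2
  | j + 2 => fun p q z c h1 h2 h3 => by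
    obtain ⟨a1, a2⟩ := gen_sh j p q z c h1 h2 h3
    simp only [gen, map_sub, map_mul, evZ_lt, a1, Matrix.cons_val]
    constructor
    · linear_combination (norm := noncomm_ring) a2
    · generalize evZ ![p, q, z] (gen j) = e at a2
      rw [mul_sub, sub_mul, ← mul_assoc, h3, mul_assoc, a2, ← mul_assoc c, a2, mul_assoc e, h3,
        mul_assoc, mul_assoc]

/-- Products of the elements `gen j`. -/
def Mon : Submodule ℤ (W ℤ (Fin 3)) :=
  Submodule.span ℤ {v | ∃ l : List ℕ, v = (l.map gen).prod}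

theorem Mon_gen (j : ℕ) {v : W ℤ (Fin 3)} (hv : v ∈ Mon) : gen j * v ∈ Mon := by
  induction hv using Submodule.span_induction with
  | mem v hv =>
    obtain ⟨l, rfl⟩ := hv
    exact Submodule.subset_span ⟨j :: l, by simp⟩
  | zero => simp
  | add a b _ _ h1 h2 => rw [mul_add]; exact add_mem h1 h2
  | smul c a _ h1 => rw [mul_smul_comm]; exact Submodule.smul_mem _ c h1

theorem Mon_dd {v : W ℤ (Fin 3)} (hv : v ∈ Mon) : dd v ∈ Mon := by
  induction hv using Submodule.span_induction with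
  | mem v hv =>
    obtain ⟨l, rfl⟩ := hv
    induction l with
    | nil => simp [dd, der_one]
    | cons j l ih =>
      rw [List.map_cons, List.prod_cons, dd, der_mul, ← dd, dd_gen]
      exact add_mem (Mon_gen _ (Submodule.subset_span ⟨l, rfl⟩)) (Mon_gen _ ih)
  | zero => simp
  | add a b _ _ h1 h2 => rw [map_add]; exact add_mem h1 h2
  | smul c a _ h1 => rw [map_smul]; exact Submodule.smul_mem _ c h1

theorem psi_Mon (u : W ℤ (Fin 2)) : PsiZ u ∈ Mon := by
  unfold PsiZ
  induction u using W_ind with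
  | one => exact Submodule.subset_span ⟨[], by simp⟩
  | mul i u ih =>
    rw [map_mul, End.mul_apply, evZ_lt]
    fin_cases i
    exacts [Mon_gen 0 ih, Mon_dd ih]
  | add a b h1 h2 => rw [map_add]; exact add_mem h1 h2
  | smul c a h1 => rw [map_zsmul]; exact Submodule.smul_mem _ c h1

theorem Mon_sh (m : ℕ) {v : W ℤ (Fin 3)} (hv : v ∈ Mon) : Sh (lenP m v) := by
  have h0 : Sh 0 := fun p q z c _ _ _ => by simp
  induction hv using Submodule.span_induction with
  | mem v hv =>
    obtain ⟨l, rfl⟩ := hv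
    have : ∃ k, Hom k (l.map gen).prod ∧ Sh (l.map gen).prod := by
      induction l with
      | nil => exact ⟨0, Hom.wrd [], fun p q z c _ _ _ => by simp⟩
      | cons j l ih =>
        obtain ⟨k, h1, h2⟩ := ih
        rw [List.map_cons, List.prod_cons]
        exact ⟨_, (gen_hom j).mul h1, (gen_sh j).mul h2⟩
    obtain ⟨k, h1, h2⟩ := this
    rw [h1.lenP]
    split_ifs
    exacts [h2, h0]
  | zero => simpa using h0
  | add a b _ _ h1 h2 =>
    intro p q z c e1 e2 e3
    obtain ⟨a1, a2⟩ := h1 p q z c e1 e2 e3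
    obtain ⟨b1, b2⟩ := h2 p q z c e1 e2 e3
    simp [a1, a2, b1, b2, mul_add, add_mul]
  | smul r a _ h1 =>
    intro p q z c e1 e2 e3
    obtain ⟨a1, a2⟩ := h1 p q z c e1 e2 e3
    simp only [map_zsmul, a1, mul_smul_comm, smul_mul_assoc, a2, and_self]

theorem add_self2 {M : Type} [AddCommGroup M] [Module F2 M] (a : M) : a + a = 0 := by
  refine viaK F2 ?_
  match_scalars
  grind

theorem isDer_zero {S : Type} [Ring S] [Algebra F2 S] : IsDer (0 : End F2 S) :=
  fun _ _ => by simp

theorem low_eq_zero {n : ℕ} (hn : 2 ≤ n) {ψ : FL} (hψ : ψ ∈ grt n) {u : W ℤ (Fin 2)}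
    (hu : evZ lt u = iota ψ) {m : ℕ} (hlow : ∀ w, w.length < m → Even (cf w (PsiZ u)))
    (hnil : evZ ![nilP, LM F2 (lt 1 : B3), 0] (PsiZ u) = 0) :
    evZ (lt : Fin 3 → B3) (lenP m (PsiZ u)) = 0 := by
  set v := lenP m (PsiZ u) with hv
  have s3 := star hn hψ hu hlow ![opP, opC, opQ, opQ] isDer_zero isDer_zero isDer_zero
    (fun i => by fin_cases i <;> simp [cq, add_self2])
    (fun i => by fin_cases i <;> simp [cq, add_self2])
    (fun i => by fin_cases i <;> simp [cq, opC_opQ])
  have e1 : ∀ {S : Type} [Ring S] [Algebra F2 S] (a b c : S),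
      evZ ![LM F2 a, LM F2 b, LM F2 c] v 1 = evZ ![a, b, c] v := fun a b c => by
    rw [← evZ_LM (R := F2) ![a, b, c]]
    congr 3
    funext i
    fin_cases i <;> rfl
  have h3 : kill2 (evZ lt v) = 0 := by
    refine word_lemma ?_ fun w hw => ?_
    · rw [evW_evZ, evW_evZ]
      have t1 := e1 (opP + opC) opQ 0
      have t2 := e1 (opP + opC) 0 0
      simp only [map_zero] at t1 t2
      simpa [add_self2, -map_add, ← hv, t1, t2] using s3
    · have := nil_eval (v := evZ lt (PsiZ u)) (by rw [evW_evZ, hnil]) hw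
      rw [cf_kill2, cf_evZ] at this ⊢
      rw [hv, cf_lenP]
      split_ifs at this ⊢ <;> simp [this]
  have h0 : ∀ {S : Type} [Ring S] [Algebra F2 S] (a b : S), evZ ![a, b, 0] v = 0 := fun a b => by
    have := algHom_eq (φ := (evW ![a, b, 0]).comp kill2) (φ' := evW ![a, b, 0])
      (fun i => by fin_cases i <;> simp [kill2]) (evZ lt v)
    rw [AlgHom.comp_apply, h3, map_zero, evW_evZ] at this
    exact this.symm
  let D : End F2 B3 := der ![cq (lt 2) (lt 0), 0, 0]
  have s2 := star hn hψ hu hlow ![(0 : B3), lt 0, lt 2, lt 2] isDer_zero isDer_zero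
    (R := D) (der_isDer _) (fun i => by fin_cases i <;> simp [cq, add_self2])
    (fun i => by fin_cases i <;> simp [cq, add_self2]) (fun i => by fin_cases i <;> simp [D])
  have h2 : evZ ![(lt 0 : B3), lt 2, lt 2] v = 0 := by
    have hs := (Mon_sh m (psi_Mon u) (LM F2 (lt 0)) (LM F2 (lt 2)) D (LM F2 (lt 2) - D)
      ?_ ?_ ?_).1
    · rw [add_sub_cancel] at hs
      rw [← e1, hv, hs]
      simpa [add_self2, ← hv, h0] using s2
    all_goals
      refine LinearMap.ext fun a => ?_
      simp [D, der_mul, cq, sub_mul, mul_sub, mul_assoc]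
      try abel
  have s1 := star hn hψ hu hlow ![(lt 0 : B3), 0, lt 1, lt 1 + lt 2]
    (A := der ![0, cq (lt 2) (lt 0), cq (lt 2) (lt 0)])
    (G := der ![0, 0, cq (lt 1) (lt 2)]) (der_isDer _) (der_isDer _) isDer_zero
    (fun i => by fin_cases i <;> simp [cq, ← add_assoc, add_self2])
    (fun i => by fin_cases i <;> simp [cq, mul_add, add_mul])
    (fun i => by fin_cases i <;> simp [cq])
  have e : (lt : Fin 3 → B3) = ![lt 0, lt 1, lt 2] := by
    funext i
    fin_cases i <;> rfl
  rw [e]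
  simpa [← add_assoc, add_self2, ← hv, h0, h2] using s1.symm

theorem even_of_evZ {X : Type} {v : W ℤ X} (h : evZ (lt : X → W F2 X) v = 0) (w : List X) :
    Even (cf w v) := by
  have := cf_evZ (R := F2) w v
  rw [h, map_zero, eq_comm, ZMod.intCast_zmod_eq_zero_iff_dvd] at this
  exact even_iff_two_dvd.2 this

/-- If `Φ` dies modulo two and the square of the first letter, then `ψ` is divisible by two. -/
theorem core {n : ℕ} (hn : 3 ≤ n) {ψ : FL} (hψ : ψ ∈ grt n) (u : W ℤ (Fin 2))
    (hu : evZ lt u = iota ψ)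
    (h : ∀ (S : Type) [Ring S] (P Q : S), (2 : S) = 0 → P * P = 0 →
      evZ ![P, Q] (evZ ![LM ℤ (lt 0 : W ℤ (Fin 2)), der ![lt 1, 0]] u 1) = 0)
    (w : List (Fin 2)) : Even (cf w u) := by
  have hn2 : 2 ≤ n := by omega
  have two : ∀ {S : Type} [Ring S] [Algebra F2 S], (2 : S) = 0 := by
    intro S _ _
    rw [← one_add_one_eq_two, add_self2]
  have hnil : evZ ![nilP, LM F2 (lt 1 : B3), 0] (PsiZ u) = 0 := by
    rw [psi_phi]; exact h _ _ _ two nilP_sq
  have hall : ∀ m, ∀ x : List (Fin 3), x.length < m → Even (cf x (PsiZ u)) := by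
    intro m
    induction m with
    | zero => intro x hx; omega
    | succ m ih =>
      intro x hx
      rcases Nat.lt_succ_iff_lt_or_eq.1 hx with hx | hx
      · exact ih x hx
      · have := even_of_evZ (low_eq_zero hn2 hψ hu ih hnil) x
        rwa [cf_lenP, if_pos hx] at this
  refine even_of_evZ ?_ w
  have e : (lt : Fin 2 → W F2 (Fin 2)) = ![lt 0, lt 1] := by
    funext i
    fin_cases i <;> rfl
  rw [e, psi_eq hn2 hψ.1 hu two]
  exact add_zero_of (evZ _).toAddMonoidHom _ fun x _ => by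
    rw [map_zsmul]; exact even_smul F2 (hall _ x (Nat.lt_succ_self _)) _

end

end Pool.Agent.Lib.MP_446a91_nt
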