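import Pool.Agent.Lib.MP_446a91_nt.CovW

/-! Scaling to primitive integral polynomials; the degrees up to two (MP_446a91_nt). -/

namespace Pool.Agent.Lib.MP_446a91_nt

open Module

attribute [local instance 100] LieRing.ofAssociativeRing

noncomputable section

theorem exists_int {X : Type} (v : W ℚ X) :
    ∃ (c : ℚ) (u : W ℤ X), c ≠ 0 ∧ evZ lt u = c • v := by
  induction v using W_ind with
  | one => exact ⟨1, 1, one_ne_zero, by simp⟩
  | mul i v ih =>
    obtain ⟨c, u, hc, h⟩ := ih
    exact ⟨c, lt i * u, hc, by simp [h]⟩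
  | add v v' h1 h2 =>
    obtain ⟨c, u, hc, h⟩ := h1
    obtain ⟨c', u', hc', h'⟩ := h2
    refine ⟨c.num * c'.num, (c.den * c'.num : ℤ) • u + (c'.den * c.num : ℤ) • u',
      by simp [hc, hc'], ?_⟩
    rw [map_add, map_zsmul, map_zsmul, h, h', ← Int.cast_smul_eq_zsmul ℚ,
      ← Int.cast_smul_eq_zsmul ℚ, smul_smul, smul_smul, smul_add, ← Rat.mul_den_eq_num c,
      ← Rat.mul_den_eq_num c']
    push_cast
    rw [← Rat.mul_den_eq_num c, ← Rat.mul_den_eq_num c']
    congr 2 <;> ring
  | smul r v ih =>
    obtain ⟨c, u, hc, h⟩ := ih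
    refine ⟨c * r.den, r.num • u, by simp [hc], ?_⟩
    rw [map_zsmul, h, ← Int.cast_smul_eq_zsmul ℚ, smul_smul, smul_smul, ← Rat.mul_den_eq_num r]
    congr 1
    ring

theorem exists_half {X : Type} {u : W ℤ X} (h : ∀ w, Even (cf w u)) : ∃ u', u = (2 : ℤ) • u' := by
  refine ⟨∑ w ∈ supp u, (cf w u / 2) • wrd w, ?_⟩
  conv_lhs => rw [eq_sum u]
  rw [Finset.smul_sum]
  refine Finset.sum_congr rfl fun w _ => ?_
  rw [smul_smul, Int.mul_ediv_cancel' (even_iff_two_dvd.1 (h w))]

theorem exists_primitive {X : Type} (v : W ℚ X) (hv : v ≠ 0) :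
    ∃ (c : ℚ) (u : W ℤ X) (w : List X), evZ lt u = c • v ∧ ¬ Even (cf w u) := by
  obtain ⟨w0, h0⟩ : ∃ w, cf w v ≠ 0 := by
    by_contra h
    exact hv (cf_ext (by simpa using h))
  have key : ∀ (k : ℕ) (c : ℚ) (u : W ℤ X), c ≠ 0 → evZ lt u = c • v → (cf w0 u).natAbs = k →
      ∃ (c : ℚ) (u : W ℤ X) (w : List X), evZ lt u = c • v ∧ ¬ Even (cf w u) := by
    intro k
    induction k using Nat.strong_induction_on with
    | _ k ih =>
      intro c u hc h hk
      by_cases he : ∀ w, Even (cf w u)
      · obtain ⟨u', rfl⟩ := exists_half he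
        have h1 : evZ lt u' = (c / 2) • v := by
          rw [map_zsmul, ← Int.cast_smul_eq_zsmul ℚ] at h
          rw [div_eq_inv_mul, mul_smul, ← h, smul_smul]
          norm_num
        have h2 : cf w0 u' ≠ 0 := by
          intro e
          have := cf_evZ (R := ℚ) w0 u'
          rw [h1, e, map_smul, smul_eq_mul] at this
          simp [hc, h0] at this
        refine ih _ ?_ _ u' (by simpa using hc) h1 rfl
        rw [map_smul, smul_eq_mul] at hk
        omega
      · push Not at he
        obtain ⟨w, hw⟩ := he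
        exact ⟨c, u, w, h, hw⟩
  obtain ⟨c, u, hc, h⟩ := exists_int v
  exact key _ c u hc h rfl

theorem IsBr.one {n : ℕ} {u : FL} (h : IsBr n u) (hn : n = 1) :
    ∃ i, u = FreeLieAlgebra.of ℚ i := by
  cases h with
  | of i => exact ⟨i, rfl⟩
  | lie h1 h2 => have := h1.pos; have := h2.pos; omega

/-- Scalar operators. -/
def OS (a f : ℚ) : Ops ℚ where
  a := a • 1
  b := 0
  d := 0
  e := 0
  f := f • 1
  o := 1
  r1 := by simp [smul_smul, mul_comm]
  r2 := rfl
  r3 := by simp
  r4 := by simp
  r5 := by simp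
  r6 := by simp

theorem grt_le_two {n : ℕ} (hn : n ≤ 2) {ψ : FL} (hψ : ψ ∈ grt n) : ψ = 0 := by
  obtain ⟨h0, -, h2, h3⟩ := hψ
  interval_cases n
  · refine (Submodule.mem_bot ℚ).1 (Submodule.span_le.2 (fun u hu => ?_) h0)
    exact absurd (IsBr.pos hu) (by omega)
  · obtain ⟨a, b, rfl⟩ : ∃ a b : ℚ, a • genX + b • genY = ψ := by
      refine Submodule.mem_span_pair.1 (Submodule.span_mono (fun u hu => ?_) h0)
      obtain ⟨i, rfl⟩ := IsBr.one hu rfl
      fin_cases i <;> simp [genX, genY]
    have key : ∀ s t : ℚ, a * s + b * t = 0 := by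
      intro s t
      have h := congrArg (fun T : T4 => rho (OS s t) T 1) h3
      simp only [evT, map_add, map_smul, genX, genY, ev_of, Matrix.cons_val_zero,
        Matrix.cons_val_one] at h
      rw [rho_t _ (by decide), rho_t _ (by decide), rho_t _ (by decide), rho_t _ (by decide),
        rho_t _ (by decide)] at h
      simp [tO, OS] at h
      linarith
    have ha := key 1 0
    have hb := key 0 1
    simp at ha hb
    simp [ha, hb]
  · obtain ⟨c, rfl⟩ : ∃ c : ℚ, c • ⁅genX, genY⁆ = ψ := by
      refine Submodule.mem_span_singleton.1 (Submodule.span_le.2 (fun u hu => ?_) h0)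
      have key : ∀ n u, IsBr n u → n = 2 → u ∈ Submodule.span ℚ {⁅genX, genY⁆} := by
        intro n u hu hn
        cases hu with
        | of i => omega
        | lie h1 h2 =>
          have p1 := h1.pos
          have p2 := h2.pos
          obtain ⟨i, rfl⟩ := h1.one (by omega)
          obtain ⟨j, rfl⟩ := h2.one (by omega)
          fin_cases i <;> fin_cases j
          · simp
          · exact Submodule.mem_span_singleton_self _
          · exact Submodule.mem_span_singleton.2 ⟨-1, by
              rw [neg_one_smul]; exact (lie_skew genY genX)⟩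
          · simp
      exact key 2 u hu rfl
    have h := h2 (-genX - genY) (by abel)
    have e : ∀ u v : FL, ev u v ⁅genX, genY⁆ = ⁅u, v⁆ := fun u v => by simp [genX, genY]
    simp only [map_smul, e, lie_sub, sub_lie, lie_neg, neg_lie, lie_self] at h
    rw [← lie_skew genY genX] at h
    have : (3 : ℚ) • c • ⁅genX, genY⁆ = 0 := by rw [← h]; module
    simpa using this

end

end Pool.Agent.Lib.MP_446a91_nt
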