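import Pool.Agent.Lib.MP_446a91_nt.CovChain
import Pool.Agent.Lib.MP_446a91_nt.CovSmall

/-! The upper bound `dim grt_n ≤ dim L^mot_n` (MP_446a91_nt). -/

namespace Pool.Agent.Lib.MP_446a91_nt

open Module

attribute [local instance 100] LieRing.ofAssociativeRing

noncomputable section

theorem Theta_inj {n : ℕ} (hn : 3 ≤ n) {ψ : FL} (h : ψ ∈ grt n) (h0 : Theta ψ = 0) : ψ = 0 := by
  have h1 : iota ψ = 0 := by
    by_contra hne
    obtain ⟨c, u, w, hu, hw⟩ := exists_primitive (X := Fin 2) (iota ψ) hne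
    exact hw (even_of_Theta hn ((grt n).smul_mem c h) (by rw [map_smul, h0, smul_zero])
      (by rw [hu, map_smul]) w)
  have h2 := dynkin h.1
  rw [h1, map_zero] at h2
  exact (smul_eq_zero.1 h2.symm).resolve_left (by norm_cast; omega)

theorem rank_grt_le_mot (n : ℕ) : Module.rank ℚ (grt n) ≤ Module.rank ℚ (degMot n) := by
  rcases le_or_gt n 2 with hn | hn
  · have : grt n = ⊥ := eq_bot_iff.2 fun ψ h => grt_le_two hn h
    rw [this, rank_bot]
    exact zero_le
  · let c : grt n →ₗ[ℚ] (degMot n).map iotaM.toLinearMap :=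
      (Theta ∘ₗ (grt n).subtype).codRestrict _ fun ψ => Theta_mem hn ψ.2.1
    have hc : Function.Injective c := by
      rw [injective_iff_map_eq_zero]
      intro ψ h
      exact Subtype.ext (Theta_inj hn ψ.2 (congrArg Subtype.val h))
    exact (LinearMap.rank_le_of_injective c hc).trans (rank_map_le _ _)

end

end Pool.Agent.Lib.MP_446a91_nt
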