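import Pool.Agent.Lib.MP_446a91_nt.CovW

/-! The word lemma: invariance under `p ↦ p + c` with `c` commuting with `s` (MP_446a91_nt). -/

namespace Pool.Agent.Lib.MP_446a91_nt

open Module

noncomputable section

section pd
variable {R X : Type} [CommRing R] [DecidableEq X]

/-- Left derivative with respect to a letter. -/
def pd (i : X) : End R (W R X) :=
  linW fun w => match w with
    | [] => 0
    | j :: v => if j = i then wrd v else 0

theorem pd_one (i : X) : pd i (1 : W R X) = 0 := linW_wrd _ []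

theorem pd_lt_mul (i j : X) (u : W R X) : pd i (lt j * u) = if j = i then u else 0 :=
  (linW_eq (pd i ∘ₗ LM R (lt j)) (if j = i then LinearMap.id else 0) u fun w _ => by
    by_cases h : j = i <;> simp [← wrd_cons, pd, h]).trans (by split_ifs <;> simp)

theorem cf_pd (i : X) (w : List X) (u : W R X) : cf w (pd i u) = cf (i :: w) u :=
  linW_eq (cf w ∘ₗ pd i) (cf (i :: w)) u fun v _ => by
    cases v with
    | nil => simp [pd, cf_wrd]
    | cons j v => by_cases h : j = i <;> simp [pd, cf_wrd, h]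

theorem cf_nil_lt_mul (j : X) (u : W R X) : cf [] (lt j * u) = 0 :=
  linW_zero (cf [] ∘ₗ LM R (lt j)) u fun w _ => by simp [← wrd_cons, cf_wrd]

theorem eq_zero_of_pd {u : W R X} (h0 : cf [] u = 0) (h : ∀ i, pd i u = 0) : u = 0 :=
  cf_ext fun w => by
    cases w with
    | nil => exact h0
    | cons i w => rw [← cf_pd, h, map_zero]

end pd

abbrev F2 : Type := ZMod 2

abbrev B3 : Type := W F2 (Fin 3)

/-- Move the marker `2` to the right through the letters `1`. -/
def kap : List (Fin 3) → B3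
  | [] => lt 2
  | i :: w => if i = 1 then lt 1 * kap w else lt 2 * wrd (i :: w)

/-- The part of `w (p + c, s, 0)` that is linear in `c`. -/
def lin1 : List (Fin 3) → B3
  | [] => 0
  | i :: w => if i = 0 then lt 0 * lin1 w + kap w else if i = 1 then lt 1 * lin1 w else 0

def kapL : End F2 B3 := linW kap

def linL : End F2 B3 := linW lin1

theorem kapL_one : kapL 1 = lt 2 := linW_wrd kap []

theorem linL_one : linL 1 = 0 := linW_wrd lin1 []

theorem kapL_lt (u : B3) : kapL (lt 1 * u) = lt 1 * kapL u :=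
  linW_eq (kapL ∘ₗ LM F2 (lt 1)) (LM F2 (lt 1) ∘ₗ kapL) u fun w _ => by
    simp [← wrd_cons, kapL, kap]

theorem pd0_kapL (u : B3) : pd 0 (kapL u) = 0 :=
  linW_zero (pd 0 ∘ₗ kapL) u fun w _ => by
    cases w with
    | nil => simpa [kapL, kap] using pd_lt_mul (R := F2) (0 : Fin 3) 2 1
    | cons i w => by_cases h : i = 1 <;> simp [kapL, kap, h, pd_lt_mul]

theorem pd1_kapL (u : B3) : pd 1 (kapL u) = kapL (pd 1 u) :=
  linW_eq (pd 1 ∘ₗ kapL) (kapL ∘ₗ pd 1) u fun w _ => by
    cases w with
    | nil => simpa [kapL_one, wrd_nil, pd_one] using pd_lt_mul (R := F2) (1 : Fin 3) 2 1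
    | cons i w =>
      rw [LinearMap.comp_apply, LinearMap.comp_apply, kapL, linW_wrd, wrd_cons, pd_lt_mul]
      by_cases h : i = 1 <;> simp [kap, h, pd_lt_mul]

theorem pd2_kapL (u : B3) : pd 2 (kapL u) = u - lt 1 * pd 1 u :=
  linW_eq (pd 2 ∘ₗ kapL) (LinearMap.id - LM F2 (lt 1) ∘ₗ pd 1) u fun w _ => by
    cases w with
    | nil => simpa [kapL_one, wrd_nil, pd_one] using pd_lt_mul (R := F2) (2 : Fin 3) 2 1
    | cons i w =>
      by_cases h : i = 1
      · subst h
        simp only [LinearMap.comp_apply, kapL, linW_wrd, kap, if_true, pd_lt_mul]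
        simp [wrd_cons, pd_lt_mul]
      · simp only [LinearMap.comp_apply, kapL, linW_wrd, kap, h, if_false, pd_lt_mul]
        simp [wrd_cons, pd_lt_mul, h]

theorem kapL_inj (w : List (Fin 3)) : ∀ u : B3, kapL u = 0 → cf w u = 0 := by
  induction w with
  | nil =>
    intro u h
    have := pd2_kapL u
    rw [h, map_zero, eq_comm, sub_eq_zero] at this
    rw [this, cf_nil_lt_mul]
  | cons i w ih =>
    intro u h
    have h1 := ih (pd 1 u) (by rw [← pd1_kapL, h, map_zero])
    have := pd2_kapL u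
    rw [h, map_zero, eq_comm, sub_eq_zero] at this
    rw [this, ← cf_pd, pd_lt_mul]
    split_ifs
    · exact h1
    · simp

theorem linL_eq (u : B3) :
    linL u = lt 0 * linL (pd 0 u) + kapL (pd 0 u) + lt 1 * linL (pd 1 u) :=
  linW_eq linL (LM F2 (lt 0) ∘ₗ linL ∘ₗ pd 0 + kapL ∘ₗ pd 0 + LM F2 (lt 1) ∘ₗ linL ∘ₗ pd 1) u
    fun w _ => by
      cases w with
      | nil => simp [linL_one, wrd_nil, pd_one]
      | cons i w =>
        rw [linL, linW_wrd, wrd_cons]
        fin_cases i <;> simp [lin1, pd_lt_mul, kapL]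

/-- No word begins with a block of letters `1` followed by the letter `0`. -/
def GG (b : B3) : Prop := ∀ k : ℕ, pd 0 ((pd 1 ^ k : End F2 B3) b) = 0

theorem GG_kapL (u : B3) : GG (kapL u) := by
  intro k
  induction k generalizing u with
  | zero => exact pd0_kapL u
  | succ k ih => rw [pow_succ, End.mul_apply, pd1_kapL]; exact ih _

theorem GG_lin0 {u : B3} (h : GG (linL u)) : linL (pd 0 u) = 0 := by
  have := h 0
  rw [linL_eq] at this
  simpa [pd_lt_mul, pd0_kapL] using this

theorem GG_lin1 {u : B3} (h : GG (linL u)) : GG (linL (pd 1 u)) := by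
  intro k
  have h1 := h (k + 1)
  have h2 := GG_kapL (pd 1 (pd 0 u)) k
  rw [linL_eq, pow_succ, End.mul_apply] at h1
  simpa [pd_lt_mul, pd1_kapL, h2] using h1

/-- Words that contain the letter `2` or have no two adjacent letters `0`. -/
def Fine : List (Fin 3) → Prop
  | [] => True
  | [_] => True
  | i :: j :: w => i = 2 ∨ 2 ∈ j :: w ∨ (¬ (i = 0 ∧ j = 0) ∧ Fine (j :: w))

theorem Fine.cons1 {w : List (Fin 3)} (h : Fine w) : Fine (1 :: w) := by
  cases w with
  | nil => trivial
  | cons j w => exact Or.inr (Or.inr ⟨by simp, h⟩)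

theorem Fine.cons2 (w : List (Fin 3)) : Fine (2 :: w) := by
  cases w with
  | nil => trivial
  | cons j w => exact Or.inl rfl

theorem lin_kill (m : ℕ) : ∀ u : B3, (∀ w, m ≤ w.length → cf w u = 0) → GG (linL u) →
    (∀ w, Fine w → cf w u = 0) → u = 0 := by
  induction m with
  | zero => exact fun u h _ _ => cf_ext fun w => h w (Nat.zero_le _)
  | succ m ih =>
    intro u hb hG hF
    have h1 : pd 1 u = 0 := ih _ (fun w hw => by rw [cf_pd]; exact hb _ (by simpa using hw))
      (GG_lin1 hG) fun w hw => by rw [cf_pd]; exact hF _ hw.cons1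
    have h2 : pd 2 u = 0 := cf_ext fun w => by rw [cf_pd]; exact hF _ (Fine.cons2 w)
    have e0 := GG_lin0 hG
    have hG' : GG (linL (pd 0 u)) := by rw [e0]; intro k; simp
    have h01 : pd 1 (pd 0 u) = 0 := ih _
      (fun w hw => by rw [cf_pd, cf_pd]; exact hb _ (by simp; omega)) (GG_lin1 hG')
      fun w hw => by rw [cf_pd, cf_pd]; exact hF _ (Or.inr (Or.inr ⟨by simp, hw.cons1⟩))
    have h02 : pd 2 (pd 0 u) = 0 := cf_ext fun w => by
      rw [cf_pd, cf_pd]; exact hF _ (Or.inr (Or.inl (by simp)))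
    have h00 : pd 0 (pd 0 u) = 0 := by
      refine cf_ext fun w => kapL_inj w _ ?_
      have := linL_eq (pd 0 u)
      rw [e0, GG_lin0 hG', h01] at this
      simpa using this.symm
    have h0 : pd 0 u = 0 := eq_zero_of_pd (by rw [cf_pd]; exact hF _ trivial) fun i => by
      fin_cases i <;> assumption
    exact eq_zero_of_pd (hF _ trivial) fun i => by fin_cases i <;> assumption

def opP : End F2 (B3 × B3) := (LM F2 (lt 0 : B3)).prodMap (LM F2 (lt 0 : B3))
def opQ : End F2 (B3 × B3) := (LM F2 (lt 1 : B3)).prodMap (LM F2 (lt 1 : B3))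
def opC : End F2 (B3 × B3) := (kapL ∘ₗ LinearMap.snd F2 B3 B3).prod 0

theorem opC_opQ : opC * opQ = opQ * opC := by
  refine LinearMap.ext fun v => ?_
  simp [opC, opQ, kapL_lt]

/-- Killing the letter `2`. -/
def kill2 : B3 →ₐ[F2] B3 := evW ![lt 0, lt 1, 0]

theorem evW_opPC (u : B3) :
    evW ![opP + opC, opQ, 0] u (0, 1) = (linL (kill2 u), kill2 u) := by
  induction u using W_ind with
  | one => simp [linL_one]
  | mul i u ih =>
    rw [map_mul, map_mul, End.mul_apply, ih, linL_eq (kill2 (lt i) * _)]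
    fin_cases i <;> simp [kill2, opP, opC, opQ, pd_lt_mul, Prod.ext_iff]
  | add u v h1 h2 => simp [h1, h2]
  | smul r u ih => simp [ih]

theorem evW_opP (u : B3) : (evW ![opP, opQ, 0] u (0, 1)).1 = 0 := by
  induction u using W_ind with
  | one => simp
  | mul i u ih => fin_cases i <;> simp [opP, opQ] at ih ⊢ <;> simp [ih]
  | add u v h1 h2 => simp [h1, h2]
  | smul r u ih => simp [ih]

/-- The word lemma. -/
theorem word_lemma {u : B3} (h : evW ![opP + opC, opQ, 0] u = evW ![opP, opQ, 0] u)
    (hF : ∀ w, Fine w → cf w (kill2 u) = 0) : kill2 u = 0 := by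
  have h1 := evW_opP u
  rw [← h, evW_opPC] at h1
  obtain ⟨m, hm⟩ := ((supp (kill2 u)).image List.length).exists_le
  refine lin_kill (m + 1) _ (fun w hw => by_contra fun hc => ?_) (fun k => ?_) hF
  · have := hm _ (Finset.mem_image_of_mem _ (mem_supp.2 hc))
    omega
  · rw [show linL (kill2 u) = 0 from h1]; simp

theorem kill2_wrd (x : List (Fin 3)) : kill2 (wrd x) = if 2 ∈ x then 0 else wrd x := by
  induction x with
  | nil => simp [wrd_nil]
  | cons i x ih =>
    rw [wrd_cons, map_mul, ih]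
    fin_cases i <;> by_cases h : 2 ∈ x <;> simp [kill2, h]

theorem cf_kill2 (w : List (Fin 3)) (v : B3) :
    cf w (kill2 v) = if 2 ∈ w then 0 else cf w v :=
  (linW_eq (cf w ∘ₗ kill2.toLinearMap) (if 2 ∈ w then 0 else cf w) v fun x _ => by
    by_cases h : x = w
    · subst h; by_cases h2 : 2 ∈ x <;> simp [kill2_wrd, h2]
    · by_cases h2 : 2 ∈ x <;> by_cases h3 : 2 ∈ w <;> simp [kill2_wrd, h2, h3, cf_wrd, h]).trans
    (by split_ifs <;> simp)

/-- Left multiplication by the letter `0` modulo its square. -/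
def nilP : End F2 B3 := LM F2 (lt 0 : B3) * (1 - LM F2 (lt 0 : B3) * pd 0)

theorem nilP_sq : nilP * nilP = 0 := by
  refine LinearMap.ext fun v => ?_
  simp [nilP, pd_lt_mul]

theorem Fine.of_mem {x : List (Fin 3)} (h : 2 ∈ x) : Fine x := by
  match x, h with
  | [_], _ => trivial
  | i :: j :: w, h =>
    rcases List.mem_cons.1 h with h | h
    exacts [Or.inl h.symm, Or.inr (Or.inl h)]

theorem nil_wrd (x : List (Fin 3)) (y : B3)
    (hy : y = evW ![nilP, LM F2 (lt 1 : B3), 0] (wrd x : B3) 1) :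
    y = kill2 (wrd x) ∨ (¬ Fine x ∧ y = 0) := by
  induction x generalizing y with
  | nil => left; simp [hy, wrd_nil]
  | cons i x ih =>
    rw [wrd_cons, map_mul, End.mul_apply] at hy
    rw [wrd_cons, map_mul]
    rcases ih _ rfl with h | ⟨h1, h⟩
    · rw [h] at hy
      fin_cases i
      · rw [kill2_wrd] at hy ⊢
        by_cases h2 : 2 ∈ x
        · left; simp [hy, h2]
        · cases x with
          | nil => left; simp [hy, nilP, wrd_nil, pd_one, kill2]
          | cons j x =>
            by_cases hj : j = 0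
            · right
              subst hj
              refine ⟨by simpa [Fine] using h2, ?_⟩
              simp [hy, h2, nilP, wrd_cons, pd_lt_mul]
            · left; simp [hy, h2, nilP, wrd_cons, pd_lt_mul, hj, kill2]
      · left; simp [hy, kill2]
      · left; simp [hy, kill2]
    · rw [h, map_zero] at hy
      by_cases hi : i = 2
      · left; simp [hy, hi, kill2]
      · right
        refine ⟨?_, hy⟩
        cases x with
        | nil => exact absurd trivial h1
        | cons j x =>
          rintro (h3 | h3 | h3)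
          exacts [hi h3, h1 (Fine.of_mem h3), h1 h3.2]

theorem nil_eval {v : B3} (h : evW ![nilP, LM F2 (lt 1 : B3), 0] v = 0) {w : List (Fin 3)}
    (hw : Fine w) : cf w (kill2 v) = 0 := by
  have : cf w (kill2 v) = cf w (evW ![nilP, LM F2 (lt 1 : B3), 0] v 1) :=
    linW_eq (cf w ∘ₗ kill2.toLinearMap) (cf w ∘ₗ LinearMap.applyₗ 1 ∘ₗ
      (evW ![nilP, LM F2 (lt 1 : B3), 0] : B3 →ₐ[F2] End F2 B3).toLinearMap) v fun x _ => by
      rcases nil_wrd x _ rfl with h1 | ⟨h1, h2⟩
      · simp [h1]
      · have : x ≠ w := fun e => h1 (e ▸ hw)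
        by_cases h3 : 2 ∈ x <;> simp [h2, kill2_wrd, h3, cf_wrd, this]
  rw [this, h]; simp

end

end Pool.Agent.Lib.MP_446a91_nt
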