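import Pool.Agent.Lib.MP_446a91_nt.CovStar
import Pool.Agent.Lib.MP_446a91_nt.CovS3

/-! The lowest part of the pentagon on the double cover (MP_446a91_nt). -/

namespace Pool.Agent.Lib.MP_446a91_nt

open Module Polynomial

noncomputable section

section flt
variable {R X : Type} [CommRing R]

/-- The part of length `m`. -/
def lenP (m : ℕ) : End R (W R X) := linW fun w => if w.length = m then wrd w else 0

theorem cf_lenP (m : ℕ) (w : List X) (u : W R X) :
    cf w (lenP m u) = if w.length = m then cf w u else 0 := by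
  classical
  refine (linW_eq (cf w ∘ₗ lenP m) (if w.length = m then cf w else 0) u fun x _ => by
    by_cases h : x = w
    · subst h; by_cases h2 : x.length = m <;> simp [lenP, h2]
    · by_cases h2 : x.length = m <;> by_cases h3 : w.length = m <;>
        simp [lenP, h2, h3, cf_wrd, h]).trans ?_
  split_ifs <;> simp

theorem smul_cancel [IsDomain R] {c : R} (hc : c ≠ 0) {u : W R X} (h : c • u = 0) : u = 0 :=
  cf_ext fun w => by
    have := congrArg (cf w) h
    rw [map_smul, map_zero, smul_eq_mul] at this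
    exact (mul_eq_zero.1 this).resolve_left hc

variable {K M : Type} [CommRing K] [AddCommGroup M] [Module K M]

theorem even_smul (K : Type) [CommRing K] [Module K M] [CharP K 2] {c : ℤ} (hc : Even c) (x : M) :
    c • x = 0 := by
  obtain ⟨k, rfl⟩ := hc
  rw [add_smul]
  generalize k • x = y
  refine viaK K ?_
  match_scalars
  grind

theorem evZ_smul_wrd (t : K) (g : X → End K M) (w : List X) :
    evZ (t • g) (wrd w) = t ^ w.length • evZ g (wrd w) := by
  induction w with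
  | nil => simp [wrd_nil]
  | cons i w ih => simp [wrd_cons, ih, pow_succ, smul_smul]

theorem scale_ev [CharP K 2] (t : K) (g : X → End K M) {u : W ℤ X} {m : ℕ}
    (hlow : ∀ w, w.length < m → Even (cf w u)) (v : M) :
    ∃ y, evZ (t • g) u v = t ^ m • (evZ g (lenP m u) v + t • y) := by
  have : evZ (t • g) u v - t ^ m • evZ g (lenP m u) v ∈
      LinearMap.range (t ^ (m + 1) • (LinearMap.id : End K M)) := by
    rw [eq_sum u]
    simp only [map_sum, map_zsmul, LinearMap.sum_apply, LinearMap.smul_apply, Finset.smul_sum,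
      ← Finset.sum_sub_distrib, smul_comm (t ^ m), ← smul_sub]
    refine Submodule.sum_mem _ fun w _ => ?_
    rcases lt_trichotomy w.length m with h | h | h
    · rw [even_smul K (hlow w h)]; exact zero_mem _
    · simp [evZ_smul_wrd, lenP, h]
    · obtain ⟨k, hk⟩ := Nat.exists_eq_add_of_lt h
      refine zsmul_mem (LinearMap.mem_range.2 ⟨t ^ k • evZ g (wrd w) v, ?_⟩) _
      have e : k + (m + 1) = w.length := by omega
      simp [evZ_smul_wrd, lenP, h.ne', smul_smul, ← pow_add, e]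
  obtain ⟨y, hy⟩ := this
  refine ⟨y, ?_⟩
  rw [smul_add, smul_smul, ← pow_succ, ← sub_eq_iff_eq_add']
  exact hy.symm

end flt

section spec
variable {S : Type} [Ring S] [Algebra F2 S]

/-- Evaluation at `t = 0`. -/
def ev0 (z : Fin 4 → S) : W F2[X] (Fin 4) →+* S :=
  MonoidAlgebra.liftNCRingHom ((algebraMap F2 S).comp (evalRingHom 0)) (FreeMonoid.lift z)
    fun _ _ => Algebra.commutes _ _

theorem ev0_lt (z : Fin 4 → S) (i : Fin 4) : ev0 z (lt i) = z i := by
  simp [ev0, lt, wrd]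

theorem ev0_alg (z : Fin 4 → S) (c : F2[X]) :
    ev0 z (algebraMap _ _ c) = algebraMap F2 S (c.eval 0) := by
  simp [ev0]

theorem ev0_X (z : Fin 4 → S) (a : W F2[X] (Fin 4)) : ev0 z ((X : F2[X]) • a) = 0 := by
  rw [Algebra.smul_def, map_mul, ev0_alg]; simp

theorem ev0_der (z : Fin 4 → S) {D : End F2[X] (W F2[X] (Fin 4))} (hD : IsDer D) {E : End F2 S}
    (hE : IsDer E) (h : ∀ i, ev0 z (D (lt i)) = E (z i)) (a : W F2[X] (Fin 4)) :
    ev0 z (D a) = E (ev0 z a) :=
  der_inter (ev0 z) hD (E := E.toAddMonoidHom) hE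
    (fun r => by rw [ev0_alg]; simp [Algebra.algebraMap_eq_smul_one, hE.one])
    (fun i => by simp [ev0_lt, h]) a

/-- The relation satisfied by the lowest part. -/
theorem star {n : ℕ} (hn : 2 ≤ n) {ψ : FL} (hψ : ψ ∈ grt n) {u : W ℤ (Fin 2)}
    (hu : evZ lt u = iota ψ) {m : ℕ} (hlow : ∀ w, w.length < m → Even (cf w (PsiZ u)))
    (z : Fin 4 → S) {A G R : End F2 S} (hA : IsDer A) (hG : IsDer G) (hR : IsDer R)
    (eA : ∀ i, A (z i) = ![0, 0, cq (z 2 + z 3) (z 0), cq (z 2 + z 3) (z 1)] i)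
    (eG : ∀ i, G (z i) = ![0, cq (z 1) (z 2 + z 3), 0, cq (z 2) (z 3)] i)
    (eR : ∀ i, R (z i) = ![0, cq (z 3) (z 1), 0, 0] i) :
    evZ ![A + LM F2 (z 0 + z 1), G + LM F2 (z 3), R] (lenP m (PsiZ u)) 1 +
      evZ ![z 0 + z 1, z 2 + z 3, z 2 + z 3] (lenP m (PsiZ u)) =
    evZ ![z 0, z 2, z 2 + z 3] (lenP m (PsiZ u)) +
      evZ ![A + LM F2 (z 0 + z 1), 0, 0] (lenP m (PsiZ u)) 1 := by
  have h := pent_N (X : F2[X]) hn hψ hu
  obtain ⟨y1, h1⟩ := scale_ev X (gA (X : F2[X])) hlow 1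
  obtain ⟨y2, h2⟩ := scale_ev X (gB (X : F2[X])) hlow 1
  obtain ⟨y3, h3⟩ := scale_ev X (gC (X : F2[X])) hlow 1
  obtain ⟨y4, h4⟩ := scale_ev X (gD (X : F2[X])) hlow 1
  rw [h1, h2, h3, h4, ← smul_add, ← smul_add, ← sub_eq_zero, ← smul_sub] at h
  have h5 := congrArg (ev0 z) (sub_eq_zero.1 (smul_cancel (pow_ne_zero m X_ne_zero) h))
  simp only [RingHom.map_add, ev0_X, add_zero] at h5
  have a1 := ev0_der z (D := AN) (der_isDer _) hA fun i => by
    rw [eA]; fin_cases i <;> simp [AN_lt, cq, ev0_lt]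
  have a2 := ev0_der z ((der_isDer _).comm (D := BN X) (E := AN) (der_isDer _)) hG fun i => by
    rw [eG]
    fin_cases i <;> simp [AN_lt, BN_lt, BN_mul, cq, ev0_lt, ev0_X]
    noncomm_ring
  have a3 := ev0_der z (D := RN X) (der_isDer _) hR fun i => by
    rw [eR]; fin_cases i <;> simp [RN, cq, ev0_lt, ev0_X]
  have k : ∀ (g : Fin 3 → End F2[X] (W F2[X] (Fin 4))) (g' : Fin 3 → End F2 S),
      (∀ i v, ev0 z (g i v) = g' i (ev0 z v)) →
      ev0 z (evZ g (lenP m (PsiZ u)) 1) = evZ g' (lenP m (PsiZ u)) 1 := fun g g' hg => by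
    simpa using evZ_inter (ev0 z).toAddMonoidHom hg (lenP m (PsiZ u)) 1
  rw [← evZ_LM (R := F2) ![z 0 + z 1, _, _], ← evZ_LM (R := F2) ![z 0, _, _]]
  refine (congrArg₂ (· + ·) (k _ _ ?_) (k _ _ ?_)).symm.trans
    (h5.trans (congrArg₂ (· + ·) (k _ _ ?_) (k _ _ ?_)))
  all_goals
    intro i v
    fin_cases i <;>
      simp [-LinearMap.sub_apply, gA, gB, gC, gD, a1, a2, a3, ev0_lt, ev0_X, add_mul]

end spec

end

end Pool.Agent.Lib.MP_446a91_nt
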