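import Pool.Agent.Lib.MP_446a91_nt.CovW

/-! The pentagon in an integral representation; the double cover alphabet (MP_446a91_nt). -/

namespace Pool.Agent.Lib.MP_446a91_nt

open Module

attribute [local instance 100] LieRing.ofAssociativeRing

noncomputable section

theorem ev_shift' {g : Type} [LieRing g] [LieAlgebra ℚ g] {u v z : g} (hu : ⁅z, u⁆ = 0)
    (hv : ⁅z, v⁆ = 0) {n : ℕ} (hn : 2 ≤ n) {ψ : FL} (hψ : ψ ∈ deg n) :
    ev u (v + z) ψ = ev u v ψ := by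
  have key : ∀ k w, IsBr k w → ⁅z, ev u v w⁆ = 0 ∧
      ∃ c : ℚ, ev u (v + z) w = ev u v w + c • z ∧ (2 ≤ k → c = 0) := by
    intro k w hw
    induction hw with
    | of i =>
      fin_cases i
      · exact ⟨by simpa using hu, 0, by simp, by omega⟩
      · exact ⟨by simpa using hv, 1, by simp, by omega⟩
    | @lie m n p q _ _ h1 h2 =>
      obtain ⟨a1, c1, b1, -⟩ := h1
      obtain ⟨a2, c2, b2, -⟩ := h2
      have a1' : ⁅ev u v p, z⁆ = 0 := by rw [← lie_skew, a1, neg_zero]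
      refine ⟨by rw [LieHom.map_lie, leibniz_lie, a1, a2]; simp, 0, ?_, fun _ => rfl⟩
      rw [LieHom.map_lie, LieHom.map_lie, b1, b2]
      simp [a1', a2]
  induction hψ using Submodule.span_induction with
  | mem w hw =>
    obtain ⟨-, c, h1, h2⟩ := key n w hw
    simp [h1, h2 hn]
  | zero => simp
  | add p q _ _ h1 h2 => simp [h1, h2]
  | smul c p _ h1 => simp [h1]

theorem ev_evZ {S : Type} [Ring S] [Algebra ℚ S] (s t : S) {ψ : FL} {u : W ℤ (Fin 2)}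
    (hu : evZ lt u = iota ψ) : ev s t ψ = evZ ![s, t] u := by
  rw [ev_eq, ← hu]
  have := map_evZ (evA s t).toRingHom lt u
  simp only [AlgHom.toRingHom_eq_coe, RingHom.coe_coe] at this
  rw [this]
  congr 2
  funext i
  fin_cases i <;> exact (evA_wd s t _).trans (by simp [wp])

theorem IsDer.int {R S X : Type} [CommRing R] [Ring S] [Algebra R S] {E : End R S} (hE : IsDer E)
    (φ : W ℤ X →+* S) (r : ℤ) : E (φ (algebraMap ℤ _ r)) = 0 := by
  rw [eq_intCast (algebraMap ℤ (W ℤ X)), map_intCast, ← zsmul_one, map_zsmul, hE.one, smul_zero]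

section rep
variable (R : Type) [CommRing R]

/-- The action of `t₁₂ + t₁₃ + t₂₃` on the fibre letters `x, w, y`. -/
def alD : End R (W R (Fin 3)) := der ![0, 0, (lt 0 + lt 1) * lt 2 - lt 2 * (lt 0 + lt 1)]

/-- The action of `t₂₃ + t₂₄ + t₃₄` on the fibre letters `x, w, y`. -/
def beD : End R (W R (Fin 3)) := der ![0, lt 1 * lt 2 - lt 2 * lt 1, lt 2 * lt 1 - lt 1 * lt 2]

end rep

def OF : Ops (W ℚ (Fin 3)) where
  a := alD ℚ - LM ℚ (lt 0 + lt 1)
  b := -alD ℚ - beD ℚ + LM ℚ (lt 0)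
  d := beD ℚ + LM ℚ (lt 1 + lt 2)
  e := LM ℚ (lt 0)
  f := -LM ℚ (lt 0 + lt 1 + lt 2)
  o := 1
  r1 := by refine LinearMap.ext fun v => ?_; simp [alD, der_mul]; noncomm_ring
  r2 := by refine LinearMap.ext fun v => ?_; simp [alD, beD, der_mul]; noncomm_ring
  r3 := by refine LinearMap.ext fun v => ?_; simp [alD, beD, der_mul]; noncomm_ring
  r4 := by refine LinearMap.ext fun v => ?_; simp [alD, beD, der_mul]; noncomm_ring
  r5 := by refine LinearMap.ext fun v => ?_; simp [beD, der_mul]; noncomm_ring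
  r6 := by refine LinearMap.ext fun v => ?_; simp [beD, der_mul]; noncomm_ring

theorem pent_Q {n : ℕ} (hn : 2 ≤ n) {ψ : FL} (hψ : ψ ∈ grt n) :
    ev (alD ℚ - LM ℚ (lt 0 + lt 1)) (beD ℚ) ψ +
      ev (LM ℚ (lt 0 + lt 1 : W ℚ (Fin 3))) (-LM ℚ (lt 0 + lt 1 + lt 2)) ψ =
    ev (LM ℚ (lt 0 : W ℚ (Fin 3))) (-LM ℚ (lt 0 + lt 1 + lt 2)) ψ + ev (alD ℚ) (beD ℚ) ψ +
      ev (alD ℚ - LM ℚ (lt 0 + lt 1)) (LM ℚ (lt 0)) ψ := by
  obtain ⟨h0, -, -, h3⟩ := hψ
  have h := congrArg (rho OF) h3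
  simp only [evT, map_add, ev_map] at h
  rw [rho_t OF (by decide), rho_t OF (by decide), rho_t OF (by decide), rho_t OF (by decide),
    rho_t OF (by decide)] at h
  set T := tO OF.a OF.b OF.d OF.e OF.f
  have e1 : T 1 2 + T 1 3 = beD ℚ + LM ℚ (lt 0 + lt 1 + lt 2) := by
    simp [T, tO, OF]; abel
  have e2 : T 0 2 + T 1 2 = LM ℚ (lt 0 + lt 1) := by simp [T, tO, OF]; abel
  have e3 : T 0 1 + T 0 2 = alD ℚ + -LM ℚ (lt 0) := by simp [T, tO, OF]; abel
  have e4 : T 1 3 + T 2 3 = beD ℚ + -LM ℚ (lt 0) := by simp [T, tO, OF]; abel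
  rw [e1, e2, e3, e4, ev_shift' _ _ hn h0, ev_shift _ _ hn h0, ev_shift' _ _ hn h0] at h
  · exact h
  all_goals
    rw [LieRing.of_associative_ring_bracket]
    refine LinearMap.ext fun v => ?_
    simp [T, tO, OF, alD, beD, der_mul]
    try noncomm_ring

theorem evZ_kill {R X M : Type} [CommRing R] [AddCommGroup M] [Module R M] {g : X → End R M}
    {v : M} (h : ∀ i, g i v = 0) {u : W ℤ X} (hu : cf [] u = 0) : evZ g u v = 0 := by
  refine add_zero_of ((LinearMap.applyₗ (R := R) v).toAddMonoidHom.comp (evZ g).toAddMonoidHom)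
    u fun w hw => ?_
  rcases List.eq_nil_or_concat w with rfl | ⟨w, i, rfl⟩
  · exact absurd hu hw
  · simp [evZ_wrd, h]

theorem evZ_der {R X : Type} [CommRing R] (f : X → W ℤ X) (f' : X → W R X)
    (h : ∀ i, evZ lt (f i) = f' i) (v : W ℤ X) :
    evZ (lt : X → W R X) (der f v) = der f' (evZ lt v) :=
  der_inter (evZ lt) (der_isDer f) (E := (der f').toAddMonoidHom) (der_isDer f')
    ((der_isDer f').int _) (fun i => by simp [h]) v

/-- The pentagon at the base vector, over the integers. -/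
theorem pent_Z {n : ℕ} (hn : 2 ≤ n) {ψ : FL} (hψ : ψ ∈ grt n) {u : W ℤ (Fin 2)}
    (hu : evZ lt u = iota ψ) :
    evZ ![alD ℤ - LM ℤ (lt 0 + lt 1), beD ℤ] u 1 +
      evZ ![LM ℤ (lt 0 + lt 1 : W ℤ (Fin 3)), -LM ℤ (lt 0 + lt 1 + lt 2)] u 1 =
    evZ ![LM ℤ (lt 0 : W ℤ (Fin 3)), -LM ℤ (lt 0 + lt 1 + lt 2)] u 1 +
      evZ ![alD ℤ - LM ℤ (lt 0 + lt 1), LM ℤ (lt 0)] u 1 := by
  have h := congrArg (fun T : End ℚ (W ℚ (Fin 3)) => T 1) (pent_Q hn hψ)
  simp only [ev_evZ _ _ hu, LinearMap.add_apply] at h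
  have h0 : cf [] u = 0 := by
    have := cf_evZ (R := ℚ) [] u
    rw [hu] at this
    exact_mod_cast this.symm.trans (co_nil_iota ψ)
  rw [evZ_kill (g := ![alD ℚ, beD ℚ]) (fun i => by fin_cases i <;> exact der_one _) h0,
    add_zero] at h
  have ha : ∀ v, evZ lt (alD ℤ v) = alD ℚ (evZ lt v) :=
    evZ_der _ _ fun i => by fin_cases i <;> simp
  have hb : ∀ v, evZ lt (beD ℤ v) = beD ℚ (evZ lt v) :=
    evZ_der _ _ fun i => by fin_cases i <;> simp
  let j := (evZ (lt : Fin 3 → W ℚ (Fin 3))).toAddMonoidHom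
  have k : ∀ (g : Fin 2 → End ℤ (W ℤ (Fin 3))) (g' : Fin 2 → End ℚ (W ℚ (Fin 3))),
      (∀ i v, j (g i v) = g' i (j v)) → evZ lt (evZ g u 1) = evZ g' u 1 := fun g g' hg => by
    simpa [j] using evZ_inter j hg u 1
  refine evZ_inj (R := ℚ) ?_
  rw [RingHom.map_add, RingHom.map_add]
  refine (congrArg₂ (· + ·) (k _ _ ?_) (k _ _ ?_)).trans
    (h.trans (congrArg₂ (· + ·) (k _ _ ?_) (k _ _ ?_)).symm)
  all_goals
    intro i v
    fin_cases i <;> simp [j, ha, hb]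

/-- Right multiplication. -/
def RM (R : Type) {S : Type} [CommRing R] [Ring S] [Algebra R S] (a : S) : End R S :=
  LinearMap.mulRight R a

@[simp] theorem RM_apply (R : Type) {S : Type} [CommRing R] [Ring S] [Algebra R S] (a b : S) :
    RM R a b = b * a := rfl

/-- A Lie polynomial of degree at least two does not see the right multiplication. -/
theorem adj_Z {n : ℕ} (hn : 2 ≤ n) {ψ : FL} (hψ : ψ ∈ deg n) {u : W ℤ (Fin 2)}
    (hu : evZ lt u = iota ψ) {S : Type} [Ring S] (a b : S) :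
    evZ ![LM ℤ a, LM ℤ b - RM ℤ b] u 1 = evZ ![a, b] u := by
  have h : evZ ![LM ℤ (lt 0 : W ℤ (Fin 2)), LM ℤ (lt 1) - RM ℤ (lt 1)] u 1 = u := by
    refine evZ_inj (R := ℚ) ?_
    have h1 := evZ_inter (evZ (lt : Fin 2 → W ℚ (Fin 2))).toAddMonoidHom
      (g := ![LM ℤ (lt 0 : W ℤ (Fin 2)), LM ℤ (lt 1) - RM ℤ (lt 1)])
      (g' := ![LM ℚ (lt 0 : W ℚ (Fin 2)), LM ℚ (lt 1) + -RM ℚ (lt 1)])
      (fun i v => by fin_cases i <;> simp [sub_eq_add_neg]) u 1
    simp only [RingHom.toAddMonoidHom_eq_coe, AddMonoidHom.coe_coe, map_one] at h1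
    rw [h1, ← ev_evZ _ _ hu, ev_shift' _ _ hn hψ, ev_evZ _ _ hu, ← evZ_LM (R := ℚ) lt]
    · have e : ![LM ℚ (lt 0 : W ℚ (Fin 2)), LM ℚ (lt 1)] = fun i => LM ℚ (lt i) := by
        funext i
        fin_cases i <;> rfl
      rw [e]
    all_goals
      rw [LieRing.of_associative_ring_bracket]
      refine LinearMap.ext fun v => ?_
      simp [mul_assoc]
  have h1 := evZ_inter (evZ ![a, b]).toAddMonoidHom
    (g := ![LM ℤ (lt 0 : W ℤ (Fin 2)), LM ℤ (lt 1) - RM ℤ (lt 1)])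
    (g' := ![LM ℤ a, LM ℤ b - RM ℤ b]) (fun i v => by fin_cases i <;> simp) u 1
  simp only [RingHom.toAddMonoidHom_eq_coe, AddMonoidHom.coe_coe, map_one, h] at h1
  exact h1.symm

/-- The derivation `p ↦ s ↦ [r, p]`, `r ↦ 0`. -/
def dd : End ℤ (W ℤ (Fin 3)) := der ![lt 1, lt 2 * lt 0 - lt 0 * lt 2, 0]

/-- The polynomial `ψ` in the alphabet `p = x`, `s = [y, x]`, `r = y y`. -/
def PsiZ (u : W ℤ (Fin 2)) : W ℤ (Fin 3) := evZ ![LM ℤ (lt 0 : W ℤ (Fin 3)), dd] u 1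

theorem isDer_ad {S : Type} [Ring S] (b : S) : IsDer (LM ℤ b - RM ℤ b : End ℤ S) := by
  intro p q
  simp only [LinearMap.sub_apply, LM_apply, RM_apply]
  noncomm_ring

theorem psi_eq {n : ℕ} (hn : 2 ≤ n) {ψ : FL} (hψ : ψ ∈ deg n) {u : W ℤ (Fin 2)}
    (hu : evZ lt u = iota ψ) {S : Type} [Ring S] (h2 : (2 : S) = 0) (a b : S) :
    evZ ![a, b] u = evZ ![a, b * a - a * b, b * b] (PsiZ u) := by
  rw [← adj_Z hn hψ hu]
  have hd : ∀ v, evZ ![a, b * a - a * b, b * b] (dd v) =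
      (LM ℤ b - RM ℤ b) (evZ ![a, b * a - a * b, b * b] v) :=
    der_inter _ (der_isDer _) (E := (LM ℤ b - RM ℤ b : End ℤ S).toAddMonoidHom) (isDer_ad b)
      ((isDer_ad b).int _) fun i => by
        fin_cases i <;> simp
        · linear_combination (norm := noncomm_ring) h2 * (b * a * b - a * b * b)
        · noncomm_ring
  have h1 := evZ_inter (evZ ![a, b * a - a * b, b * b]).toAddMonoidHom
    (g := ![LM ℤ (lt 0 : W ℤ (Fin 3)), dd]) (g' := ![LM ℤ a, LM ℤ b - RM ℤ b])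
    (fun i v => by fin_cases i <;> simp [hd]) u 1
  simp only [RingHom.toAddMonoidHom_eq_coe, AddMonoidHom.coe_coe, map_one] at h1
  exact h1.symm

theorem psi_phi (u : W ℤ (Fin 2)) {S : Type} [Ring S] (a b : S) :
    evZ ![a, b, 0] (PsiZ u) =
      evZ ![a, b] (evZ ![LM ℤ (lt 0 : W ℤ (Fin 2)), der ![lt 1, 0]] u 1) := by
  let k : W ℤ (Fin 3) →+* W ℤ (Fin 2) := evZ ![lt 0, lt 1, 0]
  have hd : ∀ v, k (dd v) = der ![lt 1, 0] (k v) :=
    der_inter _ (der_isDer _) (E := (der ![lt 1, 0]).toAddMonoidHom) (der_isDer _)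
      (fun r => (der_isDer _).int k r) fun i => by fin_cases i <;> simp [k]
  have h1 := evZ_inter k.toAddMonoidHom (g := ![LM ℤ (lt 0 : W ℤ (Fin 3)), dd])
    (g' := ![LM ℤ (lt 0 : W ℤ (Fin 2)), der ![lt 1, 0]])
    (fun i v => by fin_cases i <;> simp [hd, k]) u 1
  simp only [RingHom.toAddMonoidHom_eq_coe, AddMonoidHom.coe_coe, map_one] at h1
  rw [← h1, evZ_evZ]
  congr 2
  funext i
  fin_cases i <;> simp

end

end Pool.Agent.Lib.MP_446a91_nt
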