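import Pool.Agent.Lib.MP_446a91_nt.CovRep

/-! The pentagon on the double cover in characteristic two (MP_446a91_nt). -/

namespace Pool.Agent.Lib.MP_446a91_nt

open Module

noncomputable section

/-- The commutator. -/
def cq {S : Type} [Ring S] (a b : S) : S := a * b - b * a

theorem viaK (K : Type) {M : Type} [CommRing K] [AddCommGroup M] [Module K M] {a b : M}
    (h : (1 : K) • a = b) : a = b := by rwa [one_smul] at h

section star
variable {K : Type} [CommRing K] (t : K)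

theorem IsDer.sq {S : Type} [Ring S] [Algebra K S] [CharP K 2] {D : End K S}
    (hD : IsDer D) : IsDer (D * D : End K S) := by
  intro a b
  simp only [End.mul_apply, hD _ _, map_add]
  refine viaK K ?_
  match_scalars <;> grind

theorem IsDer.smul {S : Type} [Ring S] [Algebra K S] {D : End K S} (hD : IsDer D) :
    IsDer (t • D : End K S) := by
  intro a b
  simp [hD a b]

theorem isDer_ad' {S : Type} [Ring S] [Algebra K S] (b : S) :
    IsDer (LM K b - RM K b : End K S) := by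
  intro p q
  simp only [LinearMap.sub_apply, LM_apply, RM_apply]
  noncomm_ring

def D0 : End K (W K (Fin 4)) := der ![lt 2, lt 3, 0, 0]
def AN : End K (W K (Fin 4)) := der ![0, 0, cq (lt 2 + lt 3) (lt 0), cq (lt 2 + lt 3) (lt 1)]
def BN : End K (W K (Fin 4)) := der ![0, lt 3, t • cq (lt 3) (lt 0), t • cq (lt 3) (lt 1)]
def RN : End K (W K (Fin 4)) := der ![0, cq (lt 3) (lt 1), t • cq (cq (lt 3) (lt 1)) (lt 0),
  t • cq (cq (lt 3) (lt 1)) (lt 1)]

theorem D0_sq [CharP K 2] (a : W K (Fin 4)) : D0 (D0 a) = 0 :=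
  LinearMap.congr_fun (der_ext (D := D0 * D0) (E := 0) (der_isDer _).sq (fun _ _ => by simp)
    fun i => by fin_cases i <;> simp [D0]) a

theorem AN_D0 [CharP K 2] (a : W K (Fin 4)) :
    AN (D0 a) = D0 (AN a) + ((lt 2 + lt 3) * a - a * (lt 2 + lt 3)) := by
  have := LinearMap.congr_fun (der_ext ((der_isDer _).comm (D := (AN : End K _)) (E := D0)
    (der_isDer _)) (isDer_ad' (lt 2 + lt 3)) fun i => by
      fin_cases i <;> simp [AN, D0, cq, der_mul, mul_add, add_mul] <;> refine viaK K ?_ <;>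
        match_scalars <;> grind) a
  exact sub_eq_iff_eq_add'.1 this

theorem BN_D0 [CharP K 2] (a : W K (Fin 4)) :
    BN t (D0 a) = D0 (BN t a) + t • (lt 3 * a - a * lt 3) := by
  have := LinearMap.congr_fun (der_ext ((der_isDer _).comm (D := BN t) (E := D0)
    (der_isDer _)) ((isDer_ad' (lt 3)).smul t) fun i => by
      fin_cases i <;> simp [BN, D0, cq, der_mul]
      match_scalars <;> grind) a
  exact sub_eq_iff_eq_add'.1 this

theorem BN_sq [CharP K 2] (a : W K (Fin 4)) : BN t (BN t a) = t • RN t a :=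
  LinearMap.congr_fun (der_ext (D := BN t * BN t) (E := t • RN t) (der_isDer _).sq
    ((der_isDer _).smul t) fun i => by
      fin_cases i <;> simp [BN, RN, cq, der_mul, sub_mul, mul_sub, smul_sub, mul_assoc]
      match_scalars <;> grind) a

abbrev MN (K : Type) [CommRing K] : Type := W K (Fin 4) × W K (Fin 4)

def YN : End K (MN K) :=
  (D0 ∘ₗ LinearMap.fst K _ _).prod (LinearMap.fst K _ _ + D0 ∘ₗ LinearMap.snd K _ _)
def LL (g : W K (Fin 4)) : End K (MN K) := (LM K g).prodMap (LM K g)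
def AM : End K (MN K) := (AN ∘ₗ LinearMap.fst K _ _ + RM K (lt 2 + lt 3) ∘ₗ
  LinearMap.snd K _ _).prod (AN ∘ₗ LinearMap.snd K _ _)
def BM : End K (MN K) := (BN t ∘ₗ LinearMap.fst K _ _ + t • RM K (lt 3) ∘ₗ
  LinearMap.snd K _ _).prod (BN t ∘ₗ LinearMap.snd K _ _)

theorem YN_apply (v : MN K) : YN v = (D0 v.1, v.1 + D0 v.2) := rfl
theorem LL_apply (g : W K (Fin 4)) (v : MN K) : LL g v = (g * v.1, g * v.2) := rfl
theorem AM_apply (v : MN K) : AM v = (AN v.1 + v.2 * (lt 2 + lt 3), AN v.2) := rfl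
theorem BM_apply (v : MN K) : BM t v = (BN t v.1 + t • (v.2 * lt 3), BN t v.2) := rfl

theorem D0_mul (a b : W K (Fin 4)) : D0 (a * b) = D0 a * b + a * D0 b := der_mul _ a b
theorem AN_mul (a b : W K (Fin 4)) : AN (a * b) = AN a * b + a * AN b := der_mul _ a b
theorem BN_mul (a b : W K (Fin 4)) : BN t (a * b) = BN t a * b + a * BN t b := der_mul _ a b
theorem D0_lt (i : Fin 4) : D0 (lt i : W K (Fin 4)) = ![lt 2, lt 3, 0, 0] i := der_lt _ i
theorem AN_lt (i : Fin 4) : AN (lt i : W K (Fin 4)) =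
    ![0, 0, cq (lt 2 + lt 3) (lt 0), cq (lt 2 + lt 3) (lt 1)] i := der_lt _ i
theorem BN_lt (i : Fin 4) : BN t (lt i : W K (Fin 4)) =
    ![0, lt 3, t • cq (lt 3) (lt 0), t • cq (lt 3) (lt 1)] i := der_lt _ i

/-- The fibre algebra acting on the double cover module. -/
def rhoM : W ℤ (Fin 3) →+* End K (MN K) := evZ ![t • LL (lt 0), t • LL (lt 1), YN]

theorem rhoM_al [CharP K 2] (v : W ℤ (Fin 3)) :
    rhoM t (alD ℤ v) = t • AM * rhoM t v - rhoM t v * t • AM :=
  (der_inter (rhoM t) (D := alD ℤ) (der_isDer _) (E := (LM ℤ (t • AM) - RM ℤ (t • AM) :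
    End ℤ (End K (MN K))).toAddMonoidHom) (isDer_ad _) (fun r => (isDer_ad _).int _ r)
    (fun i => by
      refine LinearMap.ext fun v => ?_
      fin_cases i <;> simp [alD, rhoM, YN_apply, LL_apply, AM_apply, D0_mul, AN_mul, D0_lt, AN_lt,
        AN_D0, Prod.ext_iff, mul_add, add_mul, mul_assoc]
      constructor <;> refine viaK K ?_ <;> match_scalars <;> grind) v).trans (by simp)

theorem rhoM_be [CharP K 2] (v : W ℤ (Fin 3)) :
    rhoM t (beD ℤ v) = BM t * rhoM t v - rhoM t v * BM t :=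
  der_inter (rhoM t) (D := beD ℤ) (der_isDer _) (E := (LM ℤ (BM t) - RM ℤ (BM t) :
    End ℤ (End K (MN K))).toAddMonoidHom) (isDer_ad _) (fun r => (isDer_ad _).int _ r)
    (fun i => by
      refine LinearMap.ext fun v => ?_
      fin_cases i <;> simp [beD, rhoM, YN_apply, LL_apply, BM_apply, D0_mul, BN_mul, D0_lt, BN_lt,
        BN_D0 t, Prod.ext_iff, mul_add, add_mul, mul_assoc] <;>
      constructor <;> refine viaK K ?_ <;> match_scalars <;> grind) v

/-- The operators of the four edges, divided by `t`. -/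
def gA : Fin 3 → End K (W K (Fin 4)) := ![AN + LM K (lt 0 + lt 1),
  BN t * AN - AN * BN t + LM K (lt 3), RN t]
def gB : Fin 3 → End K (W K (Fin 4)) := ![LM K (lt 0 + lt 1), LM K (lt 2 + lt 3),
  LM K (lt 2 + lt 3 + t • ((lt 0 + lt 1) * (lt 0 + lt 1)))]
def gC : Fin 3 → End K (W K (Fin 4)) := ![LM K (lt 0), LM K (lt 2 + t • cq (lt 1) (lt 0)),
  LM K (lt 2 + lt 3 + t • ((lt 0 + lt 1) * (lt 0 + lt 1)))]
def gD : Fin 3 → End K (W K (Fin 4)) := ![AN + LM K (lt 0 + lt 1),
  t • cq (LM K (lt 0)) (AN + LM K (lt 0 + lt 1)), t • LM K (lt 0 * lt 0)]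

/-- The edge operators preserve the first summand and act there through `t • g`. -/
def Edge (g : Fin 3 → End K (W K (Fin 4))) (U V : End K (MN K)) : Prop :=
  ∀ i a, (((t • g) i a, 0) : MN K) = ![U, V * U - U * V, V * V] i (a, 0)

set_option linter.unusedSimpArgs false in
set_option linter.unusedTactic false in
theorem edge_gA [CharP K 2] : Edge t (gA t) (t • AM - rhoM t (lt 0 + lt 1)) (BM t) := by
  intro i a
  fin_cases i <;>
    simp [gA, cq, rhoM, YN_apply, LL_apply, AM_apply, BM_apply, D0_mul, AN_mul, BN_mul, D0_lt,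
      AN_lt, BN_lt, D0_sq, BN_sq, Prod.ext_iff, mul_add, add_mul, mul_assoc, sub_mul, mul_sub] <;>
    (try constructor) <;> refine viaK K ?_ <;> match_scalars <;> grind

set_option linter.unusedSimpArgs false in
set_option linter.unusedTactic false in
theorem edge_gB [CharP K 2] : Edge t (gB t) (rhoM t (lt 0 + lt 1)) (-rhoM t (lt 0 + lt 1 + lt 2)) := by
  intro i a
  fin_cases i <;>
    simp [gB, cq, rhoM, YN_apply, LL_apply, AM_apply, BM_apply, D0_mul, AN_mul, BN_mul, D0_lt,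
      AN_lt, BN_lt, D0_sq, BN_sq, Prod.ext_iff, mul_add, add_mul, mul_assoc, sub_mul, mul_sub] <;>
    (try constructor) <;> refine viaK K ?_ <;> match_scalars <;> grind

set_option linter.unusedSimpArgs false in
set_option linter.unusedTactic false in
theorem edge_gC [CharP K 2] : Edge t (gC t) (rhoM t (lt 0)) (-rhoM t (lt 0 + lt 1 + lt 2)) := by
  intro i a
  fin_cases i <;>
    simp [gC, cq, rhoM, YN_apply, LL_apply, AM_apply, BM_apply, D0_mul, AN_mul, BN_mul, D0_lt,
      AN_lt, BN_lt, D0_sq, BN_sq, Prod.ext_iff, mul_add, add_mul, mul_assoc, sub_mul, mul_sub] <;>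
    (try constructor) <;> refine viaK K ?_ <;> match_scalars <;> grind

set_option linter.unusedSimpArgs false in
set_option linter.unusedTactic false in
theorem edge_gD [CharP K 2] : Edge t (gD t) (t • AM - rhoM t (lt 0 + lt 1)) (rhoM t (lt 0)) := by
  intro i a
  fin_cases i <;>
    simp [gD, cq, rhoM, YN_apply, LL_apply, AM_apply, BM_apply, D0_mul, AN_mul, BN_mul, D0_lt,
      AN_lt, BN_lt, D0_sq, BN_sq, Prod.ext_iff, mul_add, add_mul, mul_assoc, sub_mul, mul_sub] <;>
    (try constructor) <;> refine viaK K ?_ <;> match_scalars <;> grind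

theorem pent_N [CharP K 2] {n : ℕ} (hn : 2 ≤ n) {ψ : FL} (hψ : ψ ∈ grt n) {u : W ℤ (Fin 2)}
    (hu : evZ lt u = iota ψ) :
    evZ (t • gA t) (PsiZ u) 1 + evZ (t • gB t) (PsiZ u) 1 =
      evZ (t • gC t) (PsiZ u) 1 + evZ (t • gD t) (PsiZ u) 1 := by
  let Φ : W ℤ (Fin 3) →+ MN K :=
    (LinearMap.applyₗ (R := K) ((1, 0) : MN K)).toAddMonoidHom.comp (rhoM t).toAddMonoidHom
  have hΦ : ∀ v, Φ v = rhoM t v (1, 0) := fun v => rfl
  have ha : ∀ v, Φ (alD ℤ v) = (t • AM) (Φ v) := fun v => by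
    simp [hΦ, rhoM_al, AM_apply, AN, der_one, ← Prod.zero_eq_mk]
  have hb : ∀ v, Φ (beD ℤ v) = BM t (Φ v) := fun v => by
    simp [hΦ, rhoM_be, BM_apply, BN, der_one, ← Prod.zero_eq_mk]
  have hl : ∀ a v, Φ (a * v) = rhoM t a (Φ v) := fun a v => by simp [hΦ]
  have h2 : (2 : End K (MN K)) = 0 := by
    refine LinearMap.ext fun v => viaK K ?_
    rw [show (2 : End K (MN K)) = 1 + 1 by norm_num]
    simp only [LinearMap.add_apply, End.one_apply, LinearMap.zero_apply]
    match_scalars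
    grind
  have k : ∀ (g : Fin 2 → End ℤ (W ℤ (Fin 3))) (U V : End K (MN K))
      (g' : Fin 3 → End K (W K (Fin 4))), (∀ i v, Φ (g i v) = ![U, V] i (Φ v)) →
      Edge t g' U V →
      Φ (evZ g u 1) = (evZ (t • g') (PsiZ u) 1, 0) := fun g U V g' h1 h3 => by
    rw [evZ_inter Φ h1, psi_eq hn hψ.1 hu h2]
    have := evZ_inter (AddMonoidHom.inl (W K (Fin 4)) (W K (Fin 4))) h3 (PsiZ u) 1
    simpa [hΦ] using this.symm
  have h := congrArg Φ (pent_Z hn hψ hu)
  rw [Φ.map_add, Φ.map_add, k _ _ _ _ ?_ (edge_gA t), k _ _ _ _ ?_ (edge_gB t),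
    k _ _ _ _ ?_ (edge_gC t), k _ _ _ _ ?_ (edge_gD t)] at h
  · exact congrArg Prod.fst h
  all_goals
    intro i a
    fin_cases i <;> simp [-map_add, ha, hb, hl]

end star

end

end Pool.Agent.Lib.MP_446a91_nt
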