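import Pool.Agent.Lib.MP_446a91_nt.Main

/-! Noncommutative polynomials over any commutative ring; derivations (MP_446a91_nt). -/

namespace Pool.Agent.Lib.MP_446a91_nt

open Module

noncomputable section

/-- Noncommutative polynomials in the letters `X`. -/
abbrev W (R X : Type) [CommRing R] : Type := MonoidAlgebra R (FreeMonoid X)

variable {R X : Type} [CommRing R]

def wrd (w : List X) : W R X := MonoidAlgebra.single (FreeMonoid.ofList w) 1

def lt (i : X) : W R X := wrd [i]

def cf (w : List X) : W R X →ₗ[R] R :=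
  Finsupp.lapply (FreeMonoid.ofList w) ∘ₗ (MonoidAlgebra.coeffLinearEquiv R).toLinearMap

def linW {Z : Type*} [AddCommGroup Z] [Module R Z] (φ : List X → Z) : W R X →ₗ[R] Z :=
  Finsupp.linearCombination R (fun w => φ (FreeMonoid.toList w)) ∘ₗ
    (MonoidAlgebra.coeffLinearEquiv R).toLinearMap

@[simp] theorem linW_wrd {Z : Type*} [AddCommGroup Z] [Module R Z] (φ : List X → Z)
    (w : List X) : linW φ (wrd w : W R X) = φ w := by
  simp [linW, wrd]

theorem cf_wrd [DecidableEq X] (w v : List X) :
    cf w (wrd v : W R X) = if v = w then 1 else 0 := by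
  classical
  simp [cf, wrd, Finsupp.single_apply]

theorem wrd_mul (v w : List X) : (wrd v * wrd w : W R X) = wrd (v ++ w) := by
  simp [wrd, FreeMonoid.ofList_append]

theorem wrd_nil : (wrd [] : W R X) = 1 := rfl

theorem wrd_cons (i : X) (w : List X) : (wrd (i :: w) : W R X) = lt i * wrd w :=
  (wrd_mul [i] w).symm

/-- The finite set of words with nonzero coefficient. -/
def supp (p : W R X) : Finset (List X) := p.coeff.support.map FreeMonoid.toList.toEmbedding

theorem mem_supp {p : W R X} {w : List X} : w ∈ supp p ↔ cf w p ≠ 0 := by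
  simp [supp, cf]

theorem eq_sum (p : W R X) : p = ∑ w ∈ supp p, cf w p • wrd w := by
  conv_lhs => rw [← p.sum_coeff_single, Finsupp.sum]
  simp [supp, cf, wrd]

theorem add_zero_of {Z : Type*} [AddCommMonoid Z] (φ : W R X →+ Z) (p : W R X)
    (h : ∀ w, cf w p ≠ 0 → φ (cf w p • wrd w) = 0) : φ p = 0 := by
  rw [eq_sum p, map_sum]
  exact Finset.sum_eq_zero fun w hw => h w (mem_supp.1 hw)

theorem linW_zero {Z : Type*} [AddCommGroup Z] [Module R Z] (φ : W R X →ₗ[R] Z) (p : W R X)
    (h : ∀ w, cf w p ≠ 0 → φ (wrd w) = 0) : φ p = 0 :=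
  add_zero_of φ.toAddMonoidHom p fun w hw => by simp [h w hw]

theorem linW_eq {Z : Type*} [AddCommGroup Z] [Module R Z] (φ φ' : W R X →ₗ[R] Z) (p : W R X)
    (h : ∀ w, cf w p ≠ 0 → φ (wrd w) = φ' (wrd w)) : φ p = φ' p :=
  sub_eq_zero.1 (linW_zero (φ - φ') p fun w hw => sub_eq_zero.2 (h w hw))

theorem cf_ext {p : W R X} (h : ∀ w, cf w p = 0) : p = 0 :=
  linW_zero LinearMap.id p fun w hw => absurd (h w) hw

@[elab_as_elim]
theorem W_ind {C : W R X → Prop} (p : W R X) (one : C 1)
    (mul : ∀ i u, C u → C (lt i * u)) (add : ∀ u v, C u → C v → C (u + v))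
    (smul : ∀ (r : R) u, C u → C (r • u)) : C p := by
  refine MonoidAlgebra.induction_on p (fun m => ?_) add smul
  have : ∀ w : List X, C (wrd w) := by
    intro w
    induction w with
    | nil => exact one
    | cons i w ih => rw [wrd_cons]; exact mul i _ ih
  exact this (FreeMonoid.toList m)

section ev
variable {S : Type*} [Ring S]

def evW [Algebra R S] (g : X → S) : W R X →ₐ[R] S :=
  MonoidAlgebra.lift R S _ (FreeMonoid.lift g)

theorem evW_wrd [Algebra R S] (g : X → S) (w : List X) :
    evW g (wrd w : W R X) = (w.map g).prod := by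
  simp [evW, wrd, FreeMonoid.lift_ofList]

@[simp] theorem evW_lt [Algebra R S] (g : X → S) (i : X) : evW g (lt i : W R X) = g i := by
  simp [lt, evW_wrd]

theorem algHom_eq [Algebra R S] {φ φ' : W R X →ₐ[R] S} (h : ∀ i, φ (lt i) = φ' (lt i))
    (u : W R X) : φ u = φ' u := by
  induction u using W_ind with
  | one => simp
  | mul i u ih => simp [h, ih]
  | add u v h1 h2 => simp [h1, h2]
  | smul r u ih => simp [ih]

/-- Evaluation of an integral polynomial in any ring. -/
def evZ (g : X → S) : W ℤ X →+* S := (evW g : W ℤ X →ₐ[ℤ] S).toRingHom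

theorem evZ_wrd (g : X → S) (w : List X) : evZ g (wrd w) = (w.map g).prod := evW_wrd g w

@[simp] theorem evZ_lt (g : X → S) (i : X) : evZ g (lt i) = g i := evW_lt g i

theorem ringHom_eq {φ φ' : W ℤ X →+* S} (h : ∀ i, φ (lt i) = φ' (lt i)) (u : W ℤ X) :
    φ u = φ' u := by
  induction u using W_ind with
  | one => simp
  | mul i u ih => simp [h, ih]
  | add u v h1 h2 => simp [h1, h2]
  | smul r u ih => simp only [map_zsmul, ih]

theorem map_evZ {S' : Type*} [Ring S'] (φ : S →+* S') (g : X → S) (u : W ℤ X) :
    φ (evZ g u) = evZ (fun i => φ (g i)) u :=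
  ringHom_eq (φ := φ.comp (evZ g)) (fun i => by simp) u

theorem evW_evZ [Algebra R S] (g : X → S) (u : W ℤ X) :
    evW g (evZ (lt : X → W R X) u) = evZ g u := by
  simpa using map_evZ (evW g : W R X →ₐ[R] S).toRingHom lt u

theorem evZ_evZ {Y : Type} (g : X → S) (f : Y → W ℤ X) (u : W ℤ Y) :
    evZ g (evZ f u) = evZ (fun i => evZ g (f i)) u := map_evZ _ f u

theorem evZ_id (u : W ℤ X) : evZ lt u = u :=
  ringHom_eq (φ' := RingHom.id _) (fun i => by simp) u

theorem cf_evZ (w : List X) (u : W ℤ X) : cf w (evZ (lt : X → W R X) u) = (cf w u : ℤ) := by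
  classical
  have h : ∀ v : List X, ((v.map lt).prod : W R X) = wrd v := by
    intro v
    induction v with
    | nil => rfl
    | cons i v ih => rw [List.map_cons, List.prod_cons, ih, wrd_cons]
  conv_lhs => rw [eq_sum u]
  conv_rhs => rw [eq_sum u]
  simp only [map_sum, map_zsmul, evZ_wrd, h, cf_wrd]
  simp

theorem evZ_inj [CharZero R] {u v : W ℤ X}
    (h : evZ (lt : X → W R X) u = evZ (lt : X → W R X) v) : u = v := by
  rw [← sub_eq_zero] at h ⊢
  rw [← map_sub] at h
  refine cf_ext fun w => ?_
  have := cf_evZ (R := R) w (u - v)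
  rw [h, map_zero] at this
  exact_mod_cast this.symm

/-- An additive map intertwining the letters intertwines all integral polynomials. -/
theorem evZ_inter {R' M M' : Type} [CommRing R'] [AddCommGroup M] [AddCommGroup M'] [Module R M]
    [Module R' M'] (φ : M →+ M') {g : X → End R M} {g' : X → End R' M'}
    (h : ∀ i v, φ (g i v) = g' i (φ v)) (u : W ℤ X) (v : M) :
    φ (evZ g u v) = evZ g' u (φ v) := by
  induction u using W_ind with
  | one => simp
  | mul i u ih => simp [h, ih]
  | add u v h1 h2 => simp [h1, h2]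
  | smul r u ih => simp only [map_zsmul, LinearMap.smul_apply, ih]

end ev

section der
variable {S : Type} [Ring S] [Algebra R S]

/-- Left multiplication. -/
def LM (R : Type) [CommRing R] [Algebra R S] : S →ₐ[R] End R S := Algebra.lmul R S

@[simp] theorem LM_apply (a b : S) : LM R a b = a * b := rfl

theorem evZ_LM (g : X → S) (u : W ℤ X) : evZ (fun i => LM R (g i)) u 1 = evZ g u := by
  have := map_evZ (LM R : S →ₐ[R] End R S).toRingHom g u
  simp only [AlgHom.toRingHom_eq_coe, RingHom.coe_coe] at this
  rw [← this]; simp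

/-- Leibniz rule. -/
def IsDer {S : Type} [Ring S] (D : S → S) : Prop := ∀ a b, D (a * b) = D a * b + a * D b

theorem IsDer.one {D : End R S} (h : IsDer D) : D 1 = 0 := by
  have := h 1 1
  simpa using this

theorem IsDer.comm {D E : End R S} (hD : IsDer D) (hE : IsDer E) : IsDer (D * E - E * D : End R S) := by
  intro a b
  simp only [End.mul_apply, LinearMap.sub_apply, hD _ _, hE _ _,
    map_add]
  noncomm_ring

theorem IsDer.LM {D : End R S} (h : IsDer D) (a : S) :
    D * LM R a - LM R a * D = LM R (D a) := by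
  ext b
  simp [h a b]

def dW (f : X → W R X) : List X → W R X
  | [] => 0
  | i :: w => f i * wrd w + lt i * dW f w

/-- The derivation with prescribed values at the letters. -/
def der (f : X → W R X) : End R (W R X) := linW (dW f)

theorem der_one (f : X → W R X) : der f 1 = 0 := linW_wrd (dW f) []

theorem der_lt_mul (f : X → W R X) (i : X) (u : W R X) :
    der f (lt i * u) = f i * u + lt i * der f u :=
  linW_eq (der f ∘ₗ LM R (lt i)) (LM R (f i) + LM R (lt i) ∘ₗ der f) u fun w _ => by
    simp [← wrd_cons, der, dW]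

@[simp] theorem der_lt (f : X → W R X) (i : X) : der f (lt i) = f i := by
  simpa [der_one] using der_lt_mul f i 1

theorem der_isDer (f : X → W R X) : IsDer (der f) := by
  intro a b
  induction a using W_ind with
  | one => simp [der_one]
  | mul i u ih => rw [mul_assoc, der_lt_mul, der_lt_mul, ih]; noncomm_ring
  | add u v h1 h2 => rw [add_mul, map_add, map_add, h1, h2]; noncomm_ring
  | smul r u ih => simp only [smul_mul_assoc, map_smul, ih, smul_add]

theorem der_mul (f : X → W R X) (a b : W R X) :
    der f (a * b) = der f a * b + a * der f b := der_isDer f a b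

/-- A ring map intertwines two derivations if it does so at the letters. -/
theorem der_inter {S : Type} [Ring S] (φ : W R X →+* S) {D : End R (W R X)} (hD : IsDer D)
    {E : S →+ S} (hE : IsDer E) (hs : ∀ r : R, E (φ (algebraMap R _ r)) = 0)
    (h : ∀ i, φ (D (lt i)) = E (φ (lt i))) (u : W R X) : φ (D u) = E (φ u) := by
  induction u using W_ind with
  | one => rw [hD.one, map_zero, ← hs 1, map_one]
  | mul i u ih => rw [hD, map_add, map_mul, map_mul, map_mul, hE, h, ih]
  | add u v h1 h2 => simp [h1, h2]
  | smul r u ih =>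
    rw [map_smul, Algebra.smul_def, Algebra.smul_def, map_mul, map_mul, hE, hs, ih, zero_mul,
      zero_add]

theorem der_ext {D E : End R (W R X)} (hD : IsDer D) (hE : IsDer E)
    (h : ∀ i, D (lt i) = E (lt i)) : D = E := by
  refine LinearMap.ext fun u => ?_
  exact der_inter (RingHom.id _) hD (E := E.toAddMonoidHom) hE
    (fun r => by simp [Algebra.algebraMap_eq_smul_one, hE.one]) h u

end der

end

end Pool.Agent.Lib.MP_446a91_nt
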