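import Mathlib

/-! The graded Grothendieck–Teichmüller Lie algebra, degree by degree (MP_446a91_nt). -/

namespace Pool.Agent.Lib.MP_446a91_nt

noncomputable section

/-- The free Lie algebra over `ℚ` on two generators. -/
abbrev FL : Type := FreeLieAlgebra ℚ (Fin 2)

/-- The generator `x`. -/
def genX : FL := FreeLieAlgebra.of ℚ 0

/-- The generator `y`. -/
def genY : FL := FreeLieAlgebra.of ℚ 1

/-- `IsBr n u`: `u` is an iterated bracket of `n` generators. -/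
inductive IsBr : ℕ → FL → Prop
  | of (i : Fin 2) : IsBr 1 (FreeLieAlgebra.of ℚ i)
  | lie {m n : ℕ} {u v : FL} : IsBr m u → IsBr n v → IsBr (m + n) ⁅u, v⁆

/-- The homogeneous component of degree `n` of the free Lie algebra. -/
def deg (n : ℕ) : Submodule ℚ FL := Submodule.span ℚ {u | IsBr n u}

/-- Substitution `ψ ↦ ψ(u, v)` into a Lie algebra. -/
def ev {g : Type} [LieRing g] [LieAlgebra ℚ g] (u v : g) : FL →ₗ⁅ℚ⁆ g :=
  FreeLieAlgebra.lift ℚ ![u, v]

/-- Pairs `i < j` of strands. -/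
abbrev Pr : Type := {p : Fin 4 × Fin 4 // p.1 < p.2}

/-- The free generator `t_{ij} = t_{ji}` (only used for `i ≠ j`). -/
def tf (i j : Fin 4) : FreeLieAlgebra ℚ Pr :=
  if h : i < j then FreeLieAlgebra.of ℚ ⟨(i, j), h⟩
  else if h : j < i then FreeLieAlgebra.of ℚ ⟨(j, i), h⟩ else 0

/-- The infinitesimal braid relations. -/
def rels : Set (FreeLieAlgebra ℚ Pr) :=
  {r | ∃ i j k l : Fin 4, i ≠ j ∧ k ≠ l ∧ i ≠ k ∧ i ≠ l ∧ j ≠ k ∧ j ≠ l ∧ r = ⁅tf i j, tf k l⁆} ∪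
  {r | ∃ i j k : Fin 4, i ≠ j ∧ i ≠ k ∧ j ≠ k ∧ r = ⁅tf i j, tf i k + tf j k⁆}

/-- The Lie ideal generated by the infinitesimal braid relations. -/
def relIdeal : LieIdeal ℚ (FreeLieAlgebra ℚ Pr) := LieSubmodule.lieSpan ℚ _ rels

/-- The Drinfeld–Kohno Lie algebra on four strands. -/
abbrev T4 : Type := FreeLieAlgebra ℚ Pr ⧸ relIdeal

/-- The generators of `T4`; strands `1, 2, 3, 4` are `0, 1, 2, 3 : Fin 4`. -/
def t (i j : Fin 4) : T4 := LieSubmodule.Quotient.mk (tf i j)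

/-- Condition (1): `ψ(x, y) = -ψ(y, x)`. -/
def Skew (ψ : FL) : Prop := ev genX genY ψ = -ev genY genX ψ

/-- Condition (2): `ψ(x, y) + ψ(y, z) + ψ(z, x) = 0` for `x + y + z = 0`. -/
def Cyclic (ψ : FL) : Prop :=
  ∀ z : FL, genX + genY + z = 0 → ev genX genY ψ + ev genY z ψ + ev z genX ψ = 0

/-- `ψ(u, v)` for `u, v` in the Drinfeld–Kohno Lie algebra. -/
def evT (ψ : FL) (u v : T4) : T4 := ev u v ψ

/-- Condition (3): the pentagon. -/
def Pentagon (ψ : FL) : Prop :=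
  evT ψ (t 0 1) (t 1 2 + t 1 3) + evT ψ (t 0 2 + t 1 2) (t 2 3) =
    evT ψ (t 1 2) (t 2 3) + evT ψ (t 0 1 + t 0 2) (t 1 3 + t 2 3) + evT ψ (t 0 1) (t 1 2)

/-- The set of degree `n` elements satisfying the three conditions. -/
def grtSet (n : ℕ) : Set FL := {ψ | ψ ∈ deg n ∧ Skew ψ ∧ Cyclic ψ ∧ Pentagon ψ}

theorem grtSet_zero (n : ℕ) : (0 : FL) ∈ grtSet n :=
  ⟨zero_mem _, by simp [Skew], by simp [Cyclic], by simp [Pentagon, evT]⟩

theorem grtSet_add (n : ℕ) {ψ φ : FL} (h : ψ ∈ grtSet n) (k : φ ∈ grtSet n) :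
    ψ + φ ∈ grtSet n := by
  obtain ⟨h0, h1, h2, h3⟩ := h
  obtain ⟨k0, k1, k2, k3⟩ := k
  refine ⟨add_mem h0 k0, ?_, fun z hz => ?_, ?_⟩
  · simp only [Skew, map_add] at h1 k1 ⊢; linear_combination (norm := abel) h1 + k1
  · simp only [map_add]; linear_combination (norm := abel) h2 z hz + k2 z hz
  · simp only [Pentagon, evT, map_add] at h3 k3 ⊢; linear_combination (norm := abel) h3 + k3

theorem grtSet_smul (n : ℕ) (c : ℚ) {ψ : FL} (h : ψ ∈ grtSet n) : c • ψ ∈ grtSet n := by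
  obtain ⟨h0, h1, h2, h3⟩ := h
  refine ⟨Submodule.smul_mem _ c h0, ?_, fun z hz => ?_, ?_⟩
  · simp only [Skew] at h1 ⊢; simp only [map_smul, h1, smul_neg]
  · simp only [map_smul, ← smul_add, h2 z hz, smul_zero]
  · simp only [Pentagon, evT] at h3 ⊢; simp only [map_smul, ← smul_add, h3]

/-- The degree `n` part of `grt`. -/
def grt (n : ℕ) : Submodule ℚ FL where
  carrier := grtSet n
  zero_mem' := grtSet_zero n
  add_mem' := grtSet_add n
  smul_mem' := grtSet_smul n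

end

end Pool.Agent.Lib.MP_446a91_nt
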