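import Pool.Agent.Lib.MP_446a91_nt.Main

namespace Pool.Agent.Lib.MP_446a91_nt.FibBound

open Pool.Agent.Lib.MP_446a91_nt

/-- The degree `n` part of the Grothendieck–Teichmüller Lie algebra has dimension at most the
Fibonacci number `F_{n-1}`. -/
theorem result (n : ℕ) (hn : 2 ≤ n) :
    Module.rank ℚ (grt n) ≤ (Nat.fib (n - 1) : Cardinal) :=
  rank_grt_le hn

end Pool.Agent.Lib.MP_446a91_nt.FibBound
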