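import Pool.Agent.Lib.MP_446a91_nt.CovFinal

namespace Pool.Agent.Lib.MP_446a91_nt.FreeBound

open Pool.Agent.Lib.MP_446a91_nt

/-- In every degree the Grothendieck–Teichmüller Lie algebra has dimension at most that of the
free Lie algebra on generators of degrees `3, 5, 7, …`. -/
theorem result (n : ℕ) : Module.rank ℚ (grt n) ≤ Module.rank ℚ (degMot n) :=
  rank_grt_le_mot n

end Pool.Agent.Lib.MP_446a91_nt.FreeBound
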