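import Pool.Agent.Lib.MP_446a91_nt.NoYY

/-! The regular module of the Drinfeld–Kohno algebra modulo its centre (MP_446a91_nt). -/

namespace Pool.Agent.Lib.MP_446a91_nt

open Module

noncomputable section

abbrev Bas : Type := List (Fin 3) × List (Fin 2)
abbrev MM : Type := Bas →₀ ℚ

def fibop {P : Type*} [AddCommGroup P] [Module ℚ P] (O : Ops P) : Fin 3 → End ℚ P :=
  ![O.a, O.e, O.d]
def basop {P : Type*} [AddCommGroup P] [Module ℚ P] (O : Ops P) : Fin 2 → End ℚ P :=
  ![O.b + O.d, O.f]

/-- The commutators of base generators with fibre generators. -/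
def del {R : Type*} [Ring R] (s : Fin 3 → R) : Fin 2 → Fin 3 → R :=
  ![![0, s 2 * s 1 - s 1 * s 2, s 2 * s 0 - s 0 * s 2],
    ![0, s 1 * s 2 - s 2 * s 1, s 2 * s 1 - s 1 * s 2]]

theorem bas_fib {P : Type*} [AddCommGroup P] [Module ℚ P] (O : Ops P) (i : Fin 2) (t : Fin 3) :
    basop O i * fibop O t = fibop O t * basop O i + del (fibop O) i t := by
  fin_cases i <;> fin_cases t <;> simp [basop, fibop, del]
  · exact O.r3.symm
  · linear_combination (norm := noncomm_ring) O.r2
  · linear_combination (norm := noncomm_ring) O.r3 + O.r4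
  · exact O.r1.symm
  · linear_combination (norm := noncomm_ring) - O.r5
  · linear_combination (norm := noncomm_ring) O.r5 + O.r6

def fb (t : Fin 3) : End ℚ MM := Finsupp.lmapDomain ℚ ℚ fun p : Bas => (t :: p.1, p.2)

theorem fb_single (t : Fin 3) (W : List (Fin 3)) (β : List (Fin 2)) :
    fb t (Finsupp.single (W, β) 1) = Finsupp.single (t :: W, β) 1 := by
  simp [fb]

def basAct (i : Fin 2) : List (Fin 3) → List (Fin 2) → MM
  | [], β => Finsupp.single ([], i :: β) 1
  | t :: W, β => fb t (basAct i W β) + del fb i t (Finsupp.single (W, β) 1)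

def bs (i : Fin 2) : End ℚ MM := Finsupp.linearCombination ℚ fun p : Bas => basAct i p.1 p.2

theorem bs_single (i : Fin 2) (W : List (Fin 3)) (β : List (Fin 2)) :
    bs i (Finsupp.single (W, β) 1) = basAct i W β := by
  simp [bs]

theorem MM_ext {Z : Type*} [AddCommGroup Z] [Module ℚ Z] {H H' : MM →ₗ[ℚ] Z}
    (h : ∀ W β, H (Finsupp.single (W, β) 1) = H' (Finsupp.single (W, β) 1)) : H = H' := by
  refine Finsupp.lhom_ext' fun p => LinearMap.ext_ring ?_
  simpa using h p.1 p.2

theorem bs_fb (i : Fin 2) (t : Fin 3) : bs i * fb t = fb t * bs i + del fb i t :=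
  MM_ext fun W β => by
    rw [End.mul_apply, fb_single, bs_single, basAct, LinearMap.add_apply, End.mul_apply, bs_single]

theorem aux_r2 {R : Type*} [Ring R] {β e d : R} (h : β * e = e * β + (d * e - e * d)) :
    (β - d) * e = e * (β - d) := by
  linear_combination (norm := noncomm_ring) h

theorem aux_r4 {R : Type*} [Ring R] {β a d : R} (h : β * a = a * β + 0)
    (h' : β * d = d * β + (d * a - a * d)) : (β - d) * (a + d) = (a + d) * (β - d) := by
  linear_combination (norm := noncomm_ring) h + h'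

theorem aux_sq {R : Type*} [Ring R] {τ s t : R} (h1 : τ * s = t * τ) (h2 : τ * t = s * τ) :
    (τ * τ - 1) * s = s * (τ * τ - 1) := by
  linear_combination (norm := noncomm_ring) τ * h1 + h2 * τ

def OM : Ops MM where
  a := fb 0
  b := bs 0 - fb 2
  d := fb 2
  e := fb 1
  f := bs 1
  o := Finsupp.single ([], []) 1
  r1 := by simpa [del] using (bs_fb 1 0).symm
  r2 := aux_r2 (bs_fb 0 1)
  r3 := by simpa [del] using (bs_fb 0 0).symm
  r4 := aux_r4 (bs_fb 0 0) (bs_fb 0 2)
  r5 := by
    have h := bs_fb 1 1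
    simp only [del, Matrix.cons_val] at h
    linear_combination (norm := noncomm_ring) - h
  r6 := by
    have h := bs_fb 1 1
    have h' := bs_fb 1 2
    simp only [del, Matrix.cons_val] at h h'
    linear_combination (norm := noncomm_ring) h + h'

theorem fibop_OM : fibop OM = fb := by
  funext t; fin_cases t <;> rfl

theorem basop_OM : basop OM = bs := by
  funext i; fin_cases i <;> simp [basop, OM]

theorem fb_mem (t : Fin 3) : fb t ∈ Submodule.span ℚ OM.S5 := by
  fin_cases t
  exacts [OM.a_mem, OM.e_mem, OM.d_mem]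

theorem bs_mem (i : Fin 2) : bs i ∈ Submodule.span ℚ OM.S5 := by
  rw [← basop_OM]
  fin_cases i
  exacts [add_mem OM.b_mem OM.d_mem, OM.f_mem]

theorem OM_cyc : OM.Cyc := by
  have key : ∀ W β, ∀ H : End ℚ MM, (∀ j, H ∈ Vn OM.S5 OM.o ⊥ j) →
      H (Finsupp.single (W, β) 1) = 0 := by
    intro W β
    induction W with
    | nil =>
      induction β with
      | nil => intro H hH; exact mem_Vn_zero.1 (hH 0)
      | cons i β ih =>
        intro H hH
        have := ih (H * bs i) fun j => Vn_span (hH (j + 1)) (bs_mem i)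
        rwa [End.mul_apply, bs_single, basAct] at this
    | cons t W ih =>
      intro H hH
      have := ih (H * fb t) fun j => Vn_span (hH (j + 1)) (fb_mem t)
      rwa [End.mul_apply, fb_single] at this
  intro H hH
  exact MM_ext fun W β => key W β H hH

/-- The universal map out of the model. -/
def mu {P : Type*} [AddCommGroup P] [Module ℚ P] (O : Ops P) : MM →ₗ[ℚ] P :=
  Finsupp.linearCombination ℚ fun p : Bas =>
    ((p.1.map (fibop O)).prod * (p.2.map (basop O)).prod) O.o

section mu
variable {P : Type*} [AddCommGroup P] [Module ℚ P] (O : Ops P)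

theorem mu_single (W : List (Fin 3)) (β : List (Fin 2)) : mu O (Finsupp.single (W, β) 1) =
    ((W.map (fibop O)).prod * (β.map (basop O)).prod) O.o := by
  simp [mu]

theorem mu_fb (t : Fin 3) (v : MM) : mu O (fb t v) = fibop O t (mu O v) := by
  have : mu O ∘ₗ fb t = fibop O t ∘ₗ mu O := MM_ext fun W β => by
    simp [fb_single, mu_single]
  exact LinearMap.congr_fun this v

theorem mu_del (i : Fin 2) (t : Fin 3) (v : MM) :
    mu O (del fb i t v) = del (fibop O) i t (mu O v) := by
  fin_cases i <;> fin_cases t <;> simp [del, mu_fb]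

theorem mu_bs (i : Fin 2) (v : MM) : mu O (bs i v) = basop O i (mu O v) := by
  have : mu O ∘ₗ bs i = basop O i ∘ₗ mu O := MM_ext fun W β => by
    rw [LinearMap.comp_apply, LinearMap.comp_apply, bs_single]
    induction W with
    | nil => simp [basAct, mu_single]
    | cons t W ih =>
      rw [basAct, map_add, mu_fb, ih, mu_del, ← fb_single, mu_fb, ← End.mul_apply (basop O i),
        bas_fib, LinearMap.add_apply, End.mul_apply]
  exact LinearMap.congr_fun this v

end mu

def tauM : End ℚ MM := mu OM.tau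

theorem tauM_o : tauM OM.o = OM.o := by
  simp [tauM, OM, mu_single, Ops.tau]

theorem tauM_a : tauM * OM.a = OM.f * tauM := LinearMap.ext fun v => mu_fb OM.tau 0 v
theorem tauM_e : tauM * OM.e = OM.b * tauM := LinearMap.ext fun v => mu_fb OM.tau 1 v
theorem tauM_d : tauM * OM.d = OM.d * tauM := LinearMap.ext fun v => mu_fb OM.tau 2 v
theorem tauM_f : tauM * OM.f = OM.a * tauM := LinearMap.ext fun v => mu_bs OM.tau 1 v
theorem tauM_b : tauM * OM.b = OM.e * tauM := by
  have h : tauM * bs 0 = (OM.e + OM.d) * tauM := LinearMap.ext fun v => mu_bs OM.tau 0 v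
  have h2 : OM.b = bs 0 - OM.d := rfl
  rw [h2, mul_sub, h, tauM_d, add_mul, add_sub_cancel_right]

theorem tauM_sq : tauM * tauM = 1 := by
  refine sub_eq_zero.1 (OM_cyc _ (Vn_comm (fun t ht => ?_) (by simp [tauM_o])))
  simp only [Ops.S5, Set.mem_insert_iff, Set.mem_singleton_iff] at ht
  rcases ht with rfl | rfl | rfl | rfl | rfl
  exacts [aux_sq tauM_a tauM_f, aux_sq tauM_b tauM_e, aux_sq tauM_d tauM_d, aux_sq tauM_e tauM_b,
    aux_sq tauM_f tauM_a]

def prj (t : Fin 3) : Bas → MM
  | ([], _) => 0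
  | (s :: W, β) => if s = t then Finsupp.single (W, β) 1 else 0

def pr (t : Fin 3) : End ℚ MM := Finsupp.linearCombination ℚ (prj t)

theorem pr_fb (t s : Fin 3) : pr t * fb s = if s = t then 1 else 0 :=
  MM_ext fun W β => by
    rw [End.mul_apply, fb_single]
    split_ifs with h <;> simp [pr, prj, h]

theorem base_V (j : ℕ) : ∀ H : End ℚ MM, (∀ β, H (Finsupp.single ([], β) 1) = 0) →
    H ∈ Vn OM.SX OM.o ⊥ j := by
  induction j with
  | zero => intro H h; exact mem_Vn_zero.2 (h [])
  | succ j ih =>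
    intro H h
    have hb : ∀ i, H * bs i ∈ Vn OM.SX OM.o ⊥ j := fun i => ih _ fun β => by
      rw [End.mul_apply, bs_single, basAct, h]
    refine OM.mem_VX.2 ⟨?_, hb 1⟩
    have : OM.b + OM.d = bs 0 := by simp [OM]
    rw [this]; exact hb 0

theorem eps_fb (t : Fin 3) (v : MM) : (fb t v) ([], []) = 0 := by
  have : Finsupp.lapply ([], []) ∘ₗ fb t = (0 : MM →ₗ[ℚ] ℚ) := MM_ext fun W β => by
    simp [fb_single]
  exact LinearMap.congr_fun this v

theorem eps_bs (i : Fin 2) (v : MM) : (bs i v) ([], []) = 0 := by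
  have : Finsupp.lapply ([], []) ∘ₗ bs i = (0 : MM →ₗ[ℚ] ℚ) := MM_ext fun W β => by
    rw [LinearMap.comp_apply, bs_single]
    cases W with
    | nil => simp [basAct]
    | cons t W => fin_cases i <;> fin_cases t <;> simp [basAct, del, eps_fb]
  exact LinearMap.congr_fun this v

def splitM : Split OM where
  pa := pr 0
  pe := pr 1
  pd := pr 2
  eps := Finsupp.lapply ([], [])
  aa := by simpa [OM] using pr_fb 0 0
  ae := by simpa [OM] using pr_fb 0 1
  ad := by simpa [OM] using pr_fb 0 2
  ea := by simpa [OM] using pr_fb 1 0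
  ee := by simpa [OM] using pr_fb 1 1
  ed := by simpa [OM] using pr_fb 1 2
  da := by simpa [OM] using pr_fb 2 0
  de := by simpa [OM] using pr_fb 2 1
  dd := by simpa [OM] using pr_fb 2 2
  ba := fun j => base_V j _ fun β => by simp [pr, prj]
  be := fun j => base_V j _ fun β => by simp [pr, prj]
  bd := fun j => base_V j _ fun β => by simp [pr, prj]
  eps0 := fun t ht v => by
    simp only [Ops.S5, Set.mem_insert_iff, Set.mem_singleton_iff] at ht
    rcases ht with rfl | rfl | rfl | rfl | rfl <;> simp [OM, eps_fb, eps_bs]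
  eps1 := by simp [OM]

theorem conj_V {H : End ℚ MM} {j : ℕ} (h : H ∈ Vn OM.SX OM.o ⊥ j) :
    tauM * H * tauM ∈ Vn OM.tau.SX OM.tau.o ⊥ j := by
  refine Vn_conj (S := OM.SX) (fun t ht => ?_) tauM_o (Vn_left0 _ h)
  simp only [Ops.tau_SX, Ops.SU, Set.mem_insert_iff, Set.mem_singleton_iff] at ht
  rcases ht with rfl | rfl
  · exact ⟨OM.b + OM.d, by simp [Ops.SX], by rw [mul_add, add_mul, tauM_e, tauM_d]⟩
  · exact ⟨OM.f, by simp [Ops.SX], tauM_a⟩

def splitM' : Split OM.tau where
  pa := tauM * splitM.pa * tauM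
  pe := tauM * splitM.pe * tauM
  pd := tauM * splitM.pd * tauM
  eps := splitM.eps
  aa := by
    change _ * OM.f = _
    rw [mul_assoc, tauM_f, ← mul_assoc, mul_assoc tauM, splitM.aa, mul_one, tauM_sq]
  ae := by
    change _ * OM.b = _
    rw [mul_assoc, tauM_b, ← mul_assoc, mul_assoc tauM, splitM.ae, mul_zero, zero_mul]
  ad := by
    change _ * OM.d = _
    rw [mul_assoc, tauM_d, ← mul_assoc, mul_assoc tauM, splitM.ad, mul_zero, zero_mul]
  ea := by
    change _ * OM.f = _
    rw [mul_assoc, tauM_f, ← mul_assoc, mul_assoc tauM, splitM.ea, mul_zero, zero_mul]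
  ee := by
    change _ * OM.b = _
    rw [mul_assoc, tauM_b, ← mul_assoc, mul_assoc tauM, splitM.ee, mul_one, tauM_sq]
  ed := by
    change _ * OM.d = _
    rw [mul_assoc, tauM_d, ← mul_assoc, mul_assoc tauM, splitM.ed, mul_zero, zero_mul]
  da := by
    change _ * OM.f = _
    rw [mul_assoc, tauM_f, ← mul_assoc, mul_assoc tauM, splitM.da, mul_zero, zero_mul]
  de := by
    change _ * OM.b = _
    rw [mul_assoc, tauM_b, ← mul_assoc, mul_assoc tauM, splitM.de, mul_zero, zero_mul]
  dd := by
    change _ * OM.d = _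
    rw [mul_assoc, tauM_d, ← mul_assoc, mul_assoc tauM, splitM.dd, mul_one, tauM_sq]
  ba := fun j => conj_V (splitM.ba j)
  be := fun j => conj_V (splitM.be j)
  bd := fun j => conj_V (splitM.bd j)
  eps0 := fun t ht => splitM.eps0 t (OM.tau_S5 ▸ ht)
  eps1 := splitM.eps1

/-! The target: words of length at most `n`, placed inside the model. -/

def FM (n : ℕ) : Filt MM where
  N := fun k => Finsupp.supported ℚ ℚ {p | k = 0 ∨ (k ≤ p.2.length ∧ p.2.length ≤ n)}
  m := n + 1
  anti := fun j k hjk => Finsupp.supported_mono fun p hp => by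
    simp only [Set.mem_ofPred_eq] at hp ⊢; omega
  top := by simp
  bot := by
    have : {p : Bas | n + 1 = 0 ∨ (n + 1 ≤ p.2.length ∧ p.2.length ≤ n)} = ∅ := by
      ext p; simp
    rw [this, Finsupp.supported_empty]

def XM (n : ℕ) : End ℚ MM := Finsupp.linearCombination ℚ fun p : Bas =>
  if p.2 ≠ [] ∧ p.2.length < n then Finsupp.single ([], 1 :: p.2) 1 else 0

def YM (n : ℕ) : End ℚ MM := Finsupp.linearCombination ℚ fun p : Bas =>
  if p.2.length < n then -Finsupp.single ([], 0 :: p.2) 1 else 0

theorem Up_of_basis (n : ℕ) (g : Bas → MM)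
    (hg : ∀ p, g p ∈ (FM n).N (p.2.length + 1)) :
    Finsupp.linearCombination ℚ g ∈ (FM n).Up 1 := by
  intro i v hv
  rw [Finsupp.linearCombination_apply]
  refine Submodule.sum_mem _ fun p hp => Submodule.smul_mem _ _ ((FM n).anti ?_ (hg p))
  have := (Finsupp.mem_supported ℚ v).1 hv hp
  simp only [Set.mem_ofPred_eq] at this
  omega

theorem XM_up (n : ℕ) : XM n ∈ (FM n).Up 1 := Up_of_basis n _ fun p => by
  split_ifs with h
  · exact Finsupp.single_mem_supported ℚ _ (by simp; omega)
  · exact zero_mem _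

theorem YM_up (n : ℕ) : YM n ∈ (FM n).Up 1 := Up_of_basis n _ fun p => by
  split_ifs with h
  · exact neg_mem (Finsupp.single_mem_supported ℚ _ (by simp; omega))
  · exact zero_mem _

theorem wp_XY (n : ℕ) (v : List (Fin 2)) (hv : v.length ≤ n) :
    wp (-YM n) (XM n) v OM.o =
      if v.getLast? = some 1 then 0 else Finsupp.single ([], v) 1 := by
  induction v with
  | nil => simp [OM]
  | cons i v ih =>
    have hl : v.length < n := by simpa using hv
    rw [wp_cons, End.mul_apply, ih hl.le]
    cases v with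
    | nil => fin_cases i <;> simp [XM, YM, show 0 < n from hl]
    | cons s v =>
      rw [List.getLast?_cons_cons]
      split_ifs with h
      · simp
      · fin_cases i <;> simp [XM, YM, show v.length + 1 < n from hl]

theorem ell_YM (n : ℕ) (w : List (Fin 2)) (v : MM) : (YM n v) ([], 1 :: w) = 0 := by
  have : Finsupp.lapply ([], 1 :: w) ∘ₗ YM n = (0 : MM →ₗ[ℚ] ℚ) := MM_ext fun W β => by
    by_cases h : β.length < n <;> simp [YM, h]
  exact LinearMap.congr_fun this v

theorem exists_datM (n : ℕ) :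
    ∃ D : Dat OM (FM n), D.x = XM n ∧ D.y = YM n ∧ D.G OM.o = OM.o :=
  exists_dat splitM splitM' (XM_up n) (YM_up n) OM.o (by simp [XM, OM])

end

end Pool.Agent.Lib.MP_446a91_nt
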