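import Pool.Agent.Lib.MP_446a91_nt.Words
import Pool.Agent.Lib.MP_446a91_nt.Model

/-! The pentagon implies the drop-one relations (MP_446a91_nt). -/

namespace Pool.Agent.Lib.MP_446a91_nt

open Module

attribute [local instance 100] LieRing.ofAssociativeRing

noncomputable section

section rep
variable {R : Type} [Ring R] {a b d e f : R}

/-- The images of the generators `t_{ij}`. -/
def tO (a b d e f : R) : Fin 4 → Fin 4 → R :=
  ![![0, a, -(a + b + d + e + f), b], ![a, 0, e, d], ![-(a + b + d + e + f), e, 0, f],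
    ![b, d, f, 0]]

theorem tO_rel1 (r1 : a * f = f * a) (r2 : b * e = e * b) (r3 : a * (b + d) = (b + d) * a)
    (r4 : b * (a + d) = (a + d) * b) (r5 : e * (d + f) = (d + f) * e)
    (r6 : f * (d + e) = (d + e) * f) (i j k l : Fin 4) (h1 : i ≠ j) (h2 : k ≠ l) (h3 : i ≠ k)
    (h4 : i ≠ l) (h5 : j ≠ k) (h6 : j ≠ l) :
    tO a b d e f i j * tO a b d e f k l = tO a b d e f k l * tO a b d e f i j := by
  have r7 : -(a + b + d + e + f) * d = d * -(a + b + d + e + f) := by
    linear_combination (norm := noncomm_ring) - r3 - r4 - r5 - r6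
  fin_cases i <;> fin_cases j <;> fin_cases k <;> fin_cases l <;>
    first
    | exact absurd rfl h1 | exact absurd rfl h2 | exact absurd rfl h3 | exact absurd rfl h4
    | exact absurd rfl h5 | exact absurd rfl h6
    | exact r1 | exact r1.symm | exact r2 | exact r2.symm | exact r7 | exact r7.symm

theorem tO_rel2 (r1 : a * f = f * a) (r2 : b * e = e * b) (r3 : a * (b + d) = (b + d) * a)
    (r4 : b * (a + d) = (a + d) * b) (r5 : e * (d + f) = (d + f) * e)
    (r6 : f * (d + e) = (d + e) * f) (i j k : Fin 4) (h1 : i ≠ j) (h2 : i ≠ k) (h3 : j ≠ k) :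
    Commute (tO a b d e f i j) (tO a b d e f i k + tO a b d e f j k) := by
  set c := -(a + b + d + e + f) with hc
  have s1 : Commute a (c + e) := by
    change _ * _ = _ * _; rw [hc]; linear_combination (norm := noncomm_ring) - r3 - r1
  have s2 : Commute c (a + e) := by
    change _ * _ = _ * _; rw [hc]; linear_combination (norm := noncomm_ring) r3 + r1 - r2 + r5
  have s3 : Commute e (a + c) := by
    change _ * _ = _ * _; rw [hc]; linear_combination (norm := noncomm_ring) r2 - r5
  have s4 : Commute a (b + d) := r3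
  have s5 : Commute b (a + d) := r4
  have s6 : Commute d (a + b) := by
    change _ * _ = _ * _; linear_combination (norm := noncomm_ring) - r3 - r4
  have s7 : Commute c (b + f) := by
    change _ * _ = _ * _; rw [hc]; linear_combination (norm := noncomm_ring) r4 + r2 - r1 + r6
  have s8 : Commute b (c + f) := by
    change _ * _ = _ * _; rw [hc]; linear_combination (norm := noncomm_ring) - r4 - r2
  have s9 : Commute f (c + b) := by
    change _ * _ = _ * _; rw [hc]; linear_combination (norm := noncomm_ring) r1 - r6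
  have s10 : Commute e (d + f) := r5
  have s11 : Commute f (d + e) := r6
  have s12 : Commute d (e + f) := by
    change _ * _ = _ * _; linear_combination (norm := noncomm_ring) - r5 - r6
  have sw : ∀ {p q r : R}, Commute p (q + r) → Commute p (r + q) := fun h => by
    rwa [add_comm]
  fin_cases i <;> fin_cases j <;> fin_cases k <;>
    first
    | exact absurd rfl h1 | exact absurd rfl h2 | exact absurd rfl h3
    | exact s1 | exact s2 | exact s3 | exact s4 | exact s5 | exact s6 | exact s7 | exact s8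
    | exact s9 | exact s10 | exact s11 | exact s12 | exact sw s1 | exact sw s2 | exact sw s3
    | exact sw s4 | exact sw s5 | exact sw s6 | exact sw s7 | exact sw s8 | exact sw s9
    | exact sw s10 | exact sw s11 | exact sw s12

theorem tO_symm (i j : Fin 4) : tO a b d e f i j = tO a b d e f j i := by
  fin_cases i <;> fin_cases j <;> rfl

end rep

variable {P : Type} [AddCommGroup P] [Module ℚ P] (O : Ops P)

def rho0 : FreeLieAlgebra ℚ Pr →ₗ⁅ℚ⁆ End ℚ P :=
  FreeLieAlgebra.lift ℚ fun p => tO O.a O.b O.d O.e O.f p.1.1 p.1.2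

theorem rho0_tf {i j : Fin 4} (h : i ≠ j) : rho0 O (tf i j) = tO O.a O.b O.d O.e O.f i j := by
  unfold tf
  split_ifs with h1 h2
  · simp [rho0]
  · simp [rho0, tO_symm j i]
  · omega

theorem rho0_ker : relIdeal ≤ (rho0 O).ker := by
  refine LieSubmodule.lieSpan_le.2 ?_
  rintro r (⟨i, j, k, l, h1, h2, h3, h4, h5, h6, rfl⟩ | ⟨i, j, k, h1, h2, h3, rfl⟩)
  · rw [SetLike.mem_coe, LieHom.mem_ker, LieHom.map_lie, rho0_tf O h1, rho0_tf O h2,
      LieRing.of_associative_ring_bracket,
      tO_rel1 O.r1 O.r2 O.r3 O.r4 O.r5 O.r6 i j k l h1 h2 h3 h4 h5 h6, sub_self]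
  · rw [SetLike.mem_coe, LieHom.mem_ker, LieHom.map_lie, map_add, rho0_tf O h1, rho0_tf O h2,
      rho0_tf O h3, LieRing.of_associative_ring_bracket,
      (tO_rel2 O.r1 O.r2 O.r3 O.r4 O.r5 O.r6 i j k h1 h2 h3).eq, sub_self]

def rho : T4 →ₗ⁅ℚ⁆ End ℚ P where
  toLinearMap := relIdeal.toSubmodule.liftQ (rho0 O).toLinearMap fun v hv => rho0_ker O hv
  map_lie' := by
    rintro ⟨u⟩ ⟨v⟩
    exact (rho0 O).map_lie u v

theorem rho_t {i j : Fin 4} (h : i ≠ j) : rho O (t i j) = tO O.a O.b O.d O.e O.f i j :=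
  rho0_tf O h

/-- The pentagon in the module, with the central shifts performed. -/
theorem pentagon_ops {n : ℕ} (hn : 2 ≤ n) {ψ : FL} (hψ : ψ ∈ grt n) :
    ev O.a (O.e + O.d) ψ + ev (-(O.b + O.d + O.f)) O.f ψ =
      ev O.e O.f ψ + ev (-(O.b + O.d + O.f)) (O.d + O.f) ψ + ev O.a O.e ψ := by
  obtain ⟨h0, -, -, h3⟩ := hψ
  have h := congrArg (rho O) h3
  simp only [evT, map_add, ev_map] at h
  rw [rho_t O (by decide), rho_t O (by decide), rho_t O (by decide), rho_t O (by decide),
    rho_t O (by decide)] at h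
  have e1 : tO O.a O.b O.d O.e O.f 0 2 + tO O.a O.b O.d O.e O.f 1 2 =
      -(O.b + O.d + O.f) + -O.a := by simp [tO]; abel
  have e2 : tO O.a O.b O.d O.e O.f 0 1 + tO O.a O.b O.d O.e O.f 0 2 =
      -(O.b + O.d + O.f) + -O.e := by simp [tO]; abel
  rw [e1, e2, ev_shift _ _ hn h0, ev_shift _ _ hn h0] at h
  · exact h
  · rw [LieRing.of_associative_ring_bracket]
    linear_combination (norm := noncomm_ring) O.r5 - O.r2
  · change ⁅-O.e, O.d + O.f⁆ = 0
    rw [LieRing.of_associative_ring_bracket]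
    linear_combination (norm := noncomm_ring) - O.r5
  · rw [LieRing.of_associative_ring_bracket]
    linear_combination (norm := noncomm_ring) O.r3 + O.r1
  · change ⁅-O.a, O.f⁆ = 0
    rw [LieRing.of_associative_ring_bracket]
    linear_combination (norm := noncomm_ring) - O.r1

/-- An element of `grt n` is determined by its coefficients at the words without `y y`. -/
theorem grt_eq_zero {n : ℕ} (hn : 2 ≤ n) {ψ : FL} (hψ : ψ ∈ grt n)
    (hg : ∀ w ∈ Good n, co w (iota ψ) = 0) : ψ = 0 := by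
  obtain ⟨D, hx, hy, h0⟩ := exists_datM n
  have h10 : ∀ w, co (1 :: (w ++ [0])) (iota ψ) = 0 := by
    intro w
    let ℓ : MM →ₗ[ℚ] ℚ := Finsupp.lapply ([], 1 :: (w ++ [0]))
    have hℓ : ∀ v, ℓ (D.y v) = 0 := fun v => by rw [hy]; exact ell_YM n _ v
    let φ : End ℚ MM → End ℚ MM → AA →ₗ[ℚ] ℚ := fun s t =>
      ℓ ∘ₗ D.F ∘ₗ LinearMap.applyₗ OM.o ∘ₗ (evA s t).toLinearMap
    have hφ : ∀ s t v, φ s t (wd v) = ℓ (D.F (wp s t v OM.o)) := fun s t v => by simp [φ]
    have hne : ∀ v, co v (iota ψ) ≠ 0 → v ≠ [] := fun v hv h => hv (h ▸ co_nil_iota ψ)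
    have h := congrArg (fun T : End ℚ MM => ℓ (D.F (T OM.o))) (pentagon_ops OM hn hψ)
    simp only [LinearMap.add_apply, map_add, ev_eq] at h
    change φ _ _ _ + φ _ _ _ = φ _ _ _ + φ _ _ _ + φ _ _ _ at h
    rw [lin_zero (φ _ _) _ fun v hv => (hφ _ _ v).trans (D.edges ℓ hℓ v (hne v hv)).1,
      lin_zero (φ _ _) _ fun v hv => (hφ _ _ v).trans (D.edges ℓ hℓ v (hne v hv)).2.1,
      lin_zero (φ _ _) _ fun v hv => (hφ _ _ v).trans (D.edges ℓ hℓ v (hne v hv)).2.2,
      lin_zero (φ OM.a OM.e) _ fun v hv => (hφ _ _ v).trans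
        (noYY n v (length_of_co hψ.1 hv) (fun h => hv (hg v h)) OM OM_cyc D ℓ hℓ),
      lin_eq (φ OM.e OM.f) (co (1 :: (w ++ [0]))) _ fun v hv => ?_] at h
    · simpa using h.symm
    · rw [hφ, (D.edge234 OM_cyc v).1, hx, hy, h0, wp_XY n v (length_of_co hψ.1 hv).le, co_wd]
      by_cases hvw : v = 1 :: (w ++ [0])
      · subst hvw
        rw [← List.cons_append, List.getLast?_concat]
        simp [ℓ]
      · rw [if_neg hvw]
        split_ifs
        · simp
        · simp [ℓ, hvw]
  refine eq_zero_of_co hn hψ.1 fun i j w hij => ?_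
  fin_cases i <;> fin_cases j
  · exact absurd rfl hij
  · have h1 := co_swap ψ (1 :: (w.map Fin.rev ++ [0]))
    have h2 : ev genY genX ψ = -ψ := by
      have : ev genX genY ψ = -ev genY genX ψ := hψ.2.1
      rw [ev_id] at this
      exact neg_eq_iff_eq_neg.1 this.symm
    rw [h10, h2, map_neg, map_neg, neg_eq_zero] at h1
    simpa [List.map_map, Function.comp_def] using h1
  · exact h10 w
  · exact absurd rfl hij

theorem rank_grt_le {n : ℕ} (hn : 2 ≤ n) :
    Module.rank ℚ (grt n) ≤ (Nat.fib (n - 1) : Cardinal) := by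
  let c : grt n →ₗ[ℚ] (Good n → ℚ) := LinearMap.pi fun w =>
    co w.1 ∘ₗ iota.toLinearMap ∘ₗ (grt n).subtype
  have hc : Function.Injective c := by
    rw [injective_iff_map_eq_zero]
    intro ψ h
    exact Subtype.ext (grt_eq_zero hn ψ.2 fun w hw => congrFun h ⟨w, hw⟩)
  refine (LinearMap.rank_le_of_injective c hc).trans ?_
  rw [rank_fun', Fintype.card_coe, Nat.cast_le]
  obtain ⟨m, rfl⟩ : ∃ m, n = m + 1 := ⟨n - 1, by omega⟩
  exact card_Good m

end

end Pool.Agent.Lib.MP_446a91_nt
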