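import Pool.Agent.Lib.MP_446a91_nt.Sys

/-! The drop-one property of the edge `(t₁₂, t₂₃)` (MP_446a91_nt). -/

namespace Pool.Agent.Lib.MP_446a91_nt

open Module

/-- Evaluation of a word in two letters. -/
def wp {R : Type*} [Monoid R] (s t : R) (l : List (Fin 2)) : R := (l.map ![s, t]).prod

section wp
variable {R : Type*} [Monoid R] (s t : R)

@[simp] theorem wp_nil : wp s t [] = 1 := rfl
theorem wp_cons (i : Fin 2) (l : List (Fin 2)) : wp s t (i :: l) = ![s, t] i * wp s t l := by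
  simp [wp]
@[simp] theorem wp_zero (l : List (Fin 2)) : wp s t (0 :: l) = s * wp s t l := by simp [wp]
@[simp] theorem wp_one (l : List (Fin 2)) : wp s t (1 :: l) = t * wp s t l := by simp [wp]
theorem wp_append (l l' : List (Fin 2)) : wp s t (l ++ l') = wp s t l * wp s t l' := by simp [wp]
theorem wp_replicate (j : ℕ) : wp s t (List.replicate j 0) = s ^ j := by simp [wp]

theorem wp_smul {A : Type*} [Ring A] [Algebra ℚ A] (s t : A) (u : ℚ) (l : List (Fin 2)) :
    wp (u • s) (u • t) l = u ^ l.length • wp s t l := by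
  induction l with
  | nil => simp
  | cons i l ih =>
    fin_cases i <;> simp [ih, smul_smul, pow_succ, mul_comm]

end wp

/-- The words `x^{j₁} y ⋯ x^{j_r} y` with all `j_i ≥ 1`, by length. -/
def Good : ℕ → Finset (List (Fin 2))
  | 0 => {[]}
  | 1 => ∅
  | n + 2 => (Good n).image (fun w => 0 :: 1 :: w) ∪ (Good (n + 1)).image (fun w => 0 :: w)

theorem card_Good : ∀ n, (Good (n + 1)).card ≤ Nat.fib n
  | 0 => by simp [Good]
  | 1 => by simp [Good]
  | n + 2 => by
    have h1 := card_Good n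
    have h2 := card_Good (n + 1)
    rw [Good, Nat.fib_add_two]
    refine (Finset.card_union_le _ _).trans (add_le_add ?_ ?_)
    · exact Finset.card_image_le.trans h1
    · exact Finset.card_image_le.trans h2

theorem good_cons {w : List (Fin 2)} {n : ℕ} (h : w ∈ Good n) (j : ℕ) :
    List.replicate (j + 1) 0 ++ 1 :: w ∈ Good (n + j + 2) := by
  induction j with
  | zero => rw [Good]; exact Finset.mem_union_left _ (Finset.mem_image_of_mem _ h)
  | succ j ih =>
    rw [show n + (j + 1) + 2 = (n + j + 1) + 2 by ring, Good]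
    exact Finset.mem_union_right _ (Finset.mem_image_of_mem _ ih)

theorem list_split (W : List (Fin 2)) : (∃ j, W = List.replicate j 0) ∨
    ∃ j W', W = List.replicate j 0 ++ 1 :: W' := by
  induction W with
  | nil => exact Or.inl ⟨0, rfl⟩
  | cons i W ih =>
    fin_cases i
    · rcases ih with ⟨j, rfl⟩ | ⟨j, W', rfl⟩
      · exact Or.inl ⟨j + 1, rfl⟩
      · exact Or.inr ⟨j + 1, W', rfl⟩
    · exact Or.inr ⟨0, W, rfl⟩

theorem poly_zero {m : ℕ} {c : ℕ → ℚ}
    (h : ∀ u : ℚ, u ≠ 0 → ∑ i ∈ Finset.range m, u ^ i * c i = 0) (i : ℕ) (hi : i < m) :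
    c i = 0 := by
  have hp : (∑ i ∈ Finset.range m, Polynomial.monomial i (c i) : Polynomial ℚ) = 0 := by
    apply Polynomial.eq_zero_of_infinite_isRoot
    refine Set.Infinite.mono (s := {0}ᶜ) (fun u hu => ?_) (Set.finite_singleton _).infinite_compl
    simpa [Polynomial.IsRoot, Polynomial.eval_finsetSum, mul_comm] using h u hu
  have := congrArg (fun p => Polynomial.coeff p i) hp
  simpa [Polynomial.coeff_monomial, hi] using this

variable {P : Type*} [AddCommGroup P] [Module ℚ P] {Φ : Filt P}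

theorem noYY (n : ℕ) : ∀ W : List (Fin 2), W.length = n → W ∉ Good n → ∀ (O : Ops P), O.Cyc →
    ∀ (D : Dat O Φ) (ℓ : P →ₗ[ℚ] ℚ), (∀ v, ℓ (D.y v) = 0) →
    ℓ (D.F (wp O.a O.e W O.o)) = 0 := by
  induction n using Nat.strong_induction_on with
  | _ n ih =>
  intro W hW hG O hc D ℓ hℓ
  rcases list_split W with ⟨j, rfl⟩ | ⟨j, W', rfl⟩
  · cases j with
    | zero => subst hW; simp [Good] at hG
    | succ j =>
      have h := Vn_pow (j := 0) (Submodule.subset_span (by simp [Ops.SU]) : O.a ∈ Submodule.span ℚ O.SU) (j + 1)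
        (by rw [zero_add]; exact D.bF j)
      have h1 : (D.F * O.a ^ (j + 1)) O.o = 0 := by simpa using mem_Vn_zero.1 h
      rw [wp_replicate, ← End.mul_apply, h1, map_zero]
  · rw [wp_append, wp_replicate, wp_one, End.mul_apply, End.mul_apply]
    set z := wp O.a O.e W' O.o with hz
    cases j with
    | zero =>
      rw [pow_zero, End.one_apply, ← End.mul_apply D.F, (D.x15 hc).1]
      simp [hℓ]
    | succ j =>
      have hlen : n = W'.length + j + 2 := by rw [← hW]; simp; ring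
      have hG' : W' ∉ Good W'.length := fun h => hG (hlen ▸ good_cons h j)
      have ih' := ih W'.length (by omega) W' rfl hG'
      by_cases hj : j + 1 < Φ.m
      · refine poly_zero (c := fun i => ℓ (D.F ((O.a ^ i) (O.e z)))) (fun u hu => ?_) _ hj
        obtain ⟨D', Λ, μ, ρ, h1, h2⟩ := (D.scale u).twist (hc.scale hu)
        have h3 : ℓ (D.F z) = 0 := ih' O hc D ℓ hℓ
        have h4 := ih' (O.scale u) (hc.scale hu) D' (ℓ ∘ₗ Λ) (fun v => by
          rw [LinearMap.comp_apply, ← End.mul_apply, h1]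
          simp [Dat.scale, hℓ])
        have h5 : ℓ (Λ (D'.F z)) = 0 := by
          have e : wp (O.scale u).a (O.scale u).e W' (O.scale u).o = u ^ W'.length • z := by
            simp only [Ops.scale, wp_smul, LinearMap.smul_apply, hz]
          rw [e] at h4
          simpa [hu] using h4
        have h6 := congrArg (fun T : End ℚ P => ℓ (T z)) h2
        simp only [Dat.scale, Ops.scale, End.mul_apply, LinearMap.add_apply, LinearMap.sub_apply,
          LinearMap.smul_apply, map_add, map_sub, map_smul, hℓ, h5, h3, LinearMap.sum_apply,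
          map_sum, smul_pow, smul_eq_mul, mul_zero, sub_zero, add_zero] at h6
        exact (mul_eq_zero.1 h6).resolve_left hu
      · obtain ⟨i, hi⟩ : ∃ i, j + 1 = Φ.m + i := ⟨j + 1 - Φ.m, by omega⟩
        rw [hi, pow_add, End.mul_apply, ← End.mul_apply D.F, Tm_nil hc O.a_mem D.mem_T.1]
        simp

/-- The edge `(t₂₃, t₃₄)`. -/
theorem Dat.edge234 {O : Ops P} (D : Dat O Φ) (hc : O.Cyc) (W : List (Fin 2)) :
    D.F (wp O.e O.f W O.o) = wp (-D.y) D.x W (D.G O.o) ∧
      D.G (wp O.e O.f W O.o) = wp (-D.y) D.x W (D.G O.o) := by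
  induction W with
  | nil => simp [D.h0]
  | cons i W ih =>
    obtain ⟨h1, h2⟩ := D.x15 hc
    fin_cases i
    · simp only [Fin.zero_eta, wp_zero, End.mul_apply]
      rw [← End.mul_apply D.F, ← End.mul_apply D.G O.e, h1, D.Ge]
      simp [ih.1]
    · simp only [Fin.mk_one, wp_one, End.mul_apply]
      rw [← End.mul_apply D.F, ← End.mul_apply D.G O.f, h2, D.Ff]
      simp [ih.2]

theorem Vn_wp {S : Set (End ℚ P)} {o : P} {s t : End ℚ P} (hs : s ∈ Submodule.span ℚ S)
    (ht : t ∈ Submodule.span ℚ S) (W : List (Fin 2)) {H : End ℚ P}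
    (h : H ∈ Vn S o ⊥ W.length) : H (wp s t W o) = 0 := by
  induction W generalizing H with
  | nil => simpa using mem_Vn_zero.1 h
  | cons i W ih =>
    rw [wp_cons, End.mul_apply, ← End.mul_apply H]
    refine ih (Vn_span h ?_)
    fin_cases i
    exacts [hs, ht]

/-- The three vanishing edges. -/
theorem Dat.edges {O : Ops P} (D : Dat O Φ) (ℓ : P →ₗ[ℚ] ℚ) (hℓ : ∀ v, ℓ (D.y v) = 0)
    (W : List (Fin 2)) (hW : W ≠ []) :
    ℓ (D.F (wp O.a (O.e + O.d) W O.o)) = 0 ∧
    ℓ (D.F (wp (-(O.b + O.d + O.f)) O.f W O.o)) = 0 ∧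
    ℓ (D.F (wp (-(O.b + O.d + O.f)) (O.d + O.f) W O.o)) = 0 := by
  obtain ⟨i, W, rfl⟩ := List.exists_cons_of_ne_nil hW
  have e1 : D.F * -(O.b + O.d + O.f) = -(D.y * D.F) := by
    linear_combination (norm := noncomm_ring) - D.Fb - D.Fd - D.Ff
  have e2 : D.F * (O.d + O.f) = D.y * D.F := by
    linear_combination (norm := noncomm_ring) D.Fd + D.Ff
  refine ⟨?_, ?_, ?_⟩
  · rw [Vn_wp (Submodule.subset_span (by simp [Ops.SU])) (Submodule.subset_span (by simp [Ops.SU]))
      _ (D.bF W.length), map_zero]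
  · fin_cases i
    · simp only [Fin.zero_eta, wp_zero, End.mul_apply]
      rw [← End.mul_apply D.F, e1]; simp [hℓ]
    · simp only [Fin.mk_one, wp_one, End.mul_apply]
      rw [← End.mul_apply D.F, D.Ff, Vn_wp _ _ _ (D.xG_SX W.length), map_zero]
      · exact neg_mem (add_mem (Submodule.subset_span (by simp [Ops.SX]))
          (Submodule.subset_span (by simp [Ops.SX])))
      · exact Submodule.subset_span (by simp [Ops.SX])
  · fin_cases i
    · simp only [Fin.zero_eta, wp_zero, End.mul_apply]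
      rw [← End.mul_apply D.F, e1]; simp [hℓ]
    · simp only [Fin.mk_one, wp_one, End.mul_apply]
      rw [← End.mul_apply D.F, e2]; simp [hℓ]

/-- Primitives along the fibre `(a, e, d)`, normalised on the base. -/
structure Split (O : Ops P) where
  pa : End ℚ P
  pe : End ℚ P
  pd : End ℚ P
  eps : P →ₗ[ℚ] ℚ
  aa : pa * O.a = 1
  ae : pa * O.e = 0
  ad : pa * O.d = 0
  ea : pe * O.a = 0
  ee : pe * O.e = 1
  ed : pe * O.d = 0
  da : pd * O.a = 0
  de : pd * O.e = 0
  dd : pd * O.d = 1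
  ba : ∀ j, pa ∈ Vn O.SX O.o ⊥ j
  be : ∀ j, pe ∈ Vn O.SX O.o ⊥ j
  bd : ∀ j, pd ∈ Vn O.SX O.o ⊥ j
  eps0 : ∀ t ∈ O.S5, ∀ v, eps (t v) = 0
  eps1 : eps O.o = 1

theorem exists_dat {O : Ops P} (S : Split O) (S' : Split O.tau) {x y : End ℚ P}
    (hx : x ∈ Φ.Up 1) (hy : y ∈ Φ.Up 1) (n0 : P) (hn : x n0 = 0) :
    ∃ D : Dat O Φ, D.x = x ∧ D.y = y ∧ D.G O.o = n0 := by
  let RS : ℕ → Submodule ℚ (End ℚ P) := fun k =>
    { carrier := {H | ∀ v, H v ∈ Φ.N k}
      zero_mem' := fun _ => by simp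
      add_mem' := fun h1 h2 v => add_mem (h1 v) (h2 v)
      smul_mem' := fun c _ h v => Submodule.smul_mem _ c (h v) }
  have hl : ∀ {k} {T H : End ℚ P}, T ∈ Φ.Up 1 → H ∈ RS k → T * H ∈ RS (k + 1) :=
    fun hT hH v => hT _ _ (hH v)
  have hr : ∀ {k} {H : End ℚ P} (p : End ℚ P), H ∈ RS k → H * p ∈ RS k :=
    fun p hH v => hH _
  let A : End ℚ P × End ℚ P →ₗ[ℚ] End ℚ P := LinearMap.mulLeft ℚ y ∘ₗ LinearMap.fst ℚ _ _
  let B : End ℚ P × End ℚ P →ₗ[ℚ] End ℚ P := LinearMap.mulLeft ℚ x ∘ₗ LinearMap.snd ℚ _ _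
  let E : End ℚ P := S.eps.smulRight n0
  have Et : ∀ t ∈ O.S5, E * t = 0 := fun t ht => by ext v; simp [E, S.eps0 t ht]
  have EV : ∀ {T : Set (End ℚ P)}, T ⊆ Submodule.span ℚ O.S5 → ∀ j, E ∈ Vn T O.o ⊥ (j + 1) :=
    fun hT j => Vn_mono hT le_rfl (mem_Vn_succ.2 fun t ht => by rw [Et t ht]; exact zero_mem _)
  obtain ⟨⟨F, G⟩, -, hFG⟩ := fix_exists (Fl := fun k => (RS k).prod (RS k))
    (fun j k hjk p hp => ⟨fun v => Φ.anti hjk (hp.1 v), fun v => Φ.anti hjk (hp.2 v)⟩)
    (m := Φ.m) (by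
      refine eq_bot_iff.2 fun p hp => ?_
      have h1 : p.1 = 0 := LinearMap.ext fun v => by simpa [Φ.bot] using hp.1 v
      have h2 : p.2 = 0 := LinearMap.ext fun v => by simpa [Φ.bot] using hp.2 v
      exact Prod.ext h1 h2)
    (LinearMap.prod
      (LinearMap.mulRight ℚ S'.pd ∘ₗ (A - B) + LinearMap.mulRight ℚ S'.pa ∘ₗ B)
      (LinearMap.mulRight ℚ S.pa ∘ₗ B - LinearMap.mulRight ℚ S.pe ∘ₗ A +
        LinearMap.mulRight ℚ S.pd ∘ₗ (A - B)))
    (fun k p hp => ⟨add_mem (hr _ (sub_mem (hl hy hp.1) (hl hx hp.2))) (hr _ (hl hx hp.2)),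
      add_mem (sub_mem (hr _ (hl hx hp.2)) (hr _ (hl hy hp.1)))
        (hr _ (sub_mem (hl hy hp.1) (hl hx hp.2)))⟩)
    (e0 := (E, E)) ⟨fun v => by simp [Φ.top], fun v => by simp [Φ.top]⟩
  have hF : F = E + ((y * F - x * G) * S'.pd + x * G * S'.pa) := congrArg Prod.fst hFG
  have hG : G = E + (x * G * S.pa - y * F * S.pe + (y * F - x * G) * S.pd) :=
    congrArg Prod.snd hFG
  have Ea := Et O.a (by simp [Ops.S5])
  have Eb := Et O.b (by simp [Ops.S5])
  have Ed := Et O.d (by simp [Ops.S5])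
  have Ee := Et O.e (by simp [Ops.S5])
  have Ef := Et O.f (by simp [Ops.S5])
  have a1 : S'.pa * O.f = 1 := S'.aa
  have a2 : S'.pa * O.b = 0 := S'.ae
  have a3 : S'.pa * O.d = 0 := S'.ad
  have d1 : S'.pd * O.f = 0 := S'.da
  have d2 : S'.pd * O.b = 0 := S'.de
  have d3 : S'.pd * O.d = 1 := S'.dd
  have hF' : ∀ j, F - E ∈ Vn O.SU O.o ⊥ j := fun j => by
    rw [sub_eq_of_eq_add' hF]
    exact add_mem (Vn_left0 _ (S'.bd j)) (Vn_left0 _ (S'.ba j))
  have hG' : ∀ j, G - E ∈ Vn O.SX O.o ⊥ j := fun j => by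
    rw [sub_eq_of_eq_add' hG]
    exact add_mem (sub_mem (Vn_left0 _ (S.ba j)) (Vn_left0 _ (S.be j))) (Vn_left0 _ (S.bd j))
  have F0 : F O.o = n0 := by
    have := mem_Vn_zero.1 (hF' 0)
    simpa [E, S.eps1, sub_eq_zero] using this
  have G0 : G O.o = n0 := by
    have := mem_Vn_zero.1 (hG' 0)
    simpa [E, S.eps1, sub_eq_zero] using this
  refine ⟨⟨x, y, F, G, hx, hy, ?_, ?_, ?_, ?_, ?_, ?_, fun j => ?_, fun j => ?_,
    F0.trans G0.symm, by rw [G0, hn]⟩, rfl, rfl, G0⟩
  · linear_combination (norm := noncomm_ring) hF * O.b + Eb + (y * F - x * G) * d2 + x * G * a2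
  · linear_combination (norm := noncomm_ring) hF * O.d + Ed + (y * F - x * G) * d3 + x * G * a3
  · linear_combination (norm := noncomm_ring) hF * O.f + Ef + (y * F - x * G) * d1 + x * G * a1
  · linear_combination (norm := noncomm_ring)
      hG * O.a + Ea + x * G * S.aa - y * F * S.ea + (y * F - x * G) * S.da
  · linear_combination (norm := noncomm_ring)
      hG * O.e + Ee + x * G * S.ae - y * F * S.ee + (y * F - x * G) * S.de
  · linear_combination (norm := noncomm_ring)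
      hG * O.d + Ed + x * G * S.ad - y * F * S.ed + (y * F - x * G) * S.dd
  · rw [← sub_add_cancel F E]
    refine add_mem (hF' _) (EV ?_ j)
    intro t ht
    simp only [Ops.SU, Set.mem_insert_iff, Set.mem_singleton_iff] at ht
    rcases ht with rfl | rfl
    exacts [add_mem O.e_mem O.d_mem, O.a_mem]
  · rw [← sub_add_cancel G E]
    refine add_mem (hG' _) (EV ?_ j)
    intro t ht
    simp only [Ops.SX, Set.mem_insert_iff, Set.mem_singleton_iff] at ht
    rcases ht with rfl | rfl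
    exacts [add_mem O.b_mem O.d_mem, O.f_mem]

end Pool.Agent.Lib.MP_446a91_nt
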