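import Pool.Agent.Lib.MP_446a91_nt.Basic

/-! The first-order system, uniqueness and the twisting step (MP_446a91_nt). -/

namespace Pool.Agent.Lib.MP_446a91_nt

open Module

variable {P : Type*} [AddCommGroup P] [Module ℚ P]

/-- A solution of the system with its boundary conditions. -/
structure Dat (O : Ops P) (Φ : Filt P) where
  x : End ℚ P
  y : End ℚ P
  F : End ℚ P
  G : End ℚ P
  hx : x ∈ Φ.Up 1
  hy : y ∈ Φ.Up 1
  Fb : F * O.b = 0
  Fd : F * O.d = y * F - x * G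
  Ff : F * O.f = x * G
  Ga : G * O.a = x * G
  Ge : G * O.e = -(y * F)
  Gd : G * O.d = y * F - x * G
  bF : ∀ j, F ∈ Vn O.SU O.o ⊥ (j + 1)
  bG : ∀ j, G ∈ Vn O.SX O.o ⊥ (j + 1)
  h0 : F O.o = G O.o
  hx0 : x (G O.o) = 0

variable {O : Ops P} {Φ : Filt P}

theorem sys_ind {x y F G : End ℚ P} (Nf : ℕ → Submodule ℚ P)
    (hx : ∀ j, ∀ v ∈ Nf j, x v ∈ Nf (j + 1)) (hy : ∀ j, ∀ v ∈ Nf j, y v ∈ Nf (j + 1))
    (Fb : F * O.b = 0) (Fd : F * O.d = y * F - x * G) (Ff : F * O.f = x * G)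
    (Ga : G * O.a = x * G) (Ge : G * O.e = -(y * F)) (Gd : G * O.d = y * F - x * G)
    (bF : ∀ j, F ∈ Vn O.SU O.o ⊥ (j + 1)) (bG : ∀ j, G ∈ Vn O.SX O.o ⊥ (j + 1))
    (F0 : F O.o ∈ Nf 0) (G0 : G O.o ∈ Nf 0) (j : ℕ) :
    F ∈ Vn O.S5 O.o (Nf j) j ∧ G ∈ Vn O.S5 O.o (Nf j) j := by
  induction j with
  | zero => exact ⟨mem_Vn_zero.2 F0, mem_Vn_zero.2 G0⟩
  | succ j ih =>
    have h1 := Vn_left (hy j) ih.1
    have h2 := Vn_left (hx j) ih.2
    constructor
    · refine O.lemU j F (Ff ▸ h2) (Fb ▸ zero_mem _) (Fd ▸ sub_mem h1 h2) ?_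
      exact Vn_mono Submodule.subset_span bot_le (bF j)
    · refine O.lemX j G (Ga ▸ h2) (Ge ▸ neg_mem h1) (Gd ▸ sub_mem h1 h2) ?_
      exact Vn_mono Submodule.subset_span bot_le (bG j)

/-- Maps vanishing on all words of length at least `m`. -/
def Tm (O : Ops P) (m : ℕ) : Submodule ℚ (End ℚ P) := ⨅ j, Vn O.S5 O.o ⊥ (j + m)

theorem mem_Tm {H : End ℚ P} {m : ℕ} : H ∈ Tm O m ↔ ∀ j, H ∈ Vn O.S5 O.o ⊥ (j + m) := by
  simp [Tm, Submodule.mem_iInf]

theorem Tm_left {H : End ℚ P} {m : ℕ} (p : End ℚ P) (h : H ∈ Tm O m) : p * H ∈ Tm O m :=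
  mem_Tm.2 fun j => Vn_left0 p (mem_Tm.1 h j)

theorem Tm_right {H t : End ℚ P} {m : ℕ} (ht : t ∈ Submodule.span ℚ O.S5) (h : H ∈ Tm O m) :
    H * t ∈ Tm O m :=
  mem_Tm.2 fun j => Vn_span (by simpa [add_right_comm] using mem_Tm.1 h (j + 1)) ht

theorem Tm_pow {H t : End ℚ P} {m : ℕ} (ht : t ∈ Submodule.span ℚ O.S5) (h : H ∈ Tm O m)
    (i : ℕ) : H * t ^ i ∈ Tm O m := by
  induction i with
  | zero => simpa using h
  | succ i ih => rw [pow_succ, ← mul_assoc]; exact Tm_right ht ih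

theorem Tm_nil (hc : O.Cyc) {H t : End ℚ P} {m : ℕ} (ht : t ∈ Submodule.span ℚ O.S5)
    (h : H ∈ Tm O m) : H * t ^ m = 0 :=
  hc _ fun j => Vn_pow ht m (mem_Tm.1 h j)

theorem Tm_canc (hc : O.Cyc) {H t p : End ℚ P} {m : ℕ} (ht : t ∈ Submodule.span ℚ O.S5)
    (h : H ∈ Tm O m) (e : H = p * H * t) : H = 0 := by
  have := desc_ind (W := ⊥) (K := 0) (p := p) (fun p H hH => by
    rw [Submodule.mem_bot] at hH ⊢; rw [hH, mul_zero]) (Tm_nil hc ht h) (by rw [zero_add]; exact e)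
    (fun i => by simp)
  simpa using this

namespace Dat
variable (D : Dat O Φ)

theorem mem_T : D.F ∈ Tm O Φ.m ∧ D.G ∈ Tm O Φ.m := by
  have h := sys_ind Φ.N D.hx D.hy D.Fb D.Fd D.Ff D.Ga D.Ge D.Gd D.bF D.bG
    (by simp [Φ.top]) (by simp [Φ.top])
  have hb : ∀ j, Φ.N (j + Φ.m) ≤ ⊥ := fun j => Φ.bot ▸ Φ.anti (Nat.le_add_left _ _)
  exact ⟨mem_Tm.2 fun j => Vn_mono Submodule.subset_span (hb j) (h _).1,
    mem_Tm.2 fun j => Vn_mono Submodule.subset_span (hb j) (h _).2⟩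

theorem xG_SU (j : ℕ) : D.x * D.G ∈ Vn O.SU O.o ⊥ j := by
  induction j with
  | zero => exact mem_Vn_zero.2 (by simp [D.hx0])
  | succ j ih =>
    refine O.mem_VU.2 ⟨?_, ?_⟩
    · have : D.x * D.G * (O.e + O.d) = -D.x * (D.x * D.G) := by
        linear_combination (norm := noncomm_ring) D.x * D.Ge + D.x * D.Gd
      rw [this]; exact Vn_left0 _ ih
    · rw [mul_assoc, D.Ga]; exact Vn_left0 _ ih

theorem xG_SX (j : ℕ) : D.x * D.G ∈ Vn O.SX O.o ⊥ j := by
  cases j with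
  | zero => exact mem_Vn_zero.2 (by simp [D.hx0])
  | succ j => exact Vn_left0 _ (D.bG j)

/-- Invariance under `t₂₃ + t₂₄ + t₃₄`. -/
theorem x15 (hc : O.Cyc) : D.F * O.e = -(D.y * D.F) ∧ D.G * O.f = D.x * D.G := by
  have hd : O.d * (O.e + O.f) = (O.e + O.f) * O.d := by
    linear_combination (norm := noncomm_ring) - O.r5 - O.r6
  have hF : ∀ j, D.F * O.e + D.y * D.F ∈ Vn O.SU O.o ⊥ j := fun j => by
    have : D.F * O.e + D.y * D.F = D.F * (O.e + O.d) + D.x * D.G := by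
      linear_combination (norm := noncomm_ring) - D.Fd
    rw [this]
    exact add_mem (O.mem_VU.1 (D.bF j)).1 (D.xG_SU j)
  have hG : ∀ j, D.G * O.f - D.x * D.G ∈ Vn O.SX O.o ⊥ j := fun j =>
    sub_mem (O.mem_VX.1 (D.bG j)).2 (D.xG_SX j)
  have h := sys_ind (O := O) (x := D.x) (y := D.y) (F := D.F * O.e + D.y * D.F)
    (G := D.G * O.f - D.x * D.G) (fun _ => ⊥) (fun _ v hv => by simp_all)
    (fun _ v hv => by simp_all)
    (by linear_combination (norm := noncomm_ring) - D.F * O.r2 + D.Fb * O.e + D.y * D.Fb)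
    (by linear_combination (norm := noncomm_ring) - D.F * hd + D.Fd * (O.e + O.f) - D.Ff * O.d
          + D.y * D.Fd - D.x * D.Gd - D.x * D.Ge + D.y * D.Ff)
    (by linear_combination (norm := noncomm_ring) - D.F * O.r6 + D.Ff * (O.d + O.e) - D.Fd * O.f
          + D.x * D.Gd + D.x * D.Ge)
    (by linear_combination (norm := noncomm_ring) - D.G * O.r1 + D.Ga * O.f - D.x * D.Ga)
    (by linear_combination (norm := noncomm_ring) - D.G * O.r5 + D.Ge * (O.d + O.f) - D.Gd * O.e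
          - D.y * D.Fd - D.y * D.Ff)
    (by linear_combination (norm := noncomm_ring) - D.G * hd + D.Gd * (O.e + O.f) - D.Ge * O.d
          + D.y * D.Fd - D.x * D.Gd - D.x * D.Ge + D.y * D.Ff)
    (fun j => hF _) (fun j => hG _) (mem_Vn_zero.1 (hF 0)) (mem_Vn_zero.1 (hG 0))
  exact ⟨eq_neg_of_add_eq_zero_left (hc _ fun j => (h j).1),
    sub_eq_zero.1 (hc _ fun j => (h j).2)⟩

/-- Rescaling a solution. -/
def scale (u : ℚ) : Dat (O.scale u) Φ where
  x := u • D.x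
  y := u • D.y
  F := D.F
  G := D.G
  hx := Submodule.smul_mem _ _ D.hx
  hy := Submodule.smul_mem _ _ D.hy
  Fb := by simp only [Ops.scale, mul_smul_comm, D.Fb, smul_zero]
  Fd := by simp only [Ops.scale, mul_smul_comm, smul_mul_assoc, D.Fd, smul_sub]
  Ff := by simp only [Ops.scale, mul_smul_comm, smul_mul_assoc, D.Ff]
  Ga := by simp only [Ops.scale, mul_smul_comm, smul_mul_assoc, D.Ga]
  Ge := by simp only [Ops.scale, mul_smul_comm, smul_mul_assoc, D.Ge, smul_neg]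
  Gd := by simp only [Ops.scale, mul_smul_comm, smul_mul_assoc, D.Gd, smul_sub]
  bF := fun j => Vn_mono (O.scale_SU u) le_rfl (D.bF j)
  bG := fun j => Vn_mono (O.scale_SX u) le_rfl (D.bG j)
  h0 := D.h0
  hx0 := by
    have : (O.scale u).o = O.o := rfl
    simp [this, D.hx0]

/-- The twisting step. -/
theorem twist (hc : O.Cyc) : ∃ (D' : Dat O Φ) (Λ μ ρ : End ℚ P), Λ * D'.y = D.y * μ ∧
    D.F * (∑ j ∈ Finset.range Φ.m, O.a ^ j) * O.e = D.F - Λ * D'.F + D.y * ρ := by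
  obtain ⟨TF, TG⟩ := D.mem_T
  set c := O.a + O.b + O.d with hcdef
  have cm : c ∈ Submodule.span ℚ O.S5 := add_mem (add_mem O.a_mem O.b_mem) O.d_mem
  set r := ∑ j ∈ Finset.range Φ.m, c ^ j with hr
  have hrc : ∀ t, c * t = t * c → r * t = t * r := fun t ht =>
    (Commute.sum_left _ _ _ fun j _ => Commute.pow_left ht j : Commute r t)
  have ra := hrc O.a (by rw [hcdef]; linear_combination (norm := noncomm_ring) - O.r3)
  have rb := hrc O.b (by rw [hcdef]; linear_combination (norm := noncomm_ring) - O.r4)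
  have rd := hrc O.d (by rw [hcdef]; linear_combination (norm := noncomm_ring) O.r3 + O.r4)
  have hres : ∀ H ∈ Tm O Φ.m, H * r ∈ Tm O Φ.m ∧ H * r = H + H * r * c := fun H hH => by
    refine ⟨?_, ?_⟩
    · rw [hr, Finset.mul_sum]
      exact Submodule.sum_mem _ fun j _ => Tm_pow cm hH j
    · have h1 := geom_sum_mul_neg c Φ.m
      have h2 := Tm_nil hc cm hH
      linear_combination (norm := noncomm_ring) H * h1 - h2
  obtain ⟨TU, hU⟩ := hres _ TF
  obtain ⟨TV, hV⟩ := hres _ TG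
  set U := D.F * r with hUdef
  set V := D.G * r with hVdef
  have Ub : U * O.b = 0 := by
    rw [hUdef]; linear_combination (norm := noncomm_ring) D.F * rb + D.Fb * r
  have Ud : U * O.d = D.y * U - D.x * V := by
    rw [hUdef, hVdef]; linear_combination (norm := noncomm_ring) D.F * rd + D.Fd * r
  have Va : V * O.a = D.x * V := by
    rw [hVdef]; linear_combination (norm := noncomm_ring) D.G * ra + D.Ga * r
  have Vd : V * O.d = D.y * U - D.x * V := by
    rw [hUdef, hVdef]; linear_combination (norm := noncomm_ring) D.G * rd + D.Gd * r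
  clear_value U V
  clear ra rb rd hres hrc hUdef hVdef hr r
  clear_value c
  subst hcdef
  obtain ⟨k, hk0, hk⟩ := Up_kappa D.hx D.hy
  obtain ⟨n, hn0, hn1, hn2⟩ := Up_inv (neg_mem (Up_mul D.hy hk0))
  rw [sub_neg_eq_add] at hn1 hn2
  obtain ⟨η, -, hη', hη⟩ := Up_inv D.hx
  obtain ⟨ζ, -, hζ, -⟩ := Up_inv D.hy
  have kxy : D.y ∈ Φ.Up 1 → -(k * D.x * D.y) ∈ Φ.Up 1 := fun h =>
    neg_mem (Up_mul (Up_mul hk0 (Up_anti (Nat.zero_le 1) D.hx)) h)
  obtain ⟨ω, -, hω, -⟩ := Up_inv (kxy D.hy)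
  rw [sub_neg_eq_add] at hω
  have Ve := tw_Ve O.r2 D.Fb D.Ge hV Ub Va Vd (fun h =>
    Tm_canc (p := 1) hc O.b_mem (Tm_right O.e_mem (Tm_right O.b_mem TV)) (by rw [one_mul]; exact h))
  have TZ : U + k * D.x * V ∈ Tm O Φ.m := add_mem TU (Tm_left _ TV)
  have Uf := tw_Uf O.r1 D.Ff D.Ga hU Ub Ud Va hk (fun h =>
    Tm_canc (p := ζ) hc O.a_mem (sub_mem (Tm_right O.f_mem TZ) (Tm_left _ TG)) (by
      linear_combination (norm := noncomm_ring)
        ζ * h - hζ * ((U + k * D.x * V) * O.f - k * D.x * D.G)))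
  set Fs := D.F - U * O.e with hFs
  set Gs := D.G - V * O.f with hGs
  have Ue : U * O.e = D.F - Fs := by rw [hFs]; abel
  have Vf : V * O.f = D.G - Gs := by rw [hGs]; abel
  obtain ⟨s1, s2, s3, s4, s5, s6, hk1, hk3⟩ := tw_sys O.r1 O.r2 O.r5 O.r6 D.Fb D.Fd D.Ff D.Ga
    D.Ge D.Gd Ub Ud Va Vd Ue Vf Ve Uf hk hn1 hn2 hη (Up_canc (kxy D.hy)) (Up_canc D.hy)
  -- boundary values
  have hVX : ∀ j, V ∈ Vn O.SX O.o ⊥ (j + 1) := fun j =>
    desc_ind (t := O.b + O.d) (K := η * D.G) (p := η) (fun p H hH => Vn_left0 p hH)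
      (Tm_nil hc (add_mem O.b_mem O.d_mem) TV)
      (by linear_combination (norm := noncomm_ring) η * hV + η * Va - hη' * V)
      (fun i => by
        rw [mul_assoc]
        exact Vn_left0 _ (Vn_pow (Submodule.subset_span (by simp [Ops.SX])) i
          (by rw [add_right_comm]; exact D.bG _)))
  have hZ := tw_Z hU Ub Ud Va hk
  set Z := U + k * D.x * V with hZdef
  have hZU : ∀ j, Z ∈ Vn O.SU O.o ⊥ (j + 1) := fun j =>
    desc_ind (t := O.a) (K := ζ * D.F) (p := ζ) (fun p H hH => Vn_left0 p hH)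
      (Tm_nil hc O.a_mem TZ)
      (by linear_combination (norm := noncomm_ring) ζ * hZ - hζ * Z)
      (fun i => by
        rw [mul_assoc]
        exact Vn_left0 _ (Vn_pow (Submodule.subset_span (by simp [Ops.SU])) i
          (by rw [add_right_comm]; exact D.bF _)))
  have hB3 := tw_B3 hU Ub Ud Va Vd Ue Ve hk
  have hB4 := tw_B4 (k := k) Vd Ve
  rw [← hZdef] at hB3 hB4
  have hFZ : ∀ j, D.x * V ∈ Vn O.SU O.o ⊥ j → Fs - Z ∈ Vn O.SU O.o ⊥ j := fun j h => by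
    have e : Fs - Z = ω * (-(Z * O.a) - Z * (O.e + O.d) - (k * D.x * D.y * k + k) * (D.x * V)) := by
      linear_combination (norm := noncomm_ring) ω * hB3 - hω * (Fs - Z)
    rw [e]
    exact Vn_left0 _ (sub_mem (sub_mem (neg_mem (O.mem_VU.1 (hZU j)).2) (O.mem_VU.1 (hZU j)).1)
      (Vn_left0 _ h))
  have V0 : V O.o = D.G O.o := by
    have h1 : (V * (O.b + O.d)) O.o = 0 := by simpa using mem_Vn_zero.1 (O.mem_VX.1 (hVX 0)).1
    have e : V = D.G + η * (D.x * D.G) + η * (V * (O.b + O.d)) := by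
      linear_combination (norm := noncomm_ring) η * hV + η * Va - hη' * V + hη' * D.G
    have := congrArg (fun T : End ℚ P => T O.o) e
    simp only [LinearMap.add_apply, End.mul_apply η, h1, map_zero, add_zero] at this
    simpa [D.hx0] using this
  have hφ : ∀ j, D.x * V ∈ Vn O.SU O.o ⊥ j := by
    intro j
    induction j with
    | zero => exact mem_Vn_zero.2 (by simp [V0, D.hx0])
    | succ j ih =>
      refine O.mem_VU.2 ⟨?_, ?_⟩
      · rw [hB4]
        exact sub_mem (neg_mem (Vn_left0 _ (hFZ j ih))) (Vn_left0 _ ih)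
      · rw [mul_assoc, Va]; exact Vn_left0 _ ih
  have G0 : Gs O.o = D.G O.o := by
    have h1 : (V * O.f) O.o = 0 := by simpa using mem_Vn_zero.1 (O.mem_VX.1 (hVX 0)).2
    rw [hGs, LinearMap.sub_apply, h1, sub_zero]
  have F0 : ((1 - D.x) * n * Fs) O.o = D.G O.o := by
    have h1 : (Fs - Z) O.o = 0 := by simpa using mem_Vn_zero.1 (hFZ 0 (hφ 0))
    have h2 : (Z * O.a) O.o = 0 := by simpa using mem_Vn_zero.1 (O.mem_VU.1 (hZU 0)).2
    have h3 : (D.F - D.G) O.o = 0 := by simp [D.h0]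
    have h4 : (D.x * D.G) O.o = 0 := by simp [D.hx0]
    have e : (1 - D.x) * n * Fs = D.G + (1 - D.x) * n * ((Fs - Z) +
        ζ * ((D.F - D.G) + Z * O.a - k * (D.x * D.G))) := by
      linear_combination (norm := noncomm_ring) (1 - D.x) * n * ζ * hZ - (1 - D.x) * n * hζ * Z
        + hk3 * D.G + (1 - D.x) * n * hζ * k * D.G - (1 - D.x) * n * ζ * hk * D.G
    rw [e]
    simp only [LinearMap.add_apply, LinearMap.sub_apply (D.F - D.G + Z * O.a),
      End.mul_apply ((1 - D.x) * n), End.mul_apply ζ, End.mul_apply k, h1, h2, h3, h4, map_zero,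
      add_zero, sub_zero]
  refine ⟨⟨D.x, n * (1 - D.x) * D.y * k, (1 - D.x) * n * Fs, Gs, D.hx, ?_, s1, s2, s3, s4, s5, s6,
    fun j => ?_, fun j => ?_, F0.trans G0.symm, by rw [G0, D.hx0]⟩,
    (1 + (η - 1) * D.y) * k, k * (1 + (η - 1) * (n * (1 - D.x) * D.y * k)),
    -(U * (∑ j ∈ Finset.range Φ.m, O.a ^ j) * O.e), tw_L hk hn2 hη hη', ?_⟩
  · exact Up_mul (Up_mul (Up_mul hn0 (sub_mem Up_one (Up_anti (Nat.zero_le 1) D.hx))) D.hy) hk0
  · have : Fs = Fs - Z + Z := by abel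
    rw [this]
    exact Vn_left0 _ (add_mem (hFZ _ (hφ _)) (hZU j))
  · rw [hGs]
    exact sub_mem (D.bG j) (O.mem_VX.1 (hVX (j + 1))).2
  · have hR := tw_R hU Ub Ud Va hη'
    have h1 := mul_neg_geom_sum O.a Φ.m
    have h2 := Tm_nil hc O.a_mem (add_mem TU (Tm_left (η - 1) TV))
    set ra := ∑ j ∈ Finset.range Φ.m, O.a ^ j
    change D.F * ra * O.e = D.F - (1 + (η - 1) * D.y) * k * ((1 - D.x) * n * Fs) +
      D.y * -(U * ra * O.e)
    linear_combination (norm := noncomm_ring) - hR * ra * O.e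
      + (U + (η - 1) * V) * h1 * O.e - h2 * O.e + Ue + (η - 1) * Ve
      + (1 + (η - 1) * D.y) * hk1 * Fs

end Dat

end Pool.Agent.Lib.MP_446a91_nt
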