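import Mathlib

/-! Pure ring identities behind the twisting step (MP_446a91_nt). -/

namespace Pool.Agent.Lib.MP_446a91_nt

section
variable {R : Type*} [Ring R] {a b d e f x y F G U V k n η Fs Gs : R}

theorem tw_Ve (r2 : b * e = e * b) (Fb : F * b = 0) (Ge : G * e = -(y * F))
    (hV : V = G + V * (a + b + d)) (Ub : U * b = 0) (Va : V * a = x * V)
    (Vd : V * d = y * U - x * V) (c1 : V * b * e = V * b * e * b → V * b * e = 0) :
    V * e = -(y * (F - U * e)) := by
  have h1 : V * b = G * b + V * b * b := by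
    linear_combination (norm := noncomm_ring) hV * b + Va * b + Vd * b + y * Ub
  have h2 : V * b * e = 0 := c1 (by
    linear_combination (norm := noncomm_ring) h1 * e + G * r2 + V * b * r2 + Ge * b - y * Fb)
  linear_combination (norm := noncomm_ring) hV * e + Ge + Va * e + Vd * e + h2

theorem tw_Z (hU : U = F + U * (a + b + d)) (Ub : U * b = 0) (Ud : U * d = y * U - x * V)
    (Va : V * a = x * V) (hk : k = 1 + k * x + y * k) :
    U + k * x * V = F + (U + k * x * V) * a + y * (U + k * x * V) := by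
  linear_combination (norm := noncomm_ring) hU + Ub + Ud - k * x * Va + hk * x * V

theorem tw_Uf (r1 : a * f = f * a) (Ff : F * f = x * G) (Ga : G * a = x * G)
    (hU : U = F + U * (a + b + d)) (Ub : U * b = 0) (Ud : U * d = y * U - x * V)
    (Va : V * a = x * V) (hk : k = 1 + k * x + y * k)
    (c2 : (U + k * x * V) * f - k * x * G =
        ((U + k * x * V) * f - k * x * G) * a + y * ((U + k * x * V) * f - k * x * G) →
        (U + k * x * V) * f - k * x * G = 0) :
    U * f = k * x * (G - V * f) := by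
  have hZ := tw_Z hU Ub Ud Va hk
  have h := c2 (by
    linear_combination (norm := noncomm_ring)
      hZ * f + Ff + (U + k * x * V) * r1 + k * x * Ga - hk * x * G)
  linear_combination (norm := noncomm_ring) h

theorem tw_s3 (r5 : e * (d + f) = (d + f) * e) (Fd : F * d = y * F - x * G) (Ff : F * f = x * G)
    (Ud : U * d = y * U - x * V) (Ue : U * e = F - Fs) (Ve : V * e = -(y * Fs))
    (Uf : U * f = k * x * Gs) :
    Fs * (d + f) = (1 - x) * y * Fs - k * x * Gs * e := by
  linear_combination (norm := noncomm_ring)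
    Ue * (d + f) - U * r5 + Fd + Ff - Ud * e - Uf * e - y * Ue + x * Ve

theorem tw_s4 (r6 : f * (d + e) = (d + e) * f) (Gd : G * d = y * F - x * G)
    (Ge : G * e = -(y * F)) (Vd : V * d = y * U - x * V) (Vf : V * f = G - Gs)
    (Ve : V * e = -(y * Fs)) (Uf : U * f = k * x * Gs) :
    Gs * (d + e) = -((x + y * k * x) * Gs) + y * Fs * f := by
  linear_combination (norm := noncomm_ring)
    Vf * (d + e) - V * r6 + Gd + Ge - Vd * f - Ve * f - y * Uf + x * Vf

theorem tw_s5 (r6 : f * (d + e) = (d + e) * f) (Ff : F * f = x * G) (Gd : G * d = y * F - x * G)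
    (Ge : G * e = -(y * F)) (Ud : U * d = y * U - x * V) (Vd : V * d = y * U - x * V)
    (Ue : U * e = F - Fs) (Vf : V * f = G - Gs)
    (Ve : V * e = -(y * Fs)) (Uf : U * f = k * x * Gs) (hk : k = 1 + k * x + y * k)
    (c3 : ∀ W : R, W = -(k * x * y) * W → W = 0) :
    Fs * f = k * x * Gs := by
  have s4 := tw_s4 r6 Gd Ge Vd Vf Ve Uf
  have h1 : Fs * f = (x + y * k * x) * Gs - k * x * (Gs * (d + e)) := by
    linear_combination (norm := noncomm_ring)
      Ue * f + Ff + U * r6 - Uf * (d + e) + Ud * f + y * Uf - x * Vf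
  have h2 := c3 (Fs * f - k * x * Gs) (by
    linear_combination (norm := noncomm_ring) h1 - k * x * s4 - hk * x * Gs)
  linear_combination (norm := noncomm_ring) h2

theorem tw_s6 (r5 : e * (d + f) = (d + f) * e) (Fd : F * d = y * F - x * G) (Ff : F * f = x * G)
    (Ge : G * e = -(y * F)) (Ud : U * d = y * U - x * V) (Vd : V * d = y * U - x * V)
    (Ue : U * e = F - Fs) (Vf : V * f = G - Gs)
    (Ve : V * e = -(y * Fs)) (Uf : U * f = k * x * Gs) (hk : k = 1 + k * x + y * k)
    (c4 : ∀ W : R, W = y * W → W = 0) :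
    (1 + y * k) * (Gs * e) = -((1 - x) * y * Fs) := by
  have s3 := tw_s3 r5 Fd Ff Ud Ue Ve Uf
  have h1 : Gs * e = -((1 - x) * y * Fs) + y * (Fs * (d + f)) := by
    linear_combination (norm := noncomm_ring)
      Vf * e + Ge + V * r5 - Ve * (d + f) + Vd * e + y * Ue - x * Ve
  have h2 := c4 ((1 + y * k) * (Gs * e) + (1 - x) * y * Fs) (by
    linear_combination (norm := noncomm_ring) h1 + y * s3 + y * hk * Gs * e)
  linear_combination (norm := noncomm_ring) h2

/-- The twisted pair solves the same system with `y` replaced by `n (1 - x) y k`. -/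
theorem tw_sys (r1 : a * f = f * a) (r2 : b * e = e * b) (r5 : e * (d + f) = (d + f) * e)
    (r6 : f * (d + e) = (d + e) * f) (Fb : F * b = 0) (Fd : F * d = y * F - x * G)
    (Ff : F * f = x * G) (Ga : G * a = x * G) (Ge : G * e = -(y * F))
    (Gd : G * d = y * F - x * G) (Ub : U * b = 0)
    (Ud : U * d = y * U - x * V) (Va : V * a = x * V) (Vd : V * d = y * U - x * V)
    (Ue : U * e = F - Fs) (Vf : V * f = G - Gs)
    (Ve : V * e = -(y * Fs)) (Uf : U * f = k * x * Gs) (hk : k = 1 + k * x + y * k)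
    (hn1 : n * (1 + y * k) = 1) (hn2 : (1 + y * k) * n = 1) (hη : (1 - x) * η = 1)
    (c3 : ∀ W : R, W = -(k * x * y) * W → W = 0) (c4 : ∀ W : R, W = y * W → W = 0) :
    ((1 - x) * n * Fs) * b = 0 ∧
    ((1 - x) * n * Fs) * d = (n * (1 - x) * y * k) * ((1 - x) * n * Fs) - x * Gs ∧
    ((1 - x) * n * Fs) * f = x * Gs ∧ Gs * a = x * Gs ∧
    Gs * e = -((n * (1 - x) * y * k) * ((1 - x) * n * Fs)) ∧
    Gs * d = (n * (1 - x) * y * k) * ((1 - x) * n * Fs) - x * Gs ∧
    k * ((1 - x) * n) = 1 ∧ (1 - x) * (n * k) = 1 := by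
  have s3 := tw_s3 r5 Fd Ff Ud Ue Ve Uf
  have s4 := tw_s4 r6 Gd Ge Vd Vf Ve Uf
  have s5 := tw_s5 r6 Ff Gd Ge Ud Vd Ue Vf Ve Uf hk c3
  have s6 := tw_s6 r5 Fd Ff Ge Ud Vd Ue Vf Ve Uf hk c4
  have hk1 : k * ((1 - x) * n) = 1 := by
    linear_combination (norm := noncomm_ring) hk * n + hn2
  have hk2 : n * k * (1 - x) = 1 := by
    linear_combination (norm := noncomm_ring) n * hk + hn1
  have hk3 : (1 - x) * (n * k) = 1 := by
    linear_combination (norm := noncomm_ring) hη + (1 - x) * hk2 * η - (1 - x) * n * k * hη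
  have ge : Gs * e = -(n * (1 - x) * y * Fs) := by
    linear_combination (norm := noncomm_ring) n * s6 - hn1 * Gs * e
  have yF : (n * (1 - x) * y * k) * ((1 - x) * n * Fs) = n * (1 - x) * y * Fs := by
    linear_combination (norm := noncomm_ring) n * (1 - x) * y * hk1 * Fs
  have ff : ((1 - x) * n * Fs) * f = x * Gs := by
    linear_combination (norm := noncomm_ring) (1 - x) * n * s5 + hk3 * x * Gs
  refine ⟨?_, ?_, ff, ?_, ?_, ?_, hk1, hk3⟩
  · linear_combination (norm := noncomm_ring)
      (1 - x) * n * (Ue * b + Fb + U * r2 - Ub * e)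
  · rw [yF]
    linear_combination (norm := noncomm_ring)
      (1 - x) * n * s3 - ff - hk3 * x * Gs * e - x * ge
  · linear_combination (norm := noncomm_ring) Vf * a + Ga + V * r1 - Va * f - x * Vf
  · rw [yF]; exact ge
  · rw [yF]
    linear_combination (norm := noncomm_ring) s4 - ge + y * s5

theorem tw_B3 (hU : U = F + U * (a + b + d)) (Ub : U * b = 0) (Ud : U * d = y * U - x * V)
    (Va : V * a = x * V) (Vd : V * d = y * U - x * V) (Ue : U * e = F - Fs)
    (Ve : V * e = -(y * Fs)) (hk : k = 1 + k * x + y * k) :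
    (1 + k * x * y) * (Fs - (U + k * x * V)) =
      -((U + k * x * V) * a) - (U + k * x * V) * (e + d) - (k * x * y * k + k) * (x * V) := by
  have hZ := tw_Z hU Ub Ud Va hk
  linear_combination (norm := noncomm_ring)
    Ue + Ud + k * x * Vd + k * x * Ve - hZ + hk * x * V

theorem tw_B4 (Vd : V * d = y * U - x * V) (Ve : V * e = -(y * Fs)) :
    x * V * (e + d) = -(x * y * (Fs - (U + k * x * V))) - (x * y * k + x) * (x * V) := by
  linear_combination (norm := noncomm_ring) x * Vd + x * Ve

theorem tw_L (hk : k = 1 + k * x + y * k) (hn2 : (1 + y * k) * n = 1)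
    (hη : (1 - x) * η = 1) (hη' : η * (1 - x) = 1) :
    (1 + (η - 1) * y) * k * (n * (1 - x) * y * k) =
      y * (k * (1 + (η - 1) * (n * (1 - x) * y * k))) := by
  have h1 : k = (1 + y * k) * η := by
    linear_combination (norm := noncomm_ring) hk * η - k * hη
  have h2 : (1 + (η - 1) * y) * k * n = η + y * k * (η - 1) * n := by
    linear_combination (norm := noncomm_ring) h1 * n + η * hn2
  linear_combination (norm := noncomm_ring) h2 * (1 - x) * y * k + hη' * y * k

theorem tw_R (hU : U = F + U * (a + b + d)) (Ub : U * b = 0) (Ud : U * d = y * U - x * V)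
    (Va : V * a = x * V) (hη' : η * (1 - x) = 1) :
    (U + (η - 1) * V) * (1 - a) = F + y * U := by
  linear_combination (norm := noncomm_ring) hU + Ub + Ud - (η - 1) * Va + hη' * V

end

end Pool.Agent.Lib.MP_446a91_nt
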