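import Pool.Agent.Lib.MP_446a91_nt.Defs
import Pool.Agent.Lib.MP_446a91_nt.NoYY

/-! Lie polynomials as noncommutative polynomials; Dynkin maps (MP_446a91_nt). -/

namespace Pool.Agent.Lib.MP_446a91_nt

open Module

attribute [local instance 100] LieRing.ofAssociativeRing

noncomputable section

section ev
variable {g h : Type} [LieRing g] [LieAlgebra ℚ g] [LieRing h] [LieAlgebra ℚ h]

@[simp] theorem ev_of (u v : g) (i : Fin 2) : ev u v (FreeLieAlgebra.of ℚ i) = ![u, v] i := by
  simp [ev]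

theorem ev_map (φ : g →ₗ⁅ℚ⁆ h) (u v : g) (ψ : FL) : φ (ev u v ψ) = ev (φ u) (φ v) ψ := by
  have : φ.comp (ev u v) = ev (φ u) (φ v) := FreeLieAlgebra.hom_ext fun i => by
    fin_cases i <;> simp
  exact LieHom.congr_fun this ψ

theorem ev_id (ψ : FL) : ev genX genY ψ = ψ := by
  have : ev genX genY = LieHom.id := FreeLieAlgebra.hom_ext fun i => by
    fin_cases i <;> simp [genX, genY]
  exact LieHom.congr_fun this ψ

theorem IsBr.pos {n : ℕ} {u : FL} (h : IsBr n u) : 1 ≤ n := by
  induction h with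
  | of i => exact le_rfl
  | lie _ _ h1 h2 => omega

theorem ev_shift {u v z : g} (hu : ⁅z, u⁆ = 0) (hv : ⁅z, v⁆ = 0) {n : ℕ} (hn : 2 ≤ n) {ψ : FL}
    (hψ : ψ ∈ deg n) : ev (u + z) v ψ = ev u v ψ := by
  have key : ∀ k w, IsBr k w → ⁅z, ev u v w⁆ = 0 ∧
      ∃ c : ℚ, ev (u + z) v w = ev u v w + c • z ∧ (2 ≤ k → c = 0) := by
    intro k w hw
    induction hw with
    | of i =>
      fin_cases i
      · exact ⟨by simpa using hu, 1, by simp, by omega⟩
      · exact ⟨by simpa using hv, 0, by simp, by omega⟩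
    | @lie m n p q _ _ h1 h2 =>
      obtain ⟨a1, c1, b1, -⟩ := h1
      obtain ⟨a2, c2, b2, -⟩ := h2
      have a1' : ⁅ev u v p, z⁆ = 0 := by rw [← lie_skew, a1, neg_zero]
      refine ⟨by rw [LieHom.map_lie, leibniz_lie, a1, a2]; simp, 0, ?_, fun _ => rfl⟩
      rw [LieHom.map_lie, LieHom.map_lie, b1, b2]
      simp [a1', a2]
  induction hψ using Submodule.span_induction with
  | mem w hw =>
    obtain ⟨-, c, h1, h2⟩ := key n w hw
    simp [h1, h2 hn]
  | zero => simp
  | add p q _ _ h1 h2 => simp [h1, h2]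
  | smul c p _ h1 => simp [h1]

end ev

/-- Noncommutative polynomials in two letters. -/
abbrev AA : Type := MonoidAlgebra ℚ (FreeMonoid (Fin 2))

def wd (w : List (Fin 2)) : AA := MonoidAlgebra.single (FreeMonoid.ofList w) 1

def linA {Z : Type*} [AddCommGroup Z] [Module ℚ Z] (φ : List (Fin 2) → Z) : AA →ₗ[ℚ] Z :=
  Finsupp.linearCombination ℚ (fun w => φ (FreeMonoid.toList w)) ∘ₗ
    (MonoidAlgebra.coeffLinearEquiv ℚ).toLinearMap

def co (w : List (Fin 2)) : AA →ₗ[ℚ] ℚ :=
  Finsupp.lapply (FreeMonoid.ofList w) ∘ₗ (MonoidAlgebra.coeffLinearEquiv ℚ).toLinearMap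

@[simp] theorem linA_wd {Z : Type*} [AddCommGroup Z] [Module ℚ Z] (φ : List (Fin 2) → Z)
    (w : List (Fin 2)) : linA φ (wd w) = φ w := by
  simp [linA, wd]

theorem co_wd (w v : List (Fin 2)) : co w (wd v) = if v = w then 1 else 0 := by
  classical
  simp [co, wd, Finsupp.single_apply]

theorem wd_mul (v w : List (Fin 2)) : wd v * wd w = wd (v ++ w) := by
  simp [wd, FreeMonoid.ofList_append]

theorem wd_nil : wd [] = 1 := rfl

theorem lin_zero {Z : Type*} [AddCommGroup Z] [Module ℚ Z] (φ : AA →ₗ[ℚ] Z) (p : AA)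
    (h : ∀ w, co w p ≠ 0 → φ (wd w) = 0) : φ p = 0 := by
  rw [← p.sum_coeff_single, Finsupp.sum, map_sum]
  refine Finset.sum_eq_zero fun w hw => ?_
  have e : MonoidAlgebra.single w (p.coeff w) = p.coeff w • wd (FreeMonoid.toList w) := by
    simp [wd]
  rw [e, map_smul, h _ (by simpa [co] using hw), smul_zero]

theorem lin_eq {Z : Type*} [AddCommGroup Z] [Module ℚ Z] (φ φ' : AA →ₗ[ℚ] Z) (p : AA)
    (h : ∀ w, co w p ≠ 0 → φ (wd w) = φ' (wd w)) : φ p = φ' p :=
  sub_eq_zero.1 (lin_zero (φ - φ') p fun w hw => sub_eq_zero.2 (h w hw))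

theorem co_ext {p : AA} (h : ∀ w, co w p = 0) : p = 0 :=
  lin_zero LinearMap.id p fun w hw => absurd (h w) hw

def evA {R : Type*} [Ring R] [Algebra ℚ R] (s t : R) : AA →ₐ[ℚ] R :=
  MonoidAlgebra.lift ℚ R _ (FreeMonoid.lift ![s, t])

@[simp] theorem evA_wd {R : Type*} [Ring R] [Algebra ℚ R] (s t : R) (w : List (Fin 2)) :
    evA s t (wd w) = wp s t w := by
  simp [evA, wd, FreeMonoid.lift_ofList, wp]

def iota : FL →ₗ⁅ℚ⁆ AA := ev (wd [0]) (wd [1])

theorem iota_of (i : Fin 2) : iota (FreeLieAlgebra.of ℚ i) = wd [i] := by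
  fin_cases i <;> simp [iota]

theorem ev_eq {R : Type} [Ring R] [Algebra ℚ R] (s t : R) (ψ : FL) :
    ev s t ψ = evA s t (iota ψ) := by
  have := ev_map (evA s t).toLieHom (wd [0]) (wd [1]) ψ
  simpa [iota] using this.symm

theorem co_nil (p : AA) : co [] p = evA (0 : ℚ) 0 p :=
  lin_eq (co []) (evA (0 : ℚ) 0).toLinearMap p fun w _ => by
    cases w with
    | nil => simp [co_wd]
    | cons i w => fin_cases i <;> simp [co_wd]

theorem co_nil_iota (ψ : FL) : co [] (iota ψ) = 0 := by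
  rw [co_nil, ← ev_eq]
  have : ev (0 : ℚ) 0 = 0 := FreeLieAlgebra.hom_ext fun i => by fin_cases i <;> simp
  rw [this]; rfl

/-- Right-normed brackets with a weight on the last letter. -/
def br (ω : Fin 2 → ℚ) : List (Fin 2) → FL
  | [] => 0
  | [i] => ω i • FreeLieAlgebra.of ℚ i
  | i :: j :: w => ⁅FreeLieAlgebra.of ℚ i, br ω (j :: w)⁆

def adA : AA →ₐ[ℚ] End ℚ FL := evA (LieAlgebra.ad ℚ FL genX) (LieAlgebra.ad ℚ FL genY)

theorem adA_iota (u v : FL) : adA (iota u) v = ⁅u, v⁆ := by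
  rw [adA, ← ev_eq, ← ev_map, ev_id, LieAlgebra.ad_apply]

theorem br_cons (ω : Fin 2 → ℚ) (i : Fin 2) {w : List (Fin 2)} (hw : w ≠ []) :
    br ω (i :: w) = ⁅FreeLieAlgebra.of ℚ i, br ω w⁆ := by
  obtain ⟨j, w, rfl⟩ := List.exists_cons_of_ne_nil hw
  rfl

theorem br_mul (ω : Fin 2 → ℚ) (p q : AA) (hq : co [] q = 0) :
    linA (br ω) (p * q) = adA p (linA (br ω) q) := by
  have h1 : ∀ v w : List (Fin 2), w ≠ [] → br ω (v ++ w) = adA (wd v) (br ω w) := by
    intro v w hw
    induction v with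
    | nil => simp [wd_nil]
    | cons i v ih =>
      rw [List.cons_append, br_cons ω i (by simp [hw]), ih, ← adA_iota, iota_of,
        ← End.mul_apply, ← map_mul, wd_mul]
      rfl
  refine lin_eq (linA (br ω) ∘ₗ LinearMap.mulRight ℚ q)
    (LinearMap.applyₗ (linA (br ω) q) ∘ₗ adA.toLinearMap) p fun v _ => ?_
  refine lin_eq (linA (br ω) ∘ₗ LinearMap.mulLeft ℚ (wd v)) (adA (wd v) ∘ₗ linA (br ω)) q
    fun w hw => ?_
  have : w ≠ [] := fun h => hw (h ▸ hq)
  simp [wd_mul, h1 v w this]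

theorem br_lie (ω : Fin 2 → ℚ) (u v : FL) : linA (br ω) (iota ⁅u, v⁆) =
    ⁅u, linA (br ω) (iota v)⁆ - ⁅v, linA (br ω) (iota u)⁆ := by
  rw [LieHom.map_lie, LieRing.of_associative_ring_bracket, map_sub, br_mul _ _ _ (co_nil_iota _),
    br_mul _ _ _ (co_nil_iota _), adA_iota, adA_iota]

theorem dynkin {n : ℕ} {ψ : FL} (hψ : ψ ∈ deg n) :
    linA (br fun _ => 1) (iota ψ) = (n : ℚ) • ψ := by
  induction hψ using Submodule.span_induction with
  | mem w hw =>
    induction hw with
    | of i => simp [iota_of, br]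
    | @lie m n p q _ _ h1 h2 =>
      rw [br_lie, h1, h2, lie_smul, lie_smul, ← lie_skew q p, smul_neg, sub_neg_eq_add,
        Nat.cast_add, add_smul, add_comm]
  | zero => simp
  | add p q _ _ h1 h2 => simp [h1, h2]
  | smul c p _ h1 => simp [h1, smul_comm c]

/-- The weight derivation. -/
def DA (ω : Fin 2 → ℚ) : AA →ₗ[ℚ] AA := linA fun w => (w.map ω).sum • wd w

theorem co_DA (ω : Fin 2 → ℚ) (w : List (Fin 2)) (p : AA) :
    co w (DA ω p) = (w.map ω).sum * co w p :=
  lin_eq (co w ∘ₗ DA ω) ((w.map ω).sum • co w) p fun v _ => by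
    by_cases h : v = w <;> simp [DA, co_wd, h]

theorem DA_mul (ω : Fin 2 → ℚ) (p q : AA) : DA ω (p * q) = DA ω p * q + p * DA ω q := by
  refine lin_eq (DA ω ∘ₗ LinearMap.mulRight ℚ q)
    (LinearMap.mulRight ℚ q ∘ₗ DA ω + LinearMap.mulRight ℚ (DA ω q)) p fun v _ => ?_
  refine lin_eq (DA ω ∘ₗ LinearMap.mulLeft ℚ (wd v))
    (LinearMap.mulLeft ℚ (DA ω (wd v)) + LinearMap.mulLeft ℚ (wd v) ∘ₗ DA ω) q fun w _ => ?_
  simp [DA, wd_mul, add_smul]

theorem iota_br (ω : Fin 2 → ℚ) {n : ℕ} {ψ : FL} (hψ : ψ ∈ deg n) :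
    iota (linA (br ω) (iota ψ)) = DA ω (iota ψ) := by
  induction hψ using Submodule.span_induction with
  | mem w hw =>
    induction hw with
    | of i => simp [iota_of, br, DA]
    | @lie m n p q _ _ h1 h2 =>
      rw [br_lie, map_sub, LieHom.map_lie, LieHom.map_lie, h1, h2, LieHom.map_lie]
      simp only [LieRing.of_associative_ring_bracket, map_sub, DA_mul]
      abel
  | zero => simp
  | add p q _ _ h1 h2 => simp [h1, h2]
  | smul c p _ h1 => simp [h1]

theorem length_of_co {n : ℕ} {ψ : FL} (hψ : ψ ∈ deg n) {w : List (Fin 2)}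
    (hw : co w (iota ψ) ≠ 0) : w.length = n := by
  have h := congrArg (co w) (iota_br (fun _ => 1) hψ)
  rw [dynkin hψ, co_DA, map_smul, map_smul, smul_eq_mul] at h
  have := mul_right_cancel₀ hw h
  simpa using this.symm

theorem co_cons_mul (r i : Fin 2) (w : List (Fin 2)) (q : AA) :
    co (i :: w) (wd [r] * q) = if r = i then co w q else 0 :=
  lin_eq (co (i :: w) ∘ₗ LinearMap.mulLeft ℚ (wd [r])) (if r = i then co w else 0) q
    (fun v _ => by by_cases h : r = i <;> simp [wd_mul, co_wd, h]) |>.trans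
    (by split_ifs <;> simp)

theorem co_concat_mul (r i : Fin 2) (w : List (Fin 2)) (q : AA) :
    co (w ++ [i]) (q * wd [r]) = if r = i then co w q else 0 :=
  lin_eq (co (w ++ [i]) ∘ₗ LinearMap.mulRight ℚ (wd [r])) (if r = i then co w else 0) q
    (fun v _ => by by_cases h : r = i <;> simp [wd_mul, co_wd, h]) |>.trans
    (by split_ifs <;> simp)

theorem br_concat (ω : Fin 2 → ℚ) (v : List (Fin 2)) (i : Fin 2) (hi : ω i = 0) :
    br ω (v ++ [i]) = 0 := by
  induction v with
  | nil => simp [br, hi]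
  | cons j v ih => rw [List.cons_append, br_cons ω j (by simp), ih, lie_zero]

/-- A Lie polynomial of degree at least two is determined by its coefficients at the words whose
first and last letters differ. -/
theorem eq_zero_of_co {n : ℕ} (hn : 2 ≤ n) {ψ : FL} (hψ : ψ ∈ deg n)
    (h : ∀ i j w, i ≠ j → co (i :: (w ++ [j])) (iota ψ) = 0) : ψ = 0 := by
  have shape : ∀ w, co w (iota ψ) ≠ 0 → ∃ i v, w = i :: (v ++ [i]) := by
    intro w hw
    have hl := length_of_co hψ hw
    obtain ⟨i, w', rfl⟩ := List.exists_cons_of_ne_nil (l := w) (by rintro rfl; simp at hl; omega)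
    rcases List.eq_nil_or_concat w' with rfl | ⟨v, j, rfl⟩
    · simp at hl; omega
    · rw [List.concat_eq_append] at hw ⊢
      by_cases hij : i = j
      · exact ⟨i, v, by rw [hij]⟩
      · exact absurd (h i j v hij) hw
  have key : ∀ (r : Fin 2) (w : List (Fin 2)),
      (∀ q : AA, co w (wd [r] * q - q * wd [r]) = 0) →
      ((w.map fun i => if i = r then (1 : ℚ) else 0).sum) * co w (iota ψ) = 0 := by
    intro r w hw
    rw [← co_DA, ← iota_br _ hψ]
    refine lin_zero (co w ∘ₗ iota.toLinearMap ∘ₗ linA (br _)) _ fun v hv => ?_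
    obtain ⟨i, v, rfl⟩ := shape v hv
    by_cases hi : i = r
    · simp only [LinearMap.comp_apply, linA_wd, LieHom.coe_toLinearMap]
      rw [br_cons _ _ (by simp), LieHom.map_lie, iota_of, LieRing.of_associative_ring_bracket, hi]
      exact hw _
    · simp only [LinearMap.comp_apply, linA_wd, LieHom.coe_toLinearMap]
      rw [← List.cons_append, br_concat _ _ _ (by simp [hi]), map_zero, map_zero]
  have h0 : iota ψ = 0 := by
    refine co_ext fun w => by_contra fun hw => ?_
    obtain ⟨i, v, rfl⟩ := shape w hw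
    by_cases hv : ∀ j ∈ v, j = i
    · have e : v ++ [i] = i :: v := by
        rw [List.eq_replicate_iff.2 ⟨rfl, hv⟩, ← List.replicate_succ', List.replicate_succ]
      have := key i (i :: (v ++ [i])) fun q => by
        rw [map_sub, co_cons_mul, ← List.cons_append, co_concat_mul, e]; simp
      refine hw ((mul_eq_zero.1 this).resolve_left (ne_of_gt ?_))
      rw [List.map_cons, List.sum_cons, if_pos rfl]
      exact add_pos_of_pos_of_nonneg one_pos (List.sum_nonneg fun c hc => by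
        obtain ⟨j, -, rfl⟩ := List.mem_map.1 hc
        split_ifs <;> norm_num)
    · push Not at hv
      obtain ⟨r, hr, hri⟩ := hv
      have := key r (i :: (v ++ [i])) fun q => by
        rw [map_sub, co_cons_mul, ← List.cons_append, co_concat_mul]; simp [hri]
      refine hw ((mul_eq_zero.1 this).resolve_left (ne_of_gt ?_))
      refine lt_of_lt_of_le one_pos (List.single_le_sum (fun c hc => ?_) 1 ?_)
      · obtain ⟨j, -, rfl⟩ := List.mem_map.1 hc
        split_ifs <;> norm_num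
      · exact List.mem_map.2 ⟨r, by simp [hr], by simp⟩
  have h1 := dynkin hψ
  rw [h0, map_zero] at h1
  exact (smul_eq_zero.1 h1.symm).resolve_left (by norm_cast; omega)

theorem co_swap (ψ : FL) (w : List (Fin 2)) :
    co (w.map Fin.rev) (iota (ev genY genX ψ)) = co w (iota ψ) := by
  rw [ev_map, ev_eq]
  refine lin_eq (co (w.map Fin.rev) ∘ₗ (evA (iota genY) (iota genX)).toLinearMap) (co w) _
    fun v hv => ?_
  clear hv
  have e : wp (iota genY) (iota genX) v = wd (v.map Fin.rev) := by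
    induction v with
    | nil => rfl
    | cons i v ih =>
      rw [wp_cons, ih, List.map_cons, ← List.singleton_append, ← wd_mul]
      fin_cases i <;> simp [genX, genY, iota_of]
  have inj : v.map Fin.rev = w.map Fin.rev ↔ v = w :=
    (List.map_injective_iff.2 Fin.rev_injective).eq_iff
  simp [e, co_wd, inj]

end

end Pool.Agent.Lib.MP_446a91_nt
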